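import Pool.Agent.CpPN.Defs

/-! # Module HL: the hereditarily Lindelöf case -/

set_option autoImplicit false

namespace Pool.Agent.CpPN

open Set Topology

variable {X : Type} [TopologicalSpace X]

namespace CaseHLAux

/-- the open box of a tuple of functions -/
def Box {m n : ℕ} (q : Fin n → Fin m → ℚ) (δ : ℚ) (h : Fin m → C(X, ℝ)) : Set (Fin n → X) :=
  {x | ∀ i j, |h j (x i) - q i j| < δ}

theorem isOpen_Box {m n : ℕ} (q : Fin n → Fin m → ℚ) (δ : ℚ) (h : Fin m → C(X, ℝ)) :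
    IsOpen (Box q δ h) := by
  unfold Box
  simp only [Set.ofPred_forall]
  refine isOpen_iInter_of_finite fun i => isOpen_iInter_of_finite fun j => ?_
  exact isOpen_lt (((h j).continuous.comp (continuous_apply i)).sub continuous_const).abs
    continuous_const

end CaseHLAux

open CaseHLAux

theorem sep_of_hl (h : HLall X) {m : ℕ} (E : Set (Fin m → C(X, ℝ))) : SepPt E := by
  classical
  have key : ∀ (n : ℕ) (q : Fin n → Fin m → ℚ) (δ : ℚ), ∃ D : Set (Fin m → C(X, ℝ)),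
      D ⊆ E ∧ D.Countable ∧ ∀ f ∈ E, ∀ x ∈ Box q δ f, ∃ d ∈ D, x ∈ Box q δ d := by
    intro n q δ
    obtain ⟨V, hVW, hVc, hVU⟩ := h n (Box q δ '' E)
      (by rintro _ ⟨f, _, rfl⟩; exact isOpen_Box q δ f)
    have hVW' : ∀ U ∈ V, ∃ g ∈ E, Box q δ g = U := fun U hU => hVW hU
    choose! f hf hfV using hVW'
    refine ⟨f '' V, ?_, hVc.image _, ?_⟩
    · rintro _ ⟨U, hU, rfl⟩
      exact hf U hU
    · intro g hg x hx
      have h1 : x ∈ ⋃₀ (Box q δ '' E) := ⟨Box q δ g, ⟨g, hg, rfl⟩, hx⟩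
      rw [← hVU] at h1
      obtain ⟨U, hU, hxU⟩ := h1
      exact ⟨f U, ⟨U, hU, rfl⟩, by rw [hfV U hU]; exact hxU⟩
  choose D hDE hDc hD using key
  refine ⟨⋃ (p : Σ n : ℕ, (Fin n → Fin m → ℚ) × ℚ), D p.1 p.2.1 p.2.2,
    iUnion_subset fun p => hDE _ _ _, countable_iUnion fun p => hDc _ _ _, ?_⟩
  intro f hf T ε hε
  obtain ⟨δ, hδ0, hδ⟩ := exists_rat_btwn (show (0 : ℝ) < ε / 2 by linarith)
  let x : Fin T.card → X := fun i => (T.equivFin.symm i : X)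
  have hq : ∀ (i : Fin T.card) (j : Fin m), ∃ q : ℚ, |f j (x i) - q| < δ := by
    intro i j
    obtain ⟨q, hq1, hq2⟩ := exists_rat_btwn (show f j (x i) - δ < f j (x i) by linarith)
    exact ⟨q, by rw [abs_lt]; constructor <;> linarith⟩
  choose q hq using hq
  obtain ⟨d, hd, hxd⟩ := hD _ q δ f hf x hq
  refine ⟨d, mem_iUnion.2 ⟨⟨T.card, q, δ⟩, hd⟩, fun p hp j => ?_⟩
  have hxp : x (T.equivFin ⟨p, hp⟩) = p := by simp [x]
  have h1 := hxd (T.equivFin ⟨p, hp⟩) j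
  have h2 := hq (T.equivFin ⟨p, hp⟩) j
  rw [hxp] at h1 h2
  rw [abs_lt] at h1 h2 ⊢
  constructor <;> linarith [h1.1, h1.2, h2.1, h2.2]

end Pool.Agent.CpPN
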