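import Pool.Agent.CpPN.Defs

/-! # Module DE: a countable determining set -/

set_option autoImplicit false

namespace Pool.Agent.CpPN

open Set Topology

variable {X : Type} [TopologicalSpace X]

namespace DetermAux

/-- tuples `x` such that no member of `E` is close to the table `q` on `x` -/
def badSet {m : ℕ} (E : Set (Fin m → C(X, ℝ))) (n : ℕ) (q : Fin n → Fin m → ℚ) (δ : ℚ) :
    Set (Fin n → X) :=
  {x | ∀ f ∈ E, ∃ i j, (δ : ℝ) ≤ |f j (x i) - (q i j : ℝ)|}

theorem isOpen_near {m n : ℕ} (g : Fin m → C(X, ℝ)) (q : Fin n → Fin m → ℝ) (δ : ℝ) :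
    IsOpen {x : Fin n → X | ∀ i j, |g j (x i) - q i j| < δ} := by
  have : {x : Fin n → X | ∀ i j, |g j (x i) - q i j| < δ} =
      ⋂ i, ⋂ j, {x : Fin n → X | |g j (x i) - q i j| < δ} := by
    ext x; simp
  rw [this]
  refine isOpen_iInter_of_finite fun i => isOpen_iInter_of_finite fun j => ?_
  refine isOpen_lt ?_ continuous_const
  exact (((g j).continuous.comp (continuous_apply i)).sub continuous_const).abs

theorem exists_countable_dense (h : HSall X) : ∃ D : Set X, D.Countable ∧ Dense D := by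
  obtain ⟨D, -, hDc, hD⟩ := h 1 Set.univ
  refine ⟨(fun x : Fin 1 → X => x 0) '' D, hDc.image _, ?_⟩
  have hd : Dense D := fun x => hD (Set.mem_univ x)
  have hs : Function.Surjective (fun x : Fin 1 → X => x 0) := fun x => ⟨fun _ => x, rfl⟩
  exact hs.denseRange.dense_image (continuous_apply 0) hd

end DetermAux

open DetermAux in
theorem exists_seq [Nonempty X] (h : HSall X) {m : ℕ} (E : Set (Fin m → C(X, ℝ)))
    (hE : ClosedPt E) : ∃ y : ℕ → X, DenseRange y ∧
      ∀ g : Fin m → C(X, ℝ), (∀ n : ℕ, ∀ ε : ℝ, 0 < ε →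
        ∃ f ∈ E, ∀ i ≤ n, ∀ j, |f j (y i) - g j (y i)| < ε) → g ∈ E := by
  classical
  obtain ⟨D₀, hD₀c, hD₀⟩ := exists_countable_dense h
  choose D hDsub hDc hDd using fun (n : ℕ) (q : Fin n → Fin m → ℚ) (δ : ℚ) =>
    h n (badSet E n q δ)
  set Y : Set X := D₀ ∪ ⋃ (n : ℕ), ⋃ (q : Fin n → Fin m → ℚ), ⋃ (δ : ℚ),
    ⋃ x ∈ D n q δ, Set.range x with hY
  have hYc : Y.Countable := by
    refine hD₀c.union ?_
    refine Set.countable_iUnion fun n => Set.countable_iUnion fun q =>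
      Set.countable_iUnion fun δ => ?_
    exact (hDc n q δ).biUnion fun x _ => Set.countable_range x
  have hYd : Dense Y := hD₀.mono Set.subset_union_left
  obtain ⟨y, hy⟩ := hYc.exists_eq_range hYd.nonempty
  refine ⟨y, ?_, ?_⟩
  · rw [DenseRange, ← hy]; exact hYd
  intro g hg
  by_contra hgE
  have hne : ¬ ∀ T : Finset X, ∀ ε : ℝ, 0 < ε →
      ∃ h ∈ E, ∀ x ∈ T, ∀ j, |h j x - g j x| < ε := fun H => hgE (hE g H)
  push Not at hne
  obtain ⟨T, ε, hε, hT⟩ := hne
  obtain ⟨δ, hδ0, hδ1⟩ := exists_rat_btwn (show (0 : ℝ) < ε / 2 by linarith)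
  have hδ0' : (0 : ℝ) < δ := by exact_mod_cast hδ0
  set n := T.card with hn
  let e : Fin n ≃ T := (Finset.equivFin T).symm
  have hq : ∀ (i : Fin n) (j : Fin m), ∃ r : ℚ, |g j (e i) - (r : ℝ)| < (δ : ℝ) / 2 := by
    intro i j
    obtain ⟨r, hr1, hr2⟩ := exists_rat_btwn
      (show g j (e i) - (δ : ℝ) / 2 < g j (e i) + (δ : ℝ) / 2 by linarith)
    exact ⟨r, by rw [abs_lt]; constructor <;> linarith⟩
  choose q hq using hq
  have hxbad : (fun i => (e i : X)) ∈ badSet E n q δ := by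
    intro f hf
    obtain ⟨x, hx, j, hj⟩ := hT f hf
    refine ⟨e.symm ⟨x, hx⟩, j, ?_⟩
    have h1 := hq (e.symm ⟨x, hx⟩) j
    simp only [Equiv.apply_symm_apply] at h1 ⊢
    have h2 := abs_sub_abs_le_abs_sub (f j x - g j x) ((q (e.symm ⟨x, hx⟩) j : ℝ) - g j x)
    have h3 : f j x - g j x - ((q (e.symm ⟨x, hx⟩) j : ℝ) - g j x) =
        f j x - (q (e.symm ⟨x, hx⟩) j : ℝ) := by ring
    rw [h3, abs_sub_comm (q (e.symm ⟨x, hx⟩) j : ℝ) (g j x)] at h2
    linarith
  have hcl := hDd n q δ hxbad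
  rw [mem_closure_iff] at hcl
  obtain ⟨x', hx'U, hx'D⟩ := hcl _ (isOpen_near g (fun i j => (q i j : ℝ)) ((δ : ℝ) / 2))
    (fun i j => hq i j)
  have hx'Y : ∀ i, ∃ k, y k = x' i := by
    intro i
    have : x' i ∈ Y := by
      refine Or.inr ?_
      simp only [Set.mem_iUnion]
      exact ⟨n, q, δ, x', hx'D, i, rfl⟩
    rw [hy] at this
    exact this
  choose k hk using hx'Y
  obtain ⟨f, hf, hfg⟩ := hg (Finset.univ.sup k) ((δ : ℝ) / 2) (by linarith)
  obtain ⟨i, j, hij⟩ := hDsub n q δ hx'D f hf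
  have h1 := hfg (k i) (Finset.le_sup (f := k) (Finset.mem_univ i)) j
  rw [hk i] at h1
  have h2 := hx'U i j
  have h3 := abs_add_le (f j (x' i) - g j (x' i)) (g j (x' i) - (q i j : ℝ))
  rw [sub_add_sub_cancel] at h3
  linarith

end Pool.Agent.CpPN
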