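import Pool.Agent.CpPN.Defs

/-! # Module DC: discretisation along a sequence by a compact family -/

set_option autoImplicit false

namespace Pool.Agent.CpPN

open Set Topology

variable {X : Type} [TopologicalSpace X]

namespace DiscrAux

theorem isLat_mono {i k : ℕ} (h : i ≤ k) {r : ℝ} (hr : IsLat i r) : IsLat k r := by
  obtain ⟨z, hz⟩ := hr
  refine ⟨z * 2 ^ (k - i), ?_⟩
  rw [hz]
  have h2 : (2 : ℝ) ^ k = 2 ^ (k - i) * 2 ^ i := by rw [← pow_add]; congr 1; omega
  have h3 : (2 : ℝ) ^ i ≠ 0 := by positivity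
  have h4 : (2 : ℝ) ^ (k - i) ≠ 0 := by positivity
  push_cast
  rw [h2, div_eq_div_iff h3 (mul_ne_zero h4 h3)]
  ring

/-- bumps along a sequence -/
theorem exists_bump [T35Space X] (y : ℕ → X) : ∃ b : ℕ → C(X, ℝ),
    (∀ i x, 0 ≤ b i x) ∧ (∀ i x, b i x ≤ 1) ∧ (∀ i j, j < i → b i (y j) = 0) ∧
    (∀ i, (∀ j, j < i → y j ≠ y i) → b i (y i) = 1) := by
  have key : ∀ i : ℕ, ∃ b : C(X, ℝ), (∀ x, 0 ≤ b x) ∧ (∀ x, b x ≤ 1) ∧
      (∀ j, j < i → b (y j) = 0) ∧ ((∀ j, j < i → y j ≠ y i) → b (y i) = 1) := by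
    intro i
    by_cases hfresh : ∀ j, j < i → y j ≠ y i
    · have hK : IsClosed (y '' {j | j < i}) := ((Set.finite_lt_nat i).image y).isClosed
      have hyK : y i ∉ y '' {j | j < i} := by
        rintro ⟨j, hj, hji⟩
        exact hfresh j hj hji
      obtain ⟨f, hf, hf0, hf1⟩ := CompletelyRegularSpace.completely_regular (y i) _ hK hyK
      refine ⟨⟨fun x => 1 - (f x : ℝ), by fun_prop⟩, ?_, ?_, ?_, ?_⟩
      · intro x
        have := (f x).2.2
        simp only [ContinuousMap.coe_mk]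
        linarith
      · intro x
        have := (f x).2.1
        simp only [ContinuousMap.coe_mk]
        linarith
      · intro j hj
        have := hf1 ⟨j, hj, rfl⟩
        simp only [ContinuousMap.coe_mk]
        rw [this]
        simp
      · intro _
        simp only [ContinuousMap.coe_mk]
        rw [hf0]
        simp
    · exact ⟨0, fun x => le_refl _, fun x => zero_le_one, fun j _ => rfl,
        fun h => absurd h hfresh⟩
  choose b h1 h2 h3 h4 using key
  exact ⟨b, h1, h2, h3, h4⟩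

/-- the recursive choice of the coefficients -/
noncomputable def coef (v : ℕ → ℝ) (c : ℕ → ℕ → ℝ) : ℕ → ℝ
  | i => Int.fract (2 ^ i * (v i - ∑ k : Fin i, coef v c k.1 * c k.1 i)) / 2 ^ i
termination_by i => i
decreasing_by exact k.2

theorem coef_eq (v : ℕ → ℝ) (c : ℕ → ℕ → ℝ) (i : ℕ) :
    coef v c i =
      Int.fract (2 ^ i * (v i - ∑ k ∈ Finset.range i, coef v c k * c k i)) / 2 ^ i := by
  rw [coef, Finset.sum_range]

theorem coef_mem (v : ℕ → ℝ) (c : ℕ → ℕ → ℝ) (i : ℕ) :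
    coef v c i ∈ Set.Icc (0 : ℝ) ((1 / 2) ^ i) := by
  rw [coef_eq]
  constructor
  · exact div_nonneg (Int.fract_nonneg _) (by positivity)
  · rw [one_div, inv_pow, div_eq_mul_inv]
    have h := (Int.fract_lt_one (2 ^ i * (v i - ∑ k ∈ Finset.range i, coef v c k * c k i))).le
    have h2 : (0 : ℝ) ≤ (2 ^ i)⁻¹ := by positivity
    calc _ ≤ 1 * ((2 : ℝ) ^ i)⁻¹ := mul_le_mul_of_nonneg_right h h2
      _ = _ := one_mul _

theorem coef_lat (v : ℕ → ℝ) (c : ℕ → ℕ → ℝ) (i : ℕ) :
    IsLat i (v i - (∑ k ∈ Finset.range i, coef v c k * c k i) - coef v c i) := by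
  refine ⟨⌊2 ^ i * (v i - ∑ k ∈ Finset.range i, coef v c k * c k i)⌋, ?_⟩
  have h := Int.floor_add_fract (2 ^ i * (v i - ∑ k ∈ Finset.range i, coef v c k * c k i))
  have h2 : (2 : ℝ) ^ i ≠ 0 := by positivity
  rw [eq_div_iff h2]
  conv_lhs => rw [coef_eq v c i]
  rw [sub_mul, div_mul_cancel₀ _ h2]
  linarith

/-- the compact parameter space -/
abbrev Par (m : ℕ) : Type := (i : ℕ) → Fin m → Set.Icc (0 : ℝ) ((1 / 2) ^ i)

theorem par_nonneg {m : ℕ} (β : Par m) (i : ℕ) (j : Fin m) : 0 ≤ (β i j : ℝ) := (β i j).2.1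

theorem par_le {m : ℕ} (β : Par m) (i : ℕ) (j : Fin m) : (β i j : ℝ) ≤ (1 / 2) ^ i :=
  (β i j).2.2

theorem summable_half : Summable (fun i : ℕ => ((1 : ℝ) / 2) ^ i) := summable_geometric_two

theorem term_bound {m : ℕ} (b : ℕ → C(X, ℝ)) (h0 : ∀ i x, 0 ≤ b i x) (h1 : ∀ i x, b i x ≤ 1)
    (β : Par m) (j : Fin m) (i : ℕ) (x : X) : ‖(β i j : ℝ) * b i x‖ ≤ (1 / 2) ^ i := by
  rw [Real.norm_eq_abs, abs_of_nonneg (mul_nonneg (par_nonneg β i j) (h0 i x))]
  calc (β i j : ℝ) * b i x ≤ (1 / 2) ^ i * 1 :=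
        mul_le_mul (par_le β i j) (h1 i x) (h0 i x) (by positivity)
    _ = _ := mul_one _

theorem summable_term {m : ℕ} (b : ℕ → C(X, ℝ)) (h0 : ∀ i x, 0 ≤ b i x)
    (h1 : ∀ i x, b i x ≤ 1) (β : Par m) (j : Fin m) (x : X) :
    Summable fun i => (β i j : ℝ) * b i x :=
  Summable.of_norm_bounded summable_half fun i => term_bound b h0 h1 β j i x

/-- the continuous function attached to a parameter -/
noncomputable def phi {m : ℕ} (b : ℕ → C(X, ℝ)) (h0 : ∀ i x, 0 ≤ b i x)
    (h1 : ∀ i x, b i x ≤ 1) (β : Par m) (j : Fin m) : C(X, ℝ) :=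
  ⟨fun x => ∑' i, (β i j : ℝ) * b i x,
    continuous_tsum (fun i => by fun_prop) summable_half fun i x => term_bound b h0 h1 β j i x⟩

theorem phi_apply {m : ℕ} (b : ℕ → C(X, ℝ)) (h0 : ∀ i x, 0 ≤ b i x)
    (h1 : ∀ i x, b i x ≤ 1) (β : Par m) (j : Fin m) (x : X) :
    phi b h0 h1 β j x = ∑' i, (β i j : ℝ) * b i x := rfl

theorem diff_bound {m : ℕ} (β β' : Par m) (i : ℕ) (j : Fin m) :
    |(β' i j : ℝ) - β i j| ≤ (1 / 2) ^ i := by
  rw [abs_le]
  constructor
  · linarith [par_nonneg β' i j, par_le β i j]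
  · linarith [par_nonneg β i j, par_le β' i j]

theorem phi_diff {m : ℕ} (b : ℕ → C(X, ℝ)) (h0 : ∀ i x, 0 ≤ b i x)
    (h1 : ∀ i x, b i x ≤ 1) (β β' : Par m) (j : Fin m) (x : X) :
    |phi b h0 h1 β' j x - phi b h0 h1 β j x| ≤ ∑' i, |(β' i j : ℝ) - β i j| := by
  rw [phi_apply, phi_apply,
    ← (summable_term b h0 h1 β' j x).tsum_sub (summable_term b h0 h1 β j x)]
  have hs : Summable fun i => |(β' i j : ℝ) - β i j| :=
    Summable.of_nonneg_of_le (fun i => abs_nonneg _) (fun i => diff_bound β β' i j)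
      summable_half
  have hb : ∀ i, ‖(β' i j : ℝ) * b i x - (β i j : ℝ) * b i x‖ ≤ |(β' i j : ℝ) - β i j| := by
    intro i
    rw [← sub_mul, norm_mul, Real.norm_eq_abs, Real.norm_eq_abs, abs_of_nonneg (h0 i x)]
    exact mul_le_of_le_one_right (abs_nonneg _) (h1 i x)
  have := tsum_of_norm_bounded hs.hasSum hb
  rwa [Real.norm_eq_abs] at this

end DiscrAux

open DiscrAux in
theorem exists_discr [T35Space X] (m : ℕ) (y : ℕ → X) :
    ∃ (B : Type) (_ : TopologicalSpace B) (_ : CompactSpace B) (_ : T2Space B)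
      (_ : SecondCountableTopology B) (Φ : B → Fin m → C(X, ℝ)),
      (∀ f : Fin m → C(X, ℝ), ∃ β : B, ∀ i j, IsLat i (f j (y i) - Φ β j (y i))) ∧
      ∀ β : B, ∀ ε : ℝ, 0 < ε → ∀ᶠ β' in 𝓝 β, ∀ x j, |Φ β' j x - Φ β j x| < ε := by
  classical
  obtain ⟨b, h0, h1, hz, hone⟩ := exists_bump y
  refine ⟨Par m, inferInstance, inferInstance, inferInstance, inferInstance,
    phi b h0 h1, ?_, ?_⟩
  · intro f
    refine ⟨fun i j => ⟨coef (fun i => f j (y i)) (fun k i => b k (y i)) i, coef_mem _ _ i⟩, ?_⟩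
    intro i j
    induction i using Nat.strong_induction_on with
    | _ i ih =>
      by_cases hfresh : ∀ k, k < i → y k ≠ y i
      · have hval : phi b h0 h1 (fun i j => ⟨coef (fun i => f j (y i)) (fun k i => b k (y i)) i,
            coef_mem _ _ i⟩) j (y i) = (∑ k ∈ Finset.range i,
            coef (fun i => f j (y i)) (fun k i => b k (y i)) k * b k (y i)) +
            coef (fun i => f j (y i)) (fun k i => b k (y i)) i := by
          rw [phi_apply, tsum_eq_sum (s := Finset.range (i + 1)), Finset.sum_range_succ,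
            hone i hfresh, mul_one]
          intro k hk
          rw [hz k i (by simpa using hk), mul_zero]
        rw [hval, ← sub_sub]
        exact coef_lat (fun i => f j (y i)) (fun k i => b k (y i)) i
      · push Not at hfresh
        obtain ⟨k, hk, hki⟩ := hfresh
        rw [← hki]
        exact isLat_mono hk.le (ih k hk)
  · intro β ε hε
    have hc : ∀ j : Fin m, Continuous fun β' : Par m => ∑' i, |(β' i j : ℝ) - β i j| := by
      intro j
      refine continuous_tsum (fun i => by fun_prop) summable_half fun i β' => ?_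
      rw [Real.norm_eq_abs, abs_abs]
      exact diff_bound β β' i j
    have he : ∀ j : Fin m, ∀ᶠ β' in 𝓝 β, ∑' i, |((β' : Par m) i j : ℝ) - β i j| < ε := by
      intro j
      have h2 : ∑' i, |(β i j : ℝ) - β i j| < ε := by simpa using hε
      exact (hc j).continuousAt.eventually_lt continuousAt_const h2
    filter_upwards [Filter.eventually_all.2 he] with β' hβ' x j
    exact (phi_diff b h0 h1 β β' j x).trans_lt (hβ' j)

end Pool.Agent.CpPN
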