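import Pool.Agent.CpPN.MainProp
import Pool.Agent.CpPN.Determ
import Pool.Agent.CpPN.Discr

/-! # Module HS: the hereditarily separable case -/

set_option autoImplicit false

namespace Pool.Agent.CpPN

open Set Topology

variable {X : Type} [TopologicalSpace X]

namespace CaseHSAux

/-- the lattice valued functions that are moved into `E` by a parameter in `Γ` -/
def HG {m : ℕ} {B : Type} (y : ℕ → X) (Φ : B → Fin m → C(X, ℝ)) (E : Set (Fin m → C(X, ℝ)))
    (Γ : Set B) : Set (Fin m → C(X, ℝ)) :=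
  {f | (∀ i j, IsLat i (f j (y i))) ∧ ∃ β ∈ Γ, (f + Φ β) ∈ E}

theorem hg_det {m : ℕ} {B : Type} [TopologicalSpace B] [CompactSpace B] (y : ℕ → X)
    (Φ : B → Fin m → C(X, ℝ)) (E : Set (Fin m → C(X, ℝ)))
    (hyE : ∀ g : Fin m → C(X, ℝ), (∀ n : ℕ, ∀ ε : ℝ, 0 < ε →
        ∃ f ∈ E, ∀ i ≤ n, ∀ j, |f j (y i) - g j (y i)| < ε) → g ∈ E)
    (hΦ2 : ∀ β : B, ∀ ε : ℝ, 0 < ε → ∀ᶠ β' in 𝓝 β, ∀ x j, |Φ β' j x - Φ β j x| < ε)
    (Γ : Set B) (hΓ : IsClosed Γ) (f : Fin m → C(X, ℝ))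
    (hf : ∀ n : ℕ, ∃ g ∈ HG y Φ E Γ, ∀ i ≤ n, ∀ j, g j (y i) = f j (y i)) : f ∈ HG y Φ E Γ := by
  refine ⟨fun i j => ?_, ?_⟩
  · obtain ⟨g, hg, hgf⟩ := hf i
    rw [← hgf i le_rfl j]
    exact hg.1 i j
  · choose g hg hgf using hf
    choose β hβΓ hβE using fun n => (hg n).2
    have hmem : Γ ∈ (Filter.hyperfilter ℕ).map β := by
      rw [Ultrafilter.mem_map, Set.eq_univ_of_forall (s := β ⁻¹' Γ) hβΓ]
      exact Filter.univ_mem
    obtain ⟨b, hbΓ, hb⟩ := hΓ.isCompact.ultrafilter_le_nhds ((Filter.hyperfilter ℕ).map β)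
      (Filter.le_principal_iff.2 hmem)
    refine ⟨b, hbΓ, hyE _ fun n ε hε => ?_⟩
    have h1 : ∀ᶠ k in (Filter.hyperfilter ℕ : Filter ℕ), ∀ x j, |Φ (β k) j x - Φ b j x| < ε :=
      hb (hΦ2 b ε hε)
    have h2 : ∀ᶠ k in (Filter.hyperfilter ℕ : Filter ℕ), n ≤ k := by
      have h3 : (Filter.hyperfilter ℕ : Filter ℕ) ≤ Filter.atTop := by
        rw [← Nat.cofinite_eq_atTop]
        exact Filter.hyperfilter_le_cofinite
      exact h3 (Filter.eventually_ge_atTop n)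
    obtain ⟨k, hk1, hk2⟩ := (h1.and h2).exists
    refine ⟨_, hβE k, fun i hi j => ?_⟩
    rw [Pi.add_apply, Pi.add_apply, ContinuousMap.add_apply, ContinuousMap.add_apply,
      hgf k i (hi.trans hk2) j, add_sub_add_left_eq_sub]
    exact hk1 _ _

end CaseHSAux

open CaseHSAux

theorem sep_of_hs [T35Space X] (h : CountProp X) (hs : HSall X) {m : ℕ}
    (E : Set (Fin m → C(X, ℝ))) (hE : ClosedPt E) : SepPt E := by
  classical
  rcases isEmpty_or_nonempty X with hX | hX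
  · have hsub : Subsingleton (Fin m → C(X, ℝ)) := by
      refine ⟨fun f g => funext fun j => ContinuousMap.ext fun x => (hX.false x).elim⟩
    exact ⟨E, Subset.rfl, (Set.subsingleton_of_subsingleton).countable,
      fun h hh _ ε hε => ⟨h, hh, fun x => (hX.false x).elim⟩⟩
  obtain ⟨y, hy, hyE⟩ := exists_seq hs E hE
  obtain ⟨B, _, _, _, _, Φ, hΦ1, hΦ2⟩ := exists_discr m y
  have hsep : ∀ Γ : Set B, IsClosed Γ → SepPt (HG y Φ E Γ) := fun Γ hΓ =>
    mainProp h y hy (HG y Φ E Γ) (fun f hf => hf.1) (hg_det y Φ E hyE hΦ2 Γ hΓ)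
  choose D hDsub hDc hDd using fun W : Set B => hsep (closure W) isClosed_closure
  have hb : ∀ W : Set B, ∀ d : Fin m → C(X, ℝ), d ∈ D W → ∃ β ∈ closure W, (d + Φ β) ∈ E :=
    fun W d hd => (hDsub W hd).2
  have hB : Nonempty B := ⟨(hΦ1 0).choose⟩
  choose! b hbW hbE using hb
  refine ⟨⋃ W ∈ TopologicalSpace.countableBasis B, (fun d => d + Φ (b W d)) '' D W, ?_, ?_, ?_⟩
  · intro e he
    simp only [Set.mem_iUnion] at he
    obtain ⟨W, _, d, hd, rfl⟩ := he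
    exact hbE W d hd
  · exact (TopologicalSpace.countable_countableBasis B).biUnion fun W _ => (hDc W).image _
  · intro g hg T ε hε
    obtain ⟨β, hβ⟩ := hΦ1 g
    obtain ⟨W, hW, hβW, hWN⟩ :=
      (TopologicalSpace.isBasis_countableBasis B).exists_closure_subset
        (hΦ2 β (ε / 2) (half_pos hε))
    have hgH : (g - Φ β) ∈ HG y Φ E (closure W) := by
      refine ⟨fun i j => ?_, β, subset_closure hβW, ?_⟩
      · exact hβ i j
      · rw [sub_add_cancel]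
        exact hg
    obtain ⟨d, hd, hdT⟩ := hDd W _ hgH T (ε / 2) (half_pos hε)
    refine ⟨_, Set.mem_biUnion hW ⟨d, hd, rfl⟩, fun x hx j => ?_⟩
    have h1 := hdT x hx j
    have h2 : |Φ (b W d) j x - Φ β j x| < ε / 2 := hWN (hbW W d hd) x j
    have h3 : (d + Φ (b W d)) j x - g j x =
        (d j x - (g - Φ β) j x) + (Φ (b W d) j x - Φ β j x) := by
      simp only [Pi.add_apply, Pi.sub_apply, ContinuousMap.add_apply, ContinuousMap.sub_apply]
      ring
    rw [h3]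
    calc |(d j x - (g - Φ β) j x) + (Φ (b W d) j x - Φ β j x)|
        ≤ |d j x - (g - Φ β) j x| + |Φ (b W d) j x - Φ β j x| := abs_add_le _ _
      _ < ε / 2 + ε / 2 := add_lt_add h1 h2
      _ = ε := add_halves ε

end Pool.Agent.CpPN
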