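import Pool.Agent.CpPN.Repr

/-! # Module CC: the weak topology has the countable chain condition -/

set_option autoImplicit false

namespace Pool.Agent.CpPN

open Set Topology

variable {X : Type} [TopologicalSpace X]

namespace CccAux

open MeasureTheory ProbabilityTheory

/-- A family of finite partial functions `J → ℕ` which are pairwise incompatible is countable. -/
theorem countable_of_incompat {J ι : Type} (d : ι → Finset J) (v : ι → J → ℕ)
    (h : ∀ r r' : ι, r ≠ r' → ∃ j, j ∈ d r ∧ j ∈ d r' ∧ v r j ≠ v r' j) : Countable ι := by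
  classical
  obtain ⟨p, hp0, hp1⟩ : ∃ p : unitInterval, p ≠ 0 ∧ p ≠ 1 := by
    refine ⟨⟨1 / 2, by norm_num, by norm_num⟩, ?_, ?_⟩
    · intro h0
      have := congrArg Subtype.val h0
      norm_num at this
    · intro h0
      have := congrArg Subtype.val h0
      norm_num at this
  obtain ⟨ν, hν⟩ : ∃ ν : Measure (J → ℕ), ν = Measure.infinitePi (fun _ : J => geometricMeasure p) :=
    ⟨_, rfl⟩
  have hν' : IsProbabilityMeasure ν := by rw [hν]; infer_instance
  obtain ⟨A, hA⟩ : ∃ A : ι → Set (J → ℕ), A = fun r => (d r : Set J).pi fun j => {v r j} :=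
    ⟨_, rfl⟩
  have hm : ∀ r, MeasurableSet (A r) := fun r => by
    rw [hA]
    exact MeasurableSet.pi (Finset.countable_toSet _) fun j _ => measurableSet_singleton _
  have hd : Pairwise (Function.onFun Disjoint A) := by
    intro r r' hne
    obtain ⟨j, h1, h2, h3⟩ := h r r' hne
    rw [Function.onFun, Set.disjoint_left]
    intro x hx hx'
    rw [hA] at hx hx'
    exact h3 ((hx j h1).symm.trans (hx' j h2))
  have hc := Measure.countable_meas_pos_of_disjoint_iUnion (μ := ν) hm hd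
  have hall : {i : ι | 0 < ν (A i)} = Set.univ := by
    rw [Set.eq_univ_iff_forall]
    intro r
    show 0 < ν (A r)
    rw [hA, hν, Measure.infinitePi_pi _ (fun j _ => measurableSet_singleton _)]
    refine pos_iff_ne_zero.2 (Finset.prod_ne_zero_iff.2 fun j _ => ?_)
    have h1 := geometricMeasure_real_singleton_pos hp0 hp1 (v r j)
    rw [measureReal_def] at h1
    exact (ENNReal.toReal_pos_iff.1 h1).1.ne'
  rw [hall] at hc
  exact Set.countable_univ_iff.1 hc

/-- a box of rational values inside a basic neighbourhood -/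
theorem exists_box {J : Type} (𝔟 : Module.Basis J ℝ C(X, ℝ)) (a : X →₀ ℝ) (F : Finset C(X, ℝ))
    (ε : ℝ) (hε : 0 < ε) : ∃ (D : Finset J) (r : J → ℚ), ∀ ψ : C(X, ℝ) →ₗ[ℝ] ℝ,
      (∀ j ∈ D, ψ (𝔟 j) = r j) → ∀ f ∈ F, |ψ f - pair a f| < ε := by
  classical
  obtain ⟨D, hD⟩ : ∃ D : Finset J, ∀ f ∈ F, (𝔟.repr f).support ⊆ D :=
    ⟨F.biUnion fun f => (𝔟.repr f).support, fun f hf => Finset.subset_biUnion_of_mem
      (fun f => (𝔟.repr f).support) hf⟩
  obtain ⟨M, hM0, hM⟩ : ∃ M : ℝ, 0 < M ∧ ∀ f ∈ F, ∑ j ∈ D, |𝔟.repr f j| < M := by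
    refine ⟨∑ f ∈ F, ∑ j ∈ D, |𝔟.repr f j| + 1, ?_, fun f hf => ?_⟩
    · have : 0 ≤ ∑ f ∈ F, ∑ j ∈ D, |𝔟.repr f j| :=
        Finset.sum_nonneg fun f _ => Finset.sum_nonneg fun j _ => abs_nonneg _
      linarith
    · have := Finset.single_le_sum (f := fun f => ∑ j ∈ D, |𝔟.repr f j|)
        (fun f _ => Finset.sum_nonneg fun j _ => abs_nonneg _) hf
      linarith
  have hr : ∀ j : J, ∃ q : ℚ, |(q : ℝ) - pair a (𝔟 j)| < ε / M := by
    intro j
    obtain ⟨q, hq1, hq2⟩ := exists_rat_btwn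
      (show pair a (𝔟 j) - ε / M < pair a (𝔟 j) + ε / M by
        have : 0 < ε / M := div_pos hε hM0
        linarith)
    refine ⟨q, ?_⟩
    rw [abs_lt]
    constructor <;> linarith
  choose r hr using hr
  refine ⟨D, r, fun ψ hψ f hf => ?_⟩
  have hexp : ∀ φ : C(X, ℝ) →ₗ[ℝ] ℝ, φ f = ∑ j ∈ D, 𝔟.repr f j * φ (𝔟 j) := by
    intro φ
    conv_lhs => rw [← 𝔟.linearCombination_repr f]
    rw [Finsupp.linearCombination_apply, map_finsuppSum,
      Finsupp.sum_of_support_subset _ (hD f hf) _ (by intro i _; simp)]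
    exact Finset.sum_congr rfl fun j _ => by rw [map_smul, smul_eq_mul]
  have h1 := hexp ψ
  have h2 := hexp (pairL a)
  rw [pairL_apply] at h2
  rw [h1, h2, ← Finset.sum_sub_distrib]
  calc |∑ j ∈ D, (𝔟.repr f j * ψ (𝔟 j) - 𝔟.repr f j * pairL a (𝔟 j))|
      ≤ ∑ j ∈ D, |𝔟.repr f j * ψ (𝔟 j) - 𝔟.repr f j * pairL a (𝔟 j)| :=
        Finset.abs_sum_le_sum_abs _ _
    _ ≤ ∑ j ∈ D, |𝔟.repr f j| * (ε / M) := by
        refine Finset.sum_le_sum fun j hj => ?_
        rw [← mul_sub, abs_mul, hψ j hj, pairL_apply]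
        exact mul_le_mul_of_nonneg_left (hr j).le (abs_nonneg _)
    _ = (∑ j ∈ D, |𝔟.repr f j|) * (ε / M) := (Finset.sum_mul _ _ _).symm
    _ < M * (ε / M) := mul_lt_mul_of_pos_right (hM f hf) (div_pos hε hM0)
    _ = ε := by field_simp

end CccAux

open CccAux ReprAux

theorem nb_ccc {ι : Type} (a : ι → X →₀ ℝ) (F : ι → Finset C(X, ℝ)) (ε : ι → ℝ)
    (hε : ∀ i, 0 < ε i)
    (hd : Pairwise fun i j => Disjoint (Nb (a i) (F i) (ε i)) (Nb (a j) (F j) (ε j))) :
    Countable ι := by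
  classical
  obtain ⟨J, ⟨𝔟⟩⟩ : ∃ J : Type, Nonempty (Module.Basis J ℝ C(X, ℝ)) :=
    ⟨_, ⟨Module.Basis.ofVectorSpace ℝ C(X, ℝ)⟩⟩
  choose D r hDr using fun i => exists_box 𝔟 (a i) (F i) (ε i) (hε i)
  refine countable_of_incompat D (fun i j => Encodable.encode (r i j)) fun i i' hne => ?_
  by_contra hcon
  push Not at hcon
  have hcomp : ∀ j, j ∈ D i → j ∈ D i' → r i j = r i' j := fun j h1 h2 =>
    Encodable.encode_injective (hcon j h1 h2)
  obtain ⟨ψ, hψ⟩ : ∃ ψ : C(X, ℝ) →ₗ[ℝ] ℝ, ∀ j,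
      ψ (𝔟 j) = if j ∈ D i then (r i j : ℝ) else (r i' j : ℝ) :=
    ⟨𝔟.constr ℝ fun j => if j ∈ D i then (r i j : ℝ) else (r i' j : ℝ), fun j =>
      𝔟.constr_basis ℝ _ j⟩
  obtain ⟨c, hc⟩ := exists_repr ψ (F i ∪ F i')
  have h1 : c ∈ Nb (a i) (F i) (ε i) := by
    intro f hf
    rw [hc f (Finset.mem_union_left _ hf)]
    refine hDr i ψ (fun j hj => ?_) f hf
    rw [hψ, if_pos hj]
  have h2 : c ∈ Nb (a i') (F i') (ε i') := by
    intro f hf
    rw [hc f (Finset.mem_union_right _ hf)]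
    refine hDr i' ψ (fun j hj => ?_) f hf
    rw [hψ]
    split_ifs with h
    · rw [hcomp j h hj]
    · rfl
  exact Set.disjoint_left.1 (hd hne) h1 h2

end Pool.Agent.CpPN
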