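import Mathlib

/-! # Module CW: the lacunary avoidance lemma -/

set_option autoImplicit false

namespace Pool.Agent.CpPN

open Filter

namespace ClaimWAux

theorem kappa_tendsto (κ : ℕ → ℝ) (hκ1 : ∀ s, 1 ≤ κ s) (hκm : StrictMono κ)
    (hκl : ∀ C : ℝ, ∃ s0 : ℕ, ∀ s ≥ s0, C * κ s ^ 4 ≤ κ (s + 1)) :
    Tendsto κ atTop atTop := by
  obtain ⟨s0, hs0⟩ := hκl 2
  have h2 : ∀ n : ℕ, (2 : ℝ) ^ n ≤ κ (s0 + n) := by
    intro n
    induction n with
    | zero => simpa using hκ1 s0
    | succ n ih =>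
      have h := hs0 (s0 + n) (by omega)
      have h1 : κ (s0 + n) ≤ κ (s0 + n) ^ 4 := by
        have := pow_le_pow_right₀ (hκ1 (s0 + n)) (show 1 ≤ 4 by norm_num)
        simpa using this
      have e : s0 + (n + 1) = s0 + n + 1 := by ring
      rw [e, pow_succ]
      linarith
  have h3 : Tendsto (fun n => κ (s0 + n)) atTop atTop :=
    tendsto_atTop_mono h2 (tendsto_pow_atTop_atTop_of_one_lt (by norm_num))
  have h4 : Tendsto (fun n => κ (n + s0)) atTop atTop := by
    simpa [add_comm] using h3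
  exact (tendsto_add_atTop_iff_nat s0).1 h4

/-- lacunarity in the form which is used -/
theorem lac (κ : ℕ → ℝ) (hκ1 : ∀ s, 1 ≤ κ s)
    (hκl : ∀ C : ℝ, ∃ s0 : ℕ, ∀ s ≥ s0, C * κ s ^ 4 ≤ κ (s + 1)) (M : ℝ) (hM : 0 ≤ M) :
    ∃ s0 : ℕ, ∀ s ≥ s0, M * κ s ≤ Real.sqrt (κ (s + 1)) := by
  obtain ⟨s0, hs0⟩ := hκl (M ^ 2)
  refine ⟨s0, fun s hs => ?_⟩
  have h := hs0 s hs
  have h1 := hκ1 s
  have h2 : M * κ s ≤ M * κ s ^ 2 := by
    have : κ s ≤ κ s ^ 2 := by nlinarith
    exact mul_le_mul_of_nonneg_left this hM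
  refine h2.trans (Real.le_sqrt_of_sq_le ?_)
  calc (M * κ s ^ 2) ^ 2 = M ^ 2 * κ s ^ 4 := by ring
    _ ≤ _ := h

theorem exists_beta {T : Type} [Fintype T] (b : T → ℝ) :
    ∃ β : ℝ, 0 < β ∧ ∀ S : Finset T, ∑ t ∈ S, b t ≠ 0 → β ≤ |∑ t ∈ S, b t| := by
  classical
  by_cases hne : ((Finset.univ : Finset (Finset T)).filter fun S => ∑ t ∈ S, b t ≠ 0).Nonempty
  · obtain ⟨S0, hS0, hmin⟩ := Finset.exists_min_image _ (fun S : Finset T => |∑ t ∈ S, b t|) hne
    refine ⟨|∑ t ∈ S0, b t|, abs_pos.2 (Finset.mem_filter.1 hS0).2, fun S hS => ?_⟩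
    exact hmin S (by simp [hS])
  · refine ⟨1, one_pos, fun S hS => ?_⟩
    exact absurd ⟨S, by simp [hS]⟩ hne

/-- a sum over the levels above `l` vanishes if each level sum vanishes -/
theorem sum_high {T : Type} [Fintype T] (κ : ℕ → ℝ) (b : T → ℝ) (s : T → ℕ)
    (P : ℕ → Prop) [DecidablePred P]
    (h : ∀ l, P l → ∑ t ∈ Finset.univ.filter (fun t => s t = l), b t = 0) :
    ∑ t ∈ Finset.univ.filter (fun t => P (s t)), b t * κ (s t) = 0 := by
  classical
  rw [← Finset.sum_fiberwise_of_maps_to (g := s)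
    (t := (Finset.univ.filter (fun t => P (s t))).image s) (fun t ht => Finset.mem_image_of_mem s ht)]
  refine Finset.sum_eq_zero fun l hl => ?_
  obtain ⟨t0, ht0, rfl⟩ := Finset.mem_image.1 hl
  have hP : P (s t0) := (Finset.mem_filter.1 ht0).2
  have e : (Finset.univ.filter (fun t => P (s t))).filter (fun t => s t = s t0)
      = Finset.univ.filter (fun t => s t = s t0) := by
    ext t
    simp only [Finset.mem_filter, Finset.mem_univ, true_and]
    constructor
    · exact fun h => h.2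
    · intro h
      exact ⟨by rw [h]; exact hP, h⟩
  rw [e]
  calc ∑ t ∈ Finset.univ.filter (fun t => s t = s t0), b t * κ (s t)
      = ∑ t ∈ Finset.univ.filter (fun t => s t = s t0), b t * κ (s t0) :=
        Finset.sum_congr rfl fun t ht => by rw [(Finset.mem_filter.1 ht).2]
    _ = 0 := by rw [← Finset.sum_mul, h _ hP, zero_mul]

theorem abs_sum_le {T : Type} [Fintype T] (κ : ℕ → ℝ) (hκ1 : ∀ s, 1 ≤ κ s) (b : T → ℝ) (s : T → ℕ)
    (F : Finset T) (K : ℝ) (hK : ∀ t ∈ F, κ (s t) ≤ K) (hK0 : 0 ≤ K) :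
    |∑ t ∈ F, b t * κ (s t)| ≤ (∑ t, |b t|) * K := by
  calc |∑ t ∈ F, b t * κ (s t)| ≤ ∑ t ∈ F, |b t * κ (s t)| := Finset.abs_sum_le_sum_abs _ _
    _ ≤ ∑ t ∈ F, |b t| * K := by
        refine Finset.sum_le_sum fun t ht => ?_
        rw [abs_mul, abs_of_nonneg (le_trans zero_le_one (hκ1 (s t)))]
        exact mul_le_mul_of_nonneg_left (hK t ht) (abs_nonneg _)
    _ ≤ ∑ t, |b t| * K :=
        Finset.sum_le_sum_of_subset_of_nonneg (Finset.subset_univ _) fun t _ _ =>
          mul_nonneg (abs_nonneg _) hK0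
    _ = (∑ t, |b t|) * K := by rw [Finset.sum_mul]

/-- step (1): `|b(u)|` is bounded below -/
theorem exists_c1 {T : Type} [Fintype T] (κ : ℕ → ℝ) (hκ1 : ∀ s, 1 ≤ κ s) (hκm : StrictMono κ)
    (hκl : ∀ C : ℝ, ∃ s0 : ℕ, ∀ s ≥ s0, C * κ s ^ 4 ≤ κ (s + 1)) (b : T → ℝ) :
    ∃ c : ℝ, 0 < c ∧ ∀ s : T → ℕ, ∑ t, b t * κ (s t) ≠ 0 → c ≤ |∑ t, b t * κ (s t)| := by
  classical
  obtain ⟨β, hβ, hβS⟩ := exists_beta b
  set B1 : ℝ := ∑ t, |b t| with hB1
  have hB10 : 0 ≤ B1 := Finset.sum_nonneg fun t _ => abs_nonneg _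
  obtain ⟨s0, hs0⟩ := hκl (2 * B1 / β)
  set s1 := s0 + 1 with hs1
  -- the finite set of low values
  set LV : Finset ℝ := (Finset.univ : Finset (Finset T × (T → Fin s1))).image
    (fun q => ∑ t ∈ q.1, b t * κ (q.2 t)) with hLV
  obtain ⟨c0, hc0, hc0L⟩ : ∃ c0 : ℝ, 0 < c0 ∧ ∀ v ∈ LV, v ≠ 0 → c0 ≤ |v| := by
    by_cases hne : (LV.filter fun v => v ≠ 0).Nonempty
    · obtain ⟨v0, hv0, hmin⟩ := Finset.exists_min_image _ (fun v : ℝ => |v|) hne
      refine ⟨|v0|, abs_pos.2 (Finset.mem_filter.1 hv0).2, fun v hv hv' => ?_⟩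
      exact hmin v (Finset.mem_filter.2 ⟨hv, hv'⟩)
    · refine ⟨1, one_pos, fun v hv hv' => ?_⟩
      exact absurd ⟨v, Finset.mem_filter.2 ⟨hv, hv'⟩⟩ hne
  refine ⟨min c0 (β / 2), lt_min hc0 (by positivity), fun s hs => ?_⟩
  by_cases hcase : ∃ l, s1 ≤ l ∧ ∑ t ∈ Finset.univ.filter (fun t => s t = l), b t ≠ 0
  · -- the largest level with nonzero sum
    obtain ⟨l, ⟨hl1, hl2⟩, hlmax⟩ : ∃ l, (s1 ≤ l ∧
        ∑ t ∈ Finset.univ.filter (fun t => s t = l), b t ≠ 0) ∧
        ∀ l', l < l' → ∑ t ∈ Finset.univ.filter (fun t => s t = l'), b t = 0 := by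
      set LL : Finset ℕ := (Finset.univ.image s).filter fun l => s1 ≤ l ∧
        ∑ t ∈ Finset.univ.filter (fun t => s t = l), b t ≠ 0 with hLL
      have himg : ∀ l, ∑ t ∈ Finset.univ.filter (fun t => s t = l), b t ≠ 0 →
          l ∈ Finset.univ.image s := by
        intro l hl
        obtain ⟨t, ht, -⟩ := Finset.exists_ne_zero_of_sum_ne_zero hl
        exact Finset.mem_image.2 ⟨t, Finset.mem_univ t, (Finset.mem_filter.1 ht).2⟩
      have hne : LL.Nonempty := by
        obtain ⟨l, hl1, hl2⟩ := hcase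
        exact ⟨l, Finset.mem_filter.2 ⟨himg l hl2, hl1, hl2⟩⟩
      obtain ⟨l, hl, hmax⟩ := Finset.exists_max_image LL id hne
      refine ⟨l, (Finset.mem_filter.1 hl).2, fun l' hl' => ?_⟩
      by_contra hcon
      have := hmax l' (Finset.mem_filter.2 ⟨himg l' hcon,
        (Finset.mem_filter.1 hl).2.1.trans hl'.le, hcon⟩)
      simp only [id] at this
      omega
    have hhigh := sum_high κ b s (fun l' => l < l') hlmax
    have hsplit : ∑ t, b t * κ (s t)
        = κ l * ∑ t ∈ Finset.univ.filter (fun t => s t = l), b t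
          + ∑ t ∈ Finset.univ.filter (fun t => s t < l), b t * κ (s t) := by
      have e1 : ∑ t, b t * κ (s t)
          = ∑ t ∈ Finset.univ.filter (fun t => l < s t), b t * κ (s t)
            + ∑ t ∈ Finset.univ.filter (fun t => ¬ l < s t), b t * κ (s t) :=
        (Finset.sum_filter_add_sum_filter_not _ _ _).symm
      have e2 : ∑ t ∈ Finset.univ.filter (fun t => ¬ l < s t), b t * κ (s t)
          = ∑ t ∈ (Finset.univ.filter (fun t => ¬ l < s t)).filter (fun t => s t = l),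
              b t * κ (s t)
            + ∑ t ∈ (Finset.univ.filter (fun t => ¬ l < s t)).filter (fun t => ¬ s t = l),
              b t * κ (s t) :=
        (Finset.sum_filter_add_sum_filter_not _ _ _).symm
      have f1 : (Finset.univ.filter (fun t => ¬ l < s t)).filter (fun t => s t = l)
          = Finset.univ.filter (fun t => s t = l) := by
        ext t
        simp only [Finset.mem_filter, Finset.mem_univ, true_and]
        omega
      have f2 : (Finset.univ.filter (fun t => ¬ l < s t)).filter (fun t => ¬ s t = l)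
          = Finset.univ.filter (fun t => s t < l) := by
        ext t
        simp only [Finset.mem_filter, Finset.mem_univ, true_and]
        omega
      rw [e1, hhigh, zero_add, e2, f1, f2]
      congr 1
      rw [Finset.mul_sum]
      refine Finset.sum_congr rfl fun t ht => ?_
      rw [(Finset.mem_filter.1 ht).2, mul_comm]
    obtain ⟨l', rfl⟩ : ∃ l', l = l' + 1 := ⟨l - 1, by omega⟩
    have hlow := abs_sum_le κ hκ1 b s (Finset.univ.filter (fun t => s t < l' + 1)) (κ l')
      (fun t ht => hκm.monotone (by have := (Finset.mem_filter.1 ht).2; omega))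
      (le_trans zero_le_one (hκ1 l'))
    have hlac := hs0 l' (by omega)
    have hpow : κ l' ≤ κ l' ^ 4 := by
      have := pow_le_pow_right₀ (hκ1 l') (show 1 ≤ 4 by norm_num)
      simpa using this
    have h5 : 2 * B1 / β * κ l' ≤ κ (l' + 1) :=
      (mul_le_mul_of_nonneg_left hpow (by positivity)).trans hlac
    have h6 : 2 * (B1 * κ l') ≤ β * κ (l' + 1) := by
      have := mul_le_mul_of_nonneg_left h5 hβ.le
      have e : β * (2 * B1 / β * κ l') = 2 * (B1 * κ l') := by
        field_simp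
      linarith [e]
    have h7 := hβS _ hl2
    rw [hsplit]
    set σ := ∑ t ∈ Finset.univ.filter (fun t => s t = l' + 1), b t with hσ
    set w := ∑ t ∈ Finset.univ.filter (fun t => s t < l' + 1), b t * κ (s t) with hw
    have h8 : κ (l' + 1) * β ≤ |κ (l' + 1) * σ| := by
      rw [abs_mul, abs_of_nonneg (le_trans zero_le_one (hκ1 _))]
      exact mul_le_mul_of_nonneg_left h7 (le_trans zero_le_one (hκ1 _))
    have h9 : |κ (l' + 1) * σ| - |w| ≤ |κ (l' + 1) * σ + w| := by
      have := abs_sub_abs_le_abs_sub (κ (l' + 1) * σ) (-w)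
      rw [abs_neg, sub_neg_eq_add] at this
      exact this
    have h10 := hκ1 (l' + 1)
    have h11 : β / 2 ≤ κ (l' + 1) * β / 2 := by nlinarith
    have h12 : min c0 (β / 2) ≤ β / 2 := min_le_right _ _
    linarith
  · have hzero : ∀ l, s1 ≤ l → ∑ t ∈ Finset.univ.filter (fun t => s t = l), b t = 0 := by
      intro l hl
      by_contra hcon
      exact hcase ⟨l, hl, hcon⟩
    have hhigh := sum_high κ b s (fun l' => s1 ≤ l') hzero
    have e1 : ∑ t, b t * κ (s t)
        = ∑ t ∈ Finset.univ.filter (fun t => s1 ≤ s t), b t * κ (s t)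
          + ∑ t ∈ Finset.univ.filter (fun t => ¬ s1 ≤ s t), b t * κ (s t) :=
      (Finset.sum_filter_add_sum_filter_not _ _ _).symm
    rw [e1, hhigh, zero_add] at hs ⊢
    refine (min_le_left _ _).trans (hc0L _ ?_ hs)
    refine Finset.mem_image.2 ⟨(Finset.univ.filter (fun t => ¬ s1 ≤ s t),
      fun t => if h : s t < s1 then ⟨s t, h⟩ else ⟨0, by omega⟩), Finset.mem_univ _, ?_⟩
    refine Finset.sum_congr rfl fun t ht => ?_
    have hlt : s t < s1 := not_le.1 (Finset.mem_filter.1 ht).2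
    simp [hlt]

end ClaimWAux

open ClaimWAux in
/-- **Claim W.** -/
theorem claimW {T : Type} [Fintype T] (κ : ℕ → ℝ) (hκ1 : ∀ s, 1 ≤ κ s)
    (hκm : StrictMono κ) (hκl : ∀ C : ℝ, ∃ s0 : ℕ, ∀ s ≥ s0, C * κ s ^ 4 ≤ κ (s + 1))
    (V : Submodule ℝ (T → ℝ)) (T0 : Finset T)
    (hT0 : ∀ g ∈ V, (∀ t ∈ T0, g t = 0) → g = 0)
    (a0 : T → ℝ) (η : ℝ) (hη : 0 < η)
    (hpos : ∀ g ∈ V, (∀ t, 0 ≤ g t) → η * ∑ t ∈ T0, g t ≤ ∑ t, a0 t * g t)
    (b : T → ℝ) (hbV : ∀ g ∈ V, ∑ t, b t * g t = 0)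
    (hb : ∀ S : Finset T, (Set.indicator (S : Set T) fun _ => (1 : ℝ)) ∉ V →
      ∑ t ∈ S, b t ≠ 0)
    (hbu : ∀ s : T → ℕ, (fun t => κ (s t)) ∉ V → ∑ t, b t * κ (s t) ≠ 0) :
    ∃ R : ℕ → ℝ, Tendsto R atTop atTop ∧ ∀ C0 : ℝ, ∀ᶠ k in atTop, ∀ s : T → ℕ,
      (fun t => κ (s t)) ∉ V → C0 ≤ |∑ t, (a0 t + R k * b t) * κ (s t)| := by
  classical
  have hκ0 : ∀ s, 0 ≤ κ s := fun s => le_trans zero_le_one (hκ1 s)
  have hκt := kappa_tendsto κ hκ1 hκm hκl
  have hRt : Tendsto (fun k => Real.sqrt (κ k)) atTop atTop := Real.tendsto_sqrt_atTop.comp hκt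
  obtain ⟨β, hβ, hβS⟩ := exists_beta b
  obtain ⟨c1, hc1, hc1S⟩ := exists_c1 κ hκ1 hκm hκl b
  set A1 : ℝ := ∑ t, |a0 t| with hA1
  set B1 : ℝ := ∑ t, |b t| with hB1
  have hA10 : 0 ≤ A1 := Finset.sum_nonneg fun t _ => abs_nonneg _
  have hB10 : 0 ≤ B1 := Finset.sum_nonneg fun t _ => abs_nonneg _
  set c2 : ℝ := min 1 η with hc2
  have hc20 : 0 < c2 := lt_min one_pos hη
  refine ⟨fun k => Real.sqrt (κ k), hRt, fun C0 => ?_⟩
  obtain ⟨p, hp⟩ := lac κ hκ1 hκl (2 * (A1 + B1) / c2) (by positivity)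
  obtain ⟨q, hq⟩ := lac κ hκ1 hκl (2 * A1 / c1) (by positivity)
  have e1 : ∀ᶠ k in atTop, (A1 + 1) / β ≤ Real.sqrt (κ k) := hRt.eventually_ge_atTop _
  have e2 : ∀ᶠ k in atTop, 2 * C0 / c2 ≤ κ k := hκt.eventually_ge_atTop _
  have e3 : ∀ᶠ k in atTop, 2 * C0 / c1 ≤ Real.sqrt (κ k) := hRt.eventually_ge_atTop _
  have e4 : ∀ᶠ k in atTop, p + 1 ≤ k := eventually_ge_atTop _
  have e5 : ∀ᶠ k in atTop, q + 1 ≤ k := eventually_ge_atTop _
  filter_upwards [e1, e2, e3, e4, e5] with k h1 h2 h3 h4 h5 s hs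
  have hbne := hbu s hs
  have hTne : Nonempty T := by
    by_contra hemp
    rw [not_nonempty_iff] at hemp
    exact hs (by convert V.zero_mem using 1)
  obtain ⟨t1, -, ht1⟩ := Finset.exists_max_image (Finset.univ : Finset T) s
    ⟨Classical.choice hTne, Finset.mem_univ _⟩
  set top := s t1 with htop
  have hR0 : 0 ≤ Real.sqrt (κ k) := Real.sqrt_nonneg _
  rcases le_or_gt k top with hkt | hkt
  · -- top level at least k
    set S1 : Finset T := Finset.univ.filter (fun t => s t = top) with hS1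
    have ht1S : t1 ∈ S1 := by simp [hS1, htop]
    set σ : ℝ := ∑ t ∈ S1, a0 t + Real.sqrt (κ k) * ∑ t ∈ S1, b t with hσ
    have hσ2 : c2 ≤ |σ| := by
      by_cases hbS : ∑ t ∈ S1, b t = 0
      · have hV : (Set.indicator (S1 : Set T) fun _ => (1 : ℝ)) ∈ V := by
          by_contra hcon
          exact hb S1 hcon hbS
        have hnn : ∀ t, 0 ≤ (Set.indicator (S1 : Set T) (fun _ => (1 : ℝ))) t := fun t =>
          Set.indicator_nonneg (fun _ _ => zero_le_one) t
        have hp' := hpos _ hV hnn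
        have hsum : ∑ t, a0 t * (Set.indicator (S1 : Set T) (fun _ => (1 : ℝ))) t
            = ∑ t ∈ S1, a0 t := by
          rw [← Finset.sum_subset (Finset.subset_univ S1)]
          · refine Finset.sum_congr rfl fun t ht => ?_
            rw [Set.indicator_of_mem (by exact_mod_cast ht), mul_one]
          · intro t _ ht
            rw [Set.indicator_of_notMem (by exact_mod_cast ht), mul_zero]
        obtain ⟨t2, ht2, ht2'⟩ : ∃ t2 ∈ T0,
            (Set.indicator (S1 : Set T) (fun _ => (1 : ℝ))) t2 ≠ 0 := by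
          by_contra hcon
          push Not at hcon
          have h0 := hT0 _ hV hcon
          have := congrFun h0 t1
          rw [Set.indicator_of_mem (by exact_mod_cast ht1S)] at this
          simp at this
        have ht2one : (Set.indicator (S1 : Set T) (fun _ => (1 : ℝ))) t2 = 1 := by
          by_cases hm : t2 ∈ (S1 : Set T)
          · rw [Set.indicator_of_mem hm]
          · rw [Set.indicator_of_notMem hm] at ht2'
            exact absurd rfl ht2'
        have hge : 1 ≤ ∑ t ∈ T0, (Set.indicator (S1 : Set T) (fun _ => (1 : ℝ))) t := by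
          refine le_trans ht2one.ge ?_
          exact Finset.single_le_sum (f := fun t => (Set.indicator (S1 : Set T)
            (fun _ => (1 : ℝ))) t) (fun t _ => hnn t) ht2
        have : η ≤ ∑ t ∈ S1, a0 t := by
          rw [← hsum]
          refine le_trans ?_ hp'
          nlinarith
        rw [hσ, hbS, mul_zero, add_zero]
        exact (min_le_right _ _).trans (this.trans (le_abs_self _))
      · have h7 := hβS S1 hbS
        have h8 : |∑ t ∈ S1, a0 t| ≤ A1 :=
          (Finset.abs_sum_le_sum_abs _ _).trans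
            (Finset.sum_le_sum_of_subset_of_nonneg (Finset.subset_univ _)
              fun t _ _ => abs_nonneg _)
        have h9 : Real.sqrt (κ k) * β ≤ |Real.sqrt (κ k) * ∑ t ∈ S1, b t| := by
          rw [abs_mul, abs_of_nonneg hR0]
          exact mul_le_mul_of_nonneg_left h7 hR0
        have h10 : A1 + 1 ≤ Real.sqrt (κ k) * β := by
          rw [div_le_iff₀ hβ] at h1
          exact h1
        have h11 : |Real.sqrt (κ k) * ∑ t ∈ S1, b t| - |∑ t ∈ S1, a0 t| ≤ |σ| := by
          have := abs_sub_abs_le_abs_sub (Real.sqrt (κ k) * ∑ t ∈ S1, b t) (-∑ t ∈ S1, a0 t)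
          rw [abs_neg, sub_neg_eq_add, add_comm (Real.sqrt (κ k) * ∑ t ∈ S1, b t)] at this
          exact this
        exact (min_le_left _ _).trans (by linarith)
    have hsplit : ∑ t, (a0 t + Real.sqrt (κ k) * b t) * κ (s t)
        = κ top * σ + ∑ t ∈ Finset.univ.filter (fun t => s t < top),
            (a0 t + Real.sqrt (κ k) * b t) * κ (s t) := by
      rw [← Finset.sum_filter_add_sum_filter_not Finset.univ (fun t => s t = top)]
      congr 1
      · calc ∑ t ∈ Finset.univ.filter (fun t => s t = top),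
              (a0 t + Real.sqrt (κ k) * b t) * κ (s t)
            = ∑ t ∈ S1, (κ top * a0 t + κ top * (Real.sqrt (κ k) * b t)) := by
              refine Finset.sum_congr rfl fun t ht => ?_
              rw [(Finset.mem_filter.1 ht).2]
              ring
          _ = κ top * σ := by
              rw [Finset.sum_add_distrib, ← Finset.mul_sum, ← Finset.mul_sum, ← Finset.mul_sum,
                hσ]
              ring
      · refine Finset.sum_congr ?_ fun _ _ => rfl
        ext t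
        simp only [Finset.mem_filter, Finset.mem_univ, true_and]
        have := ht1 t (Finset.mem_univ t)
        omega
    obtain ⟨tp, htp⟩ : ∃ tp, top = tp + 1 := ⟨top - 1, by omega⟩
    have hlow : |∑ t ∈ Finset.univ.filter (fun t => s t < top),
        (a0 t + Real.sqrt (κ k) * b t) * κ (s t)|
        ≤ (∑ t, |a0 t + Real.sqrt (κ k) * b t|) * κ tp :=
      abs_sum_le κ hκ1 (fun t => a0 t + Real.sqrt (κ k) * b t) s _ (κ tp)
        (fun t ht => hκm.monotone (by have := (Finset.mem_filter.1 ht).2; omega)) (hκ0 tp)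
    have hsum1 : ∑ t, |a0 t + Real.sqrt (κ k) * b t| ≤ A1 + Real.sqrt (κ k) * B1 := by
      calc ∑ t, |a0 t + Real.sqrt (κ k) * b t| ≤ ∑ t, (|a0 t| + Real.sqrt (κ k) * |b t|) := by
            refine Finset.sum_le_sum fun t _ => (abs_add_le _ _).trans ?_
            rw [abs_mul, abs_of_nonneg hR0]
        _ = A1 + Real.sqrt (κ k) * B1 := by
            rw [Finset.sum_add_distrib, ← Finset.mul_sum]
    set x := Real.sqrt (κ top) with hx
    have hx1 : 1 ≤ x := by
      rw [hx]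
      exact Real.one_le_sqrt.2 (hκ1 top)
    have hxx : x * x = κ top := Real.mul_self_sqrt (hκ0 top)
    have hRx : Real.sqrt (κ k) ≤ x := Real.sqrt_le_sqrt (hκm.monotone hkt)
    have hlac : 2 * (A1 + B1) / c2 * κ tp ≤ x := by
      rw [hx, htp]
      exact hp tp (by omega)
    have h20 : 2 * ((A1 + B1) * κ tp) ≤ c2 * x := by
      have := mul_le_mul_of_nonneg_left hlac hc20.le
      have e : c2 * (2 * (A1 + B1) / c2 * κ tp) = 2 * ((A1 + B1) * κ tp) := by
        field_simp
      linarith [e]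
    have h21 : (∑ t, |a0 t + Real.sqrt (κ k) * b t|) * κ tp ≤ c2 * κ top / 2 := by
      have f1 : ∑ t, |a0 t + Real.sqrt (κ k) * b t| ≤ x * (A1 + B1) := by
        refine hsum1.trans ?_
        have g1 : A1 ≤ x * A1 := by nlinarith
        have g2 : Real.sqrt (κ k) * B1 ≤ x * B1 := mul_le_mul_of_nonneg_right hRx hB10
        linarith [mul_add x A1 B1]
      have f2 : (∑ t, |a0 t + Real.sqrt (κ k) * b t|) * κ tp ≤ x * (A1 + B1) * κ tp :=
        mul_le_mul_of_nonneg_right f1 (hκ0 tp)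
      have f3 : x * (2 * ((A1 + B1) * κ tp)) ≤ x * (c2 * x) :=
        mul_le_mul_of_nonneg_left h20 (by linarith)
      have f4 : x * (c2 * x) = c2 * κ top := by rw [← hxx]; ring
      nlinarith [f2, f3, f4]
    rw [hsplit]
    set w := ∑ t ∈ Finset.univ.filter (fun t => s t < top),
      (a0 t + Real.sqrt (κ k) * b t) * κ (s t) with hw
    have h8 : κ top * c2 ≤ |κ top * σ| := by
      rw [abs_mul, abs_of_nonneg (hκ0 _)]
      exact mul_le_mul_of_nonneg_left hσ2 (hκ0 _)
    have h9 : |κ top * σ| - |w| ≤ |κ top * σ + w| := by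
      have := abs_sub_abs_le_abs_sub (κ top * σ) (-w)
      rw [abs_neg, sub_neg_eq_add] at this
      exact this
    have h10 : C0 ≤ c2 * κ top / 2 := by
      have := hκm.monotone hkt
      rw [div_le_iff₀ hc20] at h2
      nlinarith
    linarith
  · -- all levels below k
    obtain ⟨kp, hkp⟩ : ∃ kp, k = kp + 1 := ⟨k - 1, by omega⟩
    have hsplit : ∑ t, (a0 t + Real.sqrt (κ k) * b t) * κ (s t)
        = Real.sqrt (κ k) * ∑ t, b t * κ (s t) + ∑ t, a0 t * κ (s t) := by
      rw [Finset.mul_sum, ← Finset.sum_add_distrib]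
      exact Finset.sum_congr rfl fun t _ => by ring
    have hlow : |∑ t, a0 t * κ (s t)| ≤ A1 * κ kp :=
      abs_sum_le κ hκ1 a0 s Finset.univ (κ kp)
        (fun t ht => hκm.monotone (by have := ht1 t (Finset.mem_univ t); omega)) (hκ0 kp)
    have hlac : 2 * A1 / c1 * κ kp ≤ Real.sqrt (κ k) := by
      rw [hkp]
      exact hq kp (by omega)
    have h20 : 2 * (A1 * κ kp) ≤ c1 * Real.sqrt (κ k) := by
      have := mul_le_mul_of_nonneg_left hlac hc1.le
      have e : c1 * (2 * A1 / c1 * κ kp) = 2 * (A1 * κ kp) := by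
        field_simp
      linarith [e]
    have h8 : Real.sqrt (κ k) * c1 ≤ |Real.sqrt (κ k) * ∑ t, b t * κ (s t)| := by
      rw [abs_mul, abs_of_nonneg hR0]
      exact mul_le_mul_of_nonneg_left (hc1S s hbne) hR0
    rw [hsplit]
    have h9 : |Real.sqrt (κ k) * ∑ t, b t * κ (s t)| - |∑ t, a0 t * κ (s t)|
        ≤ |Real.sqrt (κ k) * ∑ t, b t * κ (s t) + ∑ t, a0 t * κ (s t)| := by
      have := abs_sub_abs_le_abs_sub (Real.sqrt (κ k) * ∑ t, b t * κ (s t))
        (-∑ t, a0 t * κ (s t))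
      rw [abs_neg, sub_neg_eq_add] at this
      exact this
    have h10 : C0 ≤ c1 * Real.sqrt (κ k) / 2 := by
      rw [div_le_iff₀ hc1] at h3
      linarith
    linarith

end Pool.Agent.CpPN
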