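import Mathlib

/-!
# MP_2a4eb4_gt: perfect normality of `L_p(X)` and `C_p(C_p(X))`: common definitions

Everything is phrased with the pairing of finitely supported functions `a : X →₀ ℝ` with
continuous functions `f : C(X, ℝ)`.
-/

set_option autoImplicit false

namespace Pool.Agent.CpPN

open Set Topology

/-- `C_p(X)`, as in the frozen statement -/
abbrev Cp (X : Type) [TopologicalSpace X] : Type := {f : X → ℝ // Continuous f}

/-- `L_p(X)`, as in the frozen statement -/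
abbrev Lp (X : Type) [TopologicalSpace X] : Type :=
  ↥(Submodule.span ℝ (Set.range (fun (x : X) (f : {f : X → ℝ // Continuous f}) => f.1 x)))

variable {X : Type} [TopologicalSpace X]

/-- the pairing of `a : X →₀ ℝ` with `f : C(X, ℝ)`, bilinear -/
noncomputable def pair (a : X →₀ ℝ) (f : C(X, ℝ)) : ℝ := a.sum fun x c => c * f x

/-- basic neighbourhoods of the weak topology on `X →₀ ℝ` -/
def Nb (a : X →₀ ℝ) (F : Finset C(X, ℝ)) (ε : ℝ) : Set (X →₀ ℝ) :=
  {b | ∀ f ∈ F, |pair b f - pair a f| < ε}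

/-- `O` is open in the weak topology (the topology of `L_p(X)` pulled back to `X →₀ ℝ`) -/
def OpenA (O : Set (X →₀ ℝ)) : Prop :=
  ∀ a ∈ O, ∃ F : Finset C(X, ℝ), ∃ ε : ℝ, 0 < ε ∧ Nb a F ε ⊆ O

/-- `O` is open in the topology generated by the functions in `S` -/
def OpenS (S : Set C(X, ℝ)) (O : Set (X →₀ ℝ)) : Prop :=
  ∀ a ∈ O, ∃ F : Finset C(X, ℝ), (F : Set C(X, ℝ)) ⊆ S ∧ ∃ ε : ℝ, 0 < ε ∧ Nb a F ε ⊆ O

/-- every open set is open in the topology of countably many functions -/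
def CountProp (X : Type) [TopologicalSpace X] : Prop :=
  ∀ O : Set (X →₀ ℝ), OpenA O → ∃ S : Set C(X, ℝ), S.Countable ∧ OpenS S O

/-- all finite powers are hereditarily Lindelöf -/
def HLall (X : Type) [TopologicalSpace X] : Prop :=
  ∀ n : ℕ, ∀ 𝒰 : Set (Set (Fin n → X)), (∀ U ∈ 𝒰, IsOpen U) →
    ∃ 𝒱 : Set (Set (Fin n → X)), 𝒱 ⊆ 𝒰 ∧ 𝒱.Countable ∧ ⋃₀ 𝒱 = ⋃₀ 𝒰

/-- all finite powers are hereditarily separable -/
def HSall (X : Type) [TopologicalSpace X] : Prop :=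
  ∀ n : ℕ, ∀ C : Set (Fin n → X), ∃ D : Set (Fin n → X), D ⊆ C ∧ D.Countable ∧ C ⊆ closure D

/-- `E` (a set of `m`-tuples of continuous functions) is closed for the pointwise topology -/
def ClosedPt {m : ℕ} (E : Set (Fin m → C(X, ℝ))) : Prop :=
  ∀ g : Fin m → C(X, ℝ), (∀ T : Finset X, ∀ ε : ℝ, 0 < ε →
    ∃ h ∈ E, ∀ x ∈ T, ∀ j, |h j x - g j x| < ε) → g ∈ E

/-- `E` is separable for the pointwise topology -/
def SepPt {m : ℕ} (E : Set (Fin m → C(X, ℝ))) : Prop :=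
  ∃ D : Set (Fin m → C(X, ℝ)), D ⊆ E ∧ D.Countable ∧
    ∀ h ∈ E, ∀ T : Finset X, ∀ ε : ℝ, 0 < ε → ∃ d ∈ D, ∀ x ∈ T, ∀ j, |d j x - h j x| < ε

/-- composition of a continuous function of `m` real variables with an `m`-tuple -/
def cmp {m : ℕ} (P : C(Fin m → ℝ, ℝ)) (f : Fin m → C(X, ℝ)) : C(X, ℝ) :=
  P.comp ⟨fun x j => f j x, continuous_pi fun j => (f j).continuous⟩

@[simp] theorem cmp_apply {m : ℕ} (P : C(Fin m → ℝ, ℝ)) (f : Fin m → C(X, ℝ)) (x : X) :
    cmp P f x = P (fun j => f j x) := rfl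

/-- the fast growing test function -/
noncomputable def wfun {m : ℕ} (z : Fin m → ℝ) : ℝ :=
  Real.exp (Real.exp ((∑ j, z j ^ 2) ^ 2))

/-- the fast growing test function as a continuous map -/
noncomputable def wC (m : ℕ) : C(Fin m → ℝ, ℝ) :=
  ⟨wfun, by unfold wfun; fun_prop⟩

@[simp] theorem wC_apply {m : ℕ} (z : Fin m → ℝ) : wC m z = wfun z := rfl

/-- `r` lies in the lattice `2⁻ⁱ ℤ` -/
def IsLat (i : ℕ) (r : ℝ) : Prop := ∃ z : ℤ, r = z / 2 ^ i

/-! ### bilinearity of the pairing -/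

theorem pair_eq_sum (a : X →₀ ℝ) (f : C(X, ℝ)) {T : Finset X} (h : a.support ⊆ T) :
    pair a f = ∑ x ∈ T, a x * f x := by
  unfold pair
  exact Finsupp.sum_of_support_subset a h _ (by intro i _; simp)

@[simp] theorem pair_single (x : X) (c : ℝ) (f : C(X, ℝ)) :
    pair (Finsupp.single x c) f = c * f x := by
  unfold pair
  exact Finsupp.sum_single_index (by simp)

@[simp] theorem pair_zero_left (f : C(X, ℝ)) : pair (0 : X →₀ ℝ) f = 0 := by
  unfold pair
  exact Finsupp.sum_zero_index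

theorem pair_add_left (a b : X →₀ ℝ) (f : C(X, ℝ)) : pair (a + b) f = pair a f + pair b f := by
  unfold pair
  exact Finsupp.sum_add_index' (by intro; simp) (by intro x c d; ring)

theorem pair_smul_left (c : ℝ) (a : X →₀ ℝ) (f : C(X, ℝ)) : pair (c • a) f = c * pair a f := by
  unfold pair
  rw [Finsupp.sum_smul_index (by intro; simp), Finsupp.sum, Finsupp.sum, Finset.mul_sum]
  exact Finset.sum_congr rfl fun x _ => by ring

theorem pair_add_right (a : X →₀ ℝ) (f g : C(X, ℝ)) : pair a (f + g) = pair a f + pair a g := by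
  unfold pair
  rw [Finsupp.sum, Finsupp.sum, Finsupp.sum, ← Finset.sum_add_distrib]
  exact Finset.sum_congr rfl fun x _ => by rw [ContinuousMap.add_apply]; ring

theorem pair_smul_right (a : X →₀ ℝ) (c : ℝ) (f : C(X, ℝ)) : pair a (c • f) = c * pair a f := by
  unfold pair
  rw [Finsupp.sum, Finsupp.sum, Finset.mul_sum]
  exact Finset.sum_congr rfl fun x _ => by rw [ContinuousMap.smul_apply, smul_eq_mul]; ring

/-- the pairing as a bilinear map -/
noncomputable def pairL : (X →₀ ℝ) →ₗ[ℝ] C(X, ℝ) →ₗ[ℝ] ℝ :=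
  LinearMap.mk₂ ℝ pair pair_add_left (fun c a f => by rw [pair_smul_left, smul_eq_mul])
    pair_add_right (fun c a f => by rw [pair_smul_right, smul_eq_mul])

@[simp] theorem pairL_apply (a : X →₀ ℝ) (f : C(X, ℝ)) : pairL a f = pair a f := rfl

theorem pair_sub_left (a b : X →₀ ℝ) (f : C(X, ℝ)) : pair (a - b) f = pair a f - pair b f := by
  rw [← pairL_apply, ← pairL_apply, ← pairL_apply, map_sub, LinearMap.sub_apply]

theorem pair_sub_right (a : X →₀ ℝ) (f g : C(X, ℝ)) : pair a (f - g) = pair a f - pair a g := by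
  rw [← pairL_apply, ← pairL_apply, ← pairL_apply, map_sub]

@[simp] theorem pair_zero_right (a : X →₀ ℝ) : pair a (0 : C(X, ℝ)) = 0 := by
  rw [← pairL_apply, map_zero]

theorem pair_sum_left {ι : Type} (s : Finset ι) (a : ι → X →₀ ℝ) (f : C(X, ℝ)) :
    pair (∑ i ∈ s, a i) f = ∑ i ∈ s, pair (a i) f := by
  rw [← pairL_apply, map_sum, LinearMap.sum_apply]; rfl

theorem pair_sum_right {ι : Type} (s : Finset ι) (a : X →₀ ℝ) (f : ι → C(X, ℝ)) :
    pair a (∑ i ∈ s, f i) = ∑ i ∈ s, pair a (f i) := by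
  rw [← pairL_apply, map_sum]; rfl

theorem mem_Nb {a b : X →₀ ℝ} {F : Finset C(X, ℝ)} {ε : ℝ} :
    b ∈ Nb a F ε ↔ ∀ f ∈ F, |pair b f - pair a f| < ε := Iff.rfl

theorem self_mem_Nb (a : X →₀ ℝ) (F : Finset C(X, ℝ)) {ε : ℝ} (hε : 0 < ε) : a ∈ Nb a F ε := by
  intro f _
  simpa using hε

end Pool.Agent.CpPN
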