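import Pool.Agent.CpPN.Spread

/-! # Module DI: the dichotomy -/

set_option autoImplicit false

namespace Pool.Agent.CpPN

open Set Topology

variable {X : Type} [TopologicalSpace X]

namespace DichAux

/-- quadruples (point, neighbourhood, point, neighbourhood) -/
abbrev Quad (X : Type) (a b : ℕ) : Type :=
  (Fin a → X) × Set (Fin a → X) × (Fin b → X) × Set (Fin b → X)

/-- the admissible families -/
def Adm {a b : ℕ} (Z : Set (Fin a → X)) (W : Set (Set (Fin b → X))) (P : Set (Quad X a b)) :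
    Prop :=
  (∀ p ∈ P, p.1 ∈ Z ∧ IsOpen p.2.1 ∧ p.1 ∈ p.2.1 ∧ p.2.2.2 ∈ W ∧ p.2.2.1 ∈ p.2.2.2) ∧
    P.Pairwise (fun p q => ¬ (q.1 ∈ p.2.1 ∧ q.2.2.1 ∈ p.2.2.2))

theorem exists_family {a b : ℕ} (Z : Set (Fin a → X))
    (hZ : ∀ D ⊆ Z, D.Countable → ¬ Z ⊆ closure D) (W : Set (Set (Fin b → X)))
    (hW : ∀ V ⊆ W, V.Countable → ⋃₀ V ≠ ⋃₀ W) :
    ∃ P : Set (Quad X a b), ¬ P.Countable ∧ Adm Z W P := by
  obtain ⟨P, hP⟩ := zorn_subset {P : Set (Quad X a b) | Adm Z W P} (by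
    intro c hc hchain
    refine ⟨⋃₀ c, ⟨?_, ?_⟩, fun s hs => subset_sUnion_of_mem hs⟩
    · rintro p ⟨s, hs, hps⟩
      exact (hc hs).1 p hps
    · rw [Set.pairwise_sUnion hchain.directedOn]
      exact fun s hs => (hc hs).2)
  refine ⟨P, fun hcount => ?_, hP.prop⟩
  have hadm : Adm Z W P := hP.prop
  have h1 := hZ ((fun p : Quad X a b => p.1) '' P)
    (by rintro _ ⟨p, hp, rfl⟩; exact (hadm.1 p hp).1) (hcount.image _)
  obtain ⟨z, hz, hzc⟩ := Set.not_subset.1 h1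
  have h2 := hW ((fun p : Quad X a b => p.2.2.2) '' P)
    (by rintro _ ⟨p, hp, rfl⟩; exact (hadm.1 p hp).2.2.2.1) (hcount.image _)
  have h3 : ∃ w, w ∈ ⋃₀ W ∧ w ∉ ⋃₀ ((fun p : Quad X a b => p.2.2.2) '' P) := by
    by_contra hcon
    push Not at hcon
    refine h2 (Subset.antisymm (sUnion_subset_sUnion ?_) hcon)
    rintro _ ⟨p, hp, rfl⟩; exact (hadm.1 p hp).2.2.2.1
  obtain ⟨w, ⟨V, hVW, hwV⟩, hw⟩ := h3
  set e : Quad X a b := (z, (closure ((fun p : Quad X a b => p.1) '' P))ᶜ, w, V) with he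
  have hins : Adm Z W (insert e P) := by
    refine ⟨?_, ?_⟩
    · rintro p (rfl | hp)
      · exact ⟨hz, isClosed_closure.isOpen_compl, hzc, hVW, hwV⟩
      · exact hadm.1 p hp
    · rw [Set.pairwise_insert]
      refine ⟨hadm.2, fun p hp _ => ⟨?_, ?_⟩⟩
      · rintro ⟨h4, -⟩
        exact h4 (subset_closure ⟨p, hp, rfl⟩)
      · rintro ⟨-, h4⟩
        exact hw ⟨p.2.2.2, ⟨p, hp, rfl⟩, h4⟩
  have heP : e ∈ P := by
    have := hP.eq_of_subset hins (subset_insert e P)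
    rw [this]; exact mem_insert e P
  exact hw ⟨V, ⟨e, heP, rfl⟩, hwV⟩

end DichAux

open DichAux

theorem dichotomy [T35Space X] (h : CountProp X) : HLall X ∨ HSall X := by
  by_contra hcon
  rw [not_or] at hcon
  obtain ⟨h1, h2⟩ := hcon
  unfold HLall at h1
  unfold HSall at h2
  push Not at h1 h2
  obtain ⟨b, W, hWo, hW⟩ := h1
  obtain ⟨a, Z, hZ⟩ := h2
  obtain ⟨P, hPc, hP, hPp⟩ := exists_family Z hZ W hW
  have hunc : Uncountable P := by
    rw [← not_countable_iff]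
    exact fun hc => hPc (Set.countable_coe_iff.1 hc)
  have hbox1 : ∀ p : P, ∃ G : Fin a → Set X, (∀ i, IsOpen (G i) ∧ p.1.1 i ∈ G i) ∧
      univ.pi G ⊆ p.1.2.1 := fun p =>
    isOpen_pi_iff'.1 (hP p p.2).2.1 _ (hP p p.2).2.2.1
  have hbox2 : ∀ p : P, ∃ G : Fin b → Set X, (∀ i, IsOpen (G i) ∧ p.1.2.2.1 i ∈ G i) ∧
      univ.pi G ⊆ p.1.2.2.2 := fun p =>
    isOpen_pi_iff'.1 (hWo _ (hP p p.2).2.2.2.1) _ (hP p p.2).2.2.2.2
  choose G₁ hG₁ hG₁' using hbox1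
  choose G₂ hG₂ hG₂' using hbox2
  refine no_discrete h (a + b) (fun p : P => Fin.append p.1.1 p.1.2.2.1)
    (fun p : P => Fin.append (G₁ p) (G₂ p)) ?_ ?_ ?_
  · intro p i
    refine Fin.addCases (fun i => ?_) (fun i => ?_) i
    · simpa using (hG₁ p i).1
    · simpa using (hG₂ p i).1
  · intro p i
    refine Fin.addCases (fun i => ?_) (fun i => ?_) i
    · simpa using (hG₁ p i).2
    · simpa using (hG₂ p i).2
  · intro p q hpq
    by_contra hcon
    push Not at hcon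
    refine hPp p.2 q.2 (fun hh => hpq (Subtype.ext hh)) ⟨hG₁' p fun i _ => ?_, hG₂' p fun i _ => ?_⟩
    · simpa using hcon (Fin.castAdd b i)
    · simpa using hcon (Fin.natAdd a i)

end Pool.Agent.CpPN
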