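import Mathlib

/-! # Module GE: a generic vector orthogonal to a subspace -/

set_option autoImplicit false

namespace Pool.Agent.CpPN

theorem exists_generic {T : Type} [Fintype T] (V : Submodule ℝ (T → ℝ)) (𝒰 : Set (T → ℝ))
    (h𝒰 : 𝒰.Countable) : ∃ b : T → ℝ, (∀ g ∈ V, ∑ t, b t * g t = 0) ∧
      ∀ u ∈ 𝒰, u ∉ V → ∑ t, b t * u t ≠ 0 := by
  classical
  let W : Submodule ℝ (T → ℝ) :=
    { carrier := {b | ∀ g ∈ V, ∑ t, b t * g t = 0}
      add_mem' := by
        intro a b ha hb g hg
        have : ∑ t, (a + b) t * g t = ∑ t, a t * g t + ∑ t, b t * g t := by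
          rw [← Finset.sum_add_distrib]
          exact Finset.sum_congr rfl fun t _ => by rw [Pi.add_apply]; ring
        rw [this, ha g hg, hb g hg, add_zero]
      zero_mem' := by
        intro g hg
        simp
      smul_mem' := by
        intro c a ha g hg
        have : ∑ t, (c • a) t * g t = c * ∑ t, a t * g t := by
          rw [Finset.mul_sum]
          exact Finset.sum_congr rfl fun t _ => by
            rw [Pi.smul_apply, smul_eq_mul]; ring
        rw [this, ha g hg, mul_zero] }
  let ev : (T → ℝ) → (W →ₗ[ℝ] ℝ) := fun u =>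
    { toFun := fun b => ∑ t, (b : T → ℝ) t * u t
      map_add' := by
        intro a b
        rw [← Finset.sum_add_distrib]
        exact Finset.sum_congr rfl fun t _ => by
          rw [Submodule.coe_add, Pi.add_apply]; ring
      map_smul' := by
        intro c a
        rw [RingHom.id_apply, smul_eq_mul, Finset.mul_sum]
        exact Finset.sum_congr rfl fun t _ => by
          rw [Submodule.coe_smul, Pi.smul_apply, smul_eq_mul]; ring }
  by_contra hcon
  push Not at hcon
  have hcov : (⋃ u : {u : T → ℝ // u ∈ 𝒰 ∧ u ∉ V}, ((LinearMap.ker (ev u.1) : Submodule ℝ W) :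
      Set W)) = Set.univ := by
    ext b
    simp only [Set.mem_iUnion, Set.mem_univ, iff_true]
    obtain ⟨u, hu, huV, h0⟩ := hcon b b.2
    exact ⟨⟨u, hu, huV⟩, h0⟩
  have hc : Countable {u : T → ℝ // u ∈ 𝒰 ∧ u ∉ V} := by
    have : ({u : T → ℝ | u ∈ 𝒰 ∧ u ∉ V}).Countable := h𝒰.mono fun u hu => hu.1
    exact this.to_subtype
  obtain ⟨u, hu⟩ := nonempty_interior_of_iUnion_of_closed
    (fun u : {u : T → ℝ // u ∈ 𝒰 ∧ u ∉ V} =>
      Submodule.closed_of_finiteDimensional (LinearMap.ker (ev u.1))) hcov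
  have htop := Submodule.eq_top_of_nonempty_interior' _ hu
  obtain ⟨f, hf1, hf2⟩ := Submodule.exists_dual_map_eq_bot_of_notMem u.2.2 inferInstance
  have hf : ∀ x : T → ℝ, f x = ∑ t, f (Pi.single t 1) * x t := by
    intro x
    have hx : x = ∑ t, x t • (Pi.single t (1 : ℝ) : T → ℝ) := by
      ext s
      simp [Finset.sum_apply, Pi.single_apply]
    conv_lhs => rw [hx]
    rw [map_sum]
    exact Finset.sum_congr rfl fun t _ => by rw [map_smul, smul_eq_mul]; ring
  have hfW : (fun t => f (Pi.single t 1)) ∈ W := by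
    intro g hg
    rw [← hf]
    have : f g ∈ V.map f := Submodule.mem_map_of_mem hg
    rw [hf2] at this
    exact (Submodule.mem_bot ℝ).1 this
  have hmem : (⟨_, hfW⟩ : W) ∈ LinearMap.ker (ev u.1) := by
    rw [htop]
    exact Submodule.mem_top
  apply hf1
  rw [hf]
  exact hmem

end Pool.Agent.CpPN
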