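import Pool.Agent.CpPN.Lac
import Pool.Agent.CpPN.ClaimW
import Pool.Agent.CpPN.Generic

/-! # Module FD: the finite dimensional lemma -/

set_option autoImplicit false

namespace Pool.Agent.CpPN

open Filter

namespace FDLAux

/-- a subspace determined by the coordinates in `T0` is controlled by these coordinates -/
theorem exists_bound {T : Type} [Fintype T] (V : Submodule ℝ (T → ℝ)) (T0 : Finset T)
    (hT0 : ∀ g ∈ V, (∀ t ∈ T0, g t = 0) → g = 0) :
    ∃ C : ℝ, 0 ≤ C ∧ ∀ g ∈ V, ∀ t, |g t| ≤ C * ∑ t ∈ T0, |g t| := by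
  classical
  set R : V →ₗ[ℝ] (T0 → ℝ) :=
    { toFun := fun g t => (g : T → ℝ) t
      map_add' := fun g h => by ext t; simp
      map_smul' := fun c g => by ext t; simp } with hR
  have hRker : LinearMap.ker R = ⊥ := by
    rw [LinearMap.ker_eq_bot']
    intro g hg
    apply Subtype.ext
    exact hT0 g g.2 fun t ht => congrFun hg ⟨t, ht⟩
  obtain ⟨L, hL⟩ := R.exists_leftInverse_of_injective hRker
  have hLR : ∀ g : V, L (R g) = g := fun g => by
    have := LinearMap.congr_fun hL g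
    simpa using this
  have hrep : ∀ g : V, ∀ t, (g : T → ℝ) t =
      ∑ s : T0, (g : T → ℝ) s * (L (Pi.single s 1) : T → ℝ) t := by
    intro g t
    have h1 : R g = ∑ s : T0, (g : T → ℝ) s • (Pi.single s (1 : ℝ) : T0 → ℝ) := by
      ext s'
      simp [hR, Finset.sum_apply, Pi.single_apply]
    have h2 := hLR g
    rw [h1, map_sum] at h2
    conv_lhs => rw [← h2]
    simp
  refine ⟨∑ t : T, ∑ s : T0, |(L (Pi.single s 1) : T → ℝ) t|,
    Finset.sum_nonneg fun _ _ => Finset.sum_nonneg fun _ _ => abs_nonneg _, ?_⟩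
  intro g hg t
  have h3 := hrep ⟨g, hg⟩ t
  simp only at h3
  rw [h3, Finset.mul_sum]
  calc |∑ s : T0, g s * (L (Pi.single s 1) : T → ℝ) t|
      ≤ ∑ s : T0, |g s * (L (Pi.single s 1) : T → ℝ) t| := Finset.abs_sum_le_sum_abs _ _
    _ ≤ ∑ s : T0, (∑ t : T, ∑ s : T0, |(L (Pi.single s 1) : T → ℝ) t|) * |g s| := by
        refine Finset.sum_le_sum fun s _ => ?_
        rw [abs_mul, mul_comm]
        refine mul_le_mul_of_nonneg_right ?_ (abs_nonneg _)
        calc |(L (Pi.single s 1) : T → ℝ) t|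
            ≤ ∑ s : T0, |(L (Pi.single s 1) : T → ℝ) t| :=
              Finset.single_le_sum (f := fun s : T0 => |(L (Pi.single s 1) : T → ℝ) t|)
                (fun _ _ => abs_nonneg _) (Finset.mem_univ s)
          _ ≤ _ := Finset.single_le_sum
                (f := fun t : T => ∑ s : T0, |(L (Pi.single s 1) : T → ℝ) t|)
                (fun _ _ => Finset.sum_nonneg fun _ _ => abs_nonneg _) (Finset.mem_univ t)
    _ = ∑ s ∈ T0, (∑ t : T, ∑ s : T0, |(L (Pi.single s 1) : T → ℝ) t|) * |g s| :=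
        Finset.sum_coe_sort T0
          (fun s => (∑ t : T, ∑ s : T0, |(L (Pi.single s 1) : T → ℝ) t|) * |g s|)

/-- lattice valued functions are countable -/
theorem lat_countable (T : Type) [Fintype T] (m I : ℕ) :
    {v : T → Fin m → ℝ | ∀ t j, IsLat I (v t j)}.Countable := by
  have h : {v : T → Fin m → ℝ | ∀ t j, IsLat I (v t j)} ⊆
      Set.range fun z : T → Fin m → ℤ => fun t j => (z t j : ℝ) / 2 ^ I := by
    intro v hv
    choose z hz using hv
    exact ⟨z, by ext t j; exact (hz t j).symm⟩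
  have : Countable (T → Fin m → ℤ) := inferInstance
  exact (Set.countable_range _).mono h

/-- a bounded multiple of a sequence tending to infinity vanishes -/
theorem eq_zero_of_frequently {R : ℕ → ℝ} (hR : Tendsto R atTop atTop) (A B q ε : ℝ)
    (hf : ∃ᶠ k in atTop, |A + R k * B - q| < ε) : B = 0 := by
  by_contra hB
  have h1 : Tendsto (fun k => R k * |B|) atTop atTop :=
    hR.atTop_mul_const (abs_pos.2 hB)
  have h2 : ∀ᶠ k in atTop, |A - q| + ε < R k * |B| ∧ 0 ≤ R k :=
    (h1.eventually_gt_atTop _).and (hR.eventually_ge_atTop 0)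
  obtain ⟨k, hk, hk2, hk3⟩ := (hf.and_eventually h2).exists
  have h3 : |R k * B| = R k * |B| := by rw [abs_mul, abs_of_nonneg hk3]
  have h4 : |R k * B| ≤ |A + R k * B - q| + |A - q| := by
    have : R k * B = (A + R k * B - q) - (A - q) := by ring
    calc |R k * B| = |(A + R k * B - q) - (A - q)| := by rw [← this]
      _ ≤ _ := abs_sub _ _
  linarith

end FDLAux

open FDLAux in
theorem fdl {T K : Type} [Fintype T] [Fintype K] {m : ℕ} (I : ℕ)
    (V : Submodule ℝ (T → ℝ)) (T0 : Finset T)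
    (hT0 : ∀ g ∈ V, (∀ t ∈ T0, g t = 0) → g = 0)
    (a0 : T → ℝ) (η : ℝ) (hη : 0 < η)
    (hpos : ∀ g ∈ V, (∀ t, 0 ≤ g t) → η * ∑ t ∈ T0, g t ≤ ∑ t, a0 t * g t)
    (τ : K → T → (Fin m → ℝ) → ℝ) (𝓥 : Set (T → Fin m → ℝ))
    (hlat : ∀ v ∈ 𝓥, ∀ t j, IsLat I (v t j))
    (q : K → ℝ) (qw ε : ℝ)
    (H : ∀ b : T → ℝ, (∀ g ∈ V, ∑ t, b t * g t = 0) → ∃ v ∈ 𝓥,
      (∀ k, |∑ t, (a0 t + b t) * τ k t (v t) - q k| < ε) ∧
        |∑ t, (a0 t + b t) * wfun (v t) - qw| < ε) :
    ∃ v ∈ 𝓥, (∀ k, (fun t => τ k t (v t)) ∈ V) ∧ (fun t => wfun (v t)) ∈ V ∧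
      (∀ k, |∑ t, a0 t * τ k t (v t) - q k| < ε) ∧ |∑ t, a0 t * wfun (v t) - qw| < ε := by
  classical
  set 𝓛 := {v : T → Fin m → ℝ | ∀ t j, IsLat I (v t j)} with h𝓛
  have hLc : 𝓛.Countable := lat_countable T m I
  have hcount : ((⋃ k : K, (fun v : T → Fin m → ℝ => fun t => τ k t (v t)) '' 𝓛) ∪
      ((Set.range fun s : T → ℕ => fun t => kap I (s t)) ∪
        Set.range fun S : Finset T =>
          Set.indicator (S : Set T) fun _ => (1 : ℝ))).Countable := by
    refine Set.Countable.union (Set.countable_iUnion fun k => hLc.image _) ?_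
    exact (Set.countable_range _).union (Set.countable_range _)
  obtain ⟨b, hbV, hb⟩ := exists_generic V _ hcount
  have hsum : ∀ (c : ℝ) (g : T → ℝ), ∑ t, (a0 t + c * b t) * g t =
      ∑ t, a0 t * g t + c * ∑ t, b t * g t := by
    intro c g
    rw [Finset.mul_sum, ← Finset.sum_add_distrib]
    exact Finset.sum_congr rfl fun t _ => by ring
  obtain ⟨R, hR, hW⟩ := claimW (kap I) (one_le_kap I) (kap_strictMono I) (kap_lac I) V T0 hT0
    a0 η hη hpos b hbV
    (by
      intro S hS h0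
      refine hb _ (Or.inr (Or.inr ⟨S, rfl⟩)) hS ?_
      rw [← h0, ← Finset.sum_subset (Finset.subset_univ S)]
      · refine Finset.sum_congr rfl fun t ht => ?_
        show b t * Set.indicator (S : Set T) (fun _ => (1 : ℝ)) t = b t
        rw [Set.indicator_of_mem (by exact_mod_cast ht), mul_one]
      · intro t _ ht
        show b t * Set.indicator (S : Set T) (fun _ => (1 : ℝ)) t = 0
        rw [Set.indicator_of_notMem (by exact_mod_cast ht), mul_zero])
    (by
      intro s hs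
      exact hb _ (Or.inr (Or.inl ⟨s, rfl⟩)) hs)
  -- the solutions for the multiples
  have hex : ∀ k : ℕ, ∃ v ∈ 𝓥, (∀ i, |∑ t, (a0 t + R k * b t) * τ i t (v t) - q i| < ε) ∧
      |∑ t, (a0 t + R k * b t) * wfun (v t) - qw| < ε := by
    intro k
    refine H (fun t => R k * b t) ?_
    intro g hg
    have : ∑ t, R k * b t * g t = R k * ∑ t, b t * g t := by
      rw [Finset.mul_sum]
      exact Finset.sum_congr rfl fun t _ => by ring
    rw [this, hbV g hg, mul_zero]
  choose v hv𝓥 hvτ hvw using hex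
  have hlatw : ∀ k, ∃ s : T → ℕ, (fun t => wfun (v k t)) = fun t => kap I (s t) := by
    intro k
    have : ∀ t, ∃ s : ℕ, wfun (v k t) = kap I s := fun t =>
      wfun_lat I (v k t) (hlat _ (hv𝓥 k) t)
    choose s hs using this
    exact ⟨s, funext hs⟩
  have hwV : ∀ᶠ k in atTop, (fun t => wfun (v k t)) ∈ V := by
    filter_upwards [hW (|qw| + ε)] with k hk
    by_contra hcon
    obtain ⟨s, hs⟩ := hlatw k
    have h1 := hk s (by rw [← hs]; exact hcon)
    have h2 : ∑ t, (a0 t + R k * b t) * kap I (s t) =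
        ∑ t, (a0 t + R k * b t) * wfun (v k t) :=
      Finset.sum_congr rfl fun t _ => by rw [congrFun hs t]
    rw [h2] at h1
    have h3 := hvw k
    have h4 : |∑ t, (a0 t + R k * b t) * wfun (v k t)| ≤
        |∑ t, (a0 t + R k * b t) * wfun (v k t) - qw| + |qw| := by
      have : ∑ t, (a0 t + R k * b t) * wfun (v k t) =
        (∑ t, (a0 t + R k * b t) * wfun (v k t) - qw) + qw := by ring
      calc |∑ t, (a0 t + R k * b t) * wfun (v k t)|
          = |(∑ t, (a0 t + R k * b t) * wfun (v k t) - qw) + qw| := by rw [← this]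
        _ ≤ _ := abs_add_le _ _
    linarith
  have hwpos : ∀ (z : Fin m → ℝ), 0 < wfun z := fun z => Real.exp_pos _
  obtain ⟨C, hC0, hC⟩ := exists_bound V T0 hT0
  have hbdd : ∀ᶠ k in atTop, ∀ t, wfun (v k t) ≤ C * ((qw + ε) / η) := by
    filter_upwards [hwV] with k hk t
    have h1 := hvw k
    rw [hsum, hbV _ hk, mul_zero, add_zero] at h1
    have h2 := hpos _ hk fun t => (hwpos _).le
    have h3 : ∑ t ∈ T0, wfun (v k t) ≤ (qw + ε) / η := by
      rw [le_div_iff₀ hη]
      have := (abs_lt.1 h1).2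
      linarith
    have h4 := hC _ hk t
    rw [abs_of_pos (hwpos _)] at h4
    refine h4.trans (mul_le_mul_of_nonneg_left ?_ hC0)
    rw [Finset.sum_congr rfl fun t _ => abs_of_pos (hwpos (v k t))]
    exact h3
  set Fz := {z : Fin m → ℝ | (∀ j, IsLat I (z j)) ∧ wfun z ≤ C * ((qw + ε) / η)} with hFz
  have hFzf : Fz.Finite := wfun_finite m I _
  have hmem : ∀ᶠ k in atTop, v k ∈ Set.pi Set.univ fun _ : T => Fz := by
    filter_upwards [hbdd] with k hk
    exact fun t _ => ⟨fun j => hlat _ (hv𝓥 k) t j, hk t⟩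
  have hpif : (Set.pi Set.univ fun _ : T => Fz).Finite := Set.Finite.pi fun _ => hFzf
  have hfreq : ∃ w ∈ (Set.pi Set.univ fun _ : T => Fz), ∃ᶠ k in atTop, v k = w := by
    by_contra hcon
    push Not at hcon
    have h1 : ∀ᶠ k in atTop, ∀ w ∈ (Set.pi Set.univ fun _ : T => Fz), v k ≠ w :=
      (Filter.eventually_all_finite hpif).2 fun w hw => by
        simpa [Filter.Frequently] using hcon w hw
    obtain ⟨k, hk1, hk2⟩ := (h1.and hmem).exists
    exact hk1 _ hk2 rfl
  obtain ⟨w, -, hw⟩ := hfreq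
  have hw' : ∃ k, v k = w := hw.exists
  have hw𝓥 : w ∈ 𝓥 := by
    obtain ⟨k, hk⟩ := hw'
    rw [← hk]
    exact hv𝓥 k
  have hτ0 : ∀ i, ∑ t, b t * τ i t (w t) = 0 := by
    intro i
    refine eq_zero_of_frequently hR (∑ t, a0 t * τ i t (w t)) _ (q i) ε ?_
    refine hw.mono fun k hk => ?_
    have := hvτ k i
    rwa [hk, hsum] at this
  have hw0 : ∑ t, b t * wfun (w t) = 0 := by
    refine eq_zero_of_frequently hR (∑ t, a0 t * wfun (w t)) _ qw ε ?_
    refine hw.mono fun k hk => ?_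
    have := hvw k
    rwa [hk, hsum] at this
  refine ⟨w, hw𝓥, ?_, ?_, ?_, ?_⟩
  · intro i
    by_contra hcon
    exact hb _ (Or.inl (Set.mem_iUnion.2 ⟨i, w, hlat w hw𝓥, rfl⟩)) hcon (hτ0 i)
  · obtain ⟨k, hk1, hk2⟩ := (hw.and_eventually hwV).exists
    rwa [hk1] at hk2
  · intro i
    obtain ⟨k, hk⟩ := hw'
    have := hvτ k i
    rwa [hk, hsum, hτ0 i, mul_zero, add_zero] at this
  · obtain ⟨k, hk⟩ := hw'
    have := hvw k
    rwa [hk, hsum, hw0, mul_zero, add_zero] at this

end Pool.Agent.CpPN
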