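import Pool.Agent.CpPN.Defs

/-! # Module FI: from separability of closed sets to perfect normality -/

set_option autoImplicit false

namespace Pool.Agent.CpPN

open Set Topology

variable {X : Type} [TopologicalSpace X]

namespace FinalAux

/-- complements of zero sets -/
def IsCoz {W : Type} [TopologicalSpace W] (U : Set W) : Prop :=
  ∃ F : W → ℝ, Continuous F ∧ U = {w | F w ≠ 0}

theorem isCoz_sUnion {W : Type} [TopologicalSpace W] (𝒞 : Set (Set W)) (hc : 𝒞.Countable)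
    (h : ∀ U ∈ 𝒞, IsCoz U) : IsCoz (⋃₀ 𝒞) := by
  rcases 𝒞.eq_empty_or_nonempty with he | hne
  · exact ⟨fun _ => 0, continuous_const, by ext w; simp [he]⟩
  obtain ⟨u, hu⟩ := hc.exists_eq_range hne
  have hu' : ∀ n, IsCoz (u n) := fun n => h _ (by rw [hu]; exact ⟨n, rfl⟩)
  choose F hF hFu using hu'
  have hb : ∀ n w, ‖((1 : ℝ) / 2) ^ n * min 1 |F n w|‖ ≤ (1 / 2) ^ n := by
    intro n w
    have h0 : 0 ≤ min 1 |F n w| := le_min zero_le_one (abs_nonneg _)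
    rw [Real.norm_eq_abs, abs_of_nonneg (by positivity)]
    exact mul_le_of_le_one_right (by positivity) (min_le_left _ _)
  have hs : Summable (fun i : ℕ => ((1 : ℝ) / 2) ^ i) := summable_geometric_two
  refine ⟨fun w => ∑' n, ((1 : ℝ) / 2) ^ n * min 1 |F n w|,
    continuous_tsum (fun n => ?_) hs hb, ?_⟩
  · have := hF n
    fun_prop
  · ext w
    have hsw : Summable fun n => ((1 : ℝ) / 2) ^ n * min 1 |F n w| :=
      Summable.of_norm_bounded hs fun n => hb n w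
    have h0 : ∀ n, 0 ≤ ((1 : ℝ) / 2) ^ n * min 1 |F n w| := by
      intro n
      have h0 : 0 ≤ min 1 |F n w| := le_min zero_le_one (abs_nonneg _)
      positivity
    rw [hu, Set.mem_sUnion, Set.mem_ofPred_eq]
    constructor
    · rintro ⟨_, ⟨n, rfl⟩, hw⟩
      rw [hFu n] at hw
      have hw' : F n w ≠ 0 := hw
      have hp : 0 < ((1 : ℝ) / 2) ^ n * min 1 |F n w| := by
        have := abs_pos.2 hw'
        have h3 : 0 < min 1 |F n w| := lt_min zero_lt_one this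
        positivity
      exact (hsw.tsum_pos h0 n hp).ne'
    · intro hne0
      by_contra hcon
      apply hne0
      have : ∀ n, ((1 : ℝ) / 2) ^ n * min 1 |F n w| = 0 := by
        intro n
        have hw : w ∉ u n := fun hw => hcon ⟨u n, ⟨n, rfl⟩, hw⟩
        have h4 : F n w = 0 := by
          by_contra h5
          exact hw (by rw [hFu n]; exact h5)
        simp [h4]
      have h6 : (fun n => ((1 : ℝ) / 2) ^ n * min 1 |F n w|) = fun _ => 0 := funext this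
      show ∑' n, ((1 : ℝ) / 2) ^ n * min 1 |F n w| = 0
      rw [h6, tsum_zero]

theorem perfectlyNormal_of_coz {W : Type} [TopologicalSpace W]
    (h : ∀ O : Set W, IsOpen O → IsCoz O) : PerfectlyNormalSpace W := by
  have hz : ∀ A : Set W, IsClosed A → ∃ F : W → ℝ, Continuous F ∧ A = {w | F w = 0} := by
    intro A hA
    obtain ⟨F, hF, hAF⟩ := h _ hA.isOpen_compl
    refine ⟨F, hF, ?_⟩
    rw [← compl_compl A, hAF]
    ext w
    simp
  have hn : NormalSpace W := by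
    refine ⟨fun A B hA hB hAB => ?_⟩
    obtain ⟨F, hF, hAF⟩ := hz A hA
    obtain ⟨G, hG, hBG⟩ := hz B hB
    refine ⟨{w | |F w| < |G w|}, {w | |G w| < |F w|}, isOpen_lt hF.abs hG.abs,
      isOpen_lt hG.abs hF.abs, ?_, ?_, ?_⟩
    · intro w hw
      have hwB : w ∉ B := fun hwB => Set.disjoint_left.1 hAB hw hwB
      rw [hAF] at hw
      rw [hBG] at hwB
      have h1 : F w = 0 := hw
      have h2 : G w ≠ 0 := hwB
      simp [h1, h2]
    · intro w hw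
      have hwA : w ∉ A := fun hwA => Set.disjoint_left.1 hAB hwA hw
      rw [hAF] at hwA
      rw [hBG] at hw
      have h1 : G w = 0 := hw
      have h2 : F w ≠ 0 := hwA
      simp [h1, h2]
    · rw [Set.disjoint_left]
      intro w h1 h2
      exact lt_asymm (show |F w| < |G w| from h1) h2
  refine { hn with closed_gdelta := fun A hA => ?_ }
  obtain ⟨F, hF, hAF⟩ := hz A hA
  rw [hAF]
  have : {w | F w = 0} = F ⁻¹' {0} := rfl
  rw [this]
  exact (isClosed_singleton.isGδ).preimage hF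

/-- basic neighbourhoods in `C_p` -/
theorem exists_nhd (W : Set (Cp X)) (hW : IsOpen W) (f : Cp X) (hf : f ∈ W) :
    ∃ T : Finset X, ∃ ε : ℝ, 0 < ε ∧ ∀ f' : Cp X, (∀ x ∈ T, |f'.1 x - f.1 x| < ε) → f' ∈ W := by
  obtain ⟨V, hV, rfl⟩ := isOpen_induced_iff.1 hW
  obtain ⟨I, u, hu, hI⟩ := isOpen_pi_iff.1 hV f.1 hf
  have h1 : ∀ a ∈ I, ∀ᶠ ε in 𝓝[>] (0 : ℝ), Metric.ball (f.1 a) ε ⊆ u a := by
    intro a ha
    obtain ⟨δ, hδ, hδu⟩ := Metric.isOpen_iff.1 (hu a ha).1 _ (hu a ha).2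
    have : Set.Ioo (0 : ℝ) δ ∈ 𝓝[>] (0 : ℝ) := Ioo_mem_nhdsGT hδ
    filter_upwards [this] with ε hε
    exact (Metric.ball_subset_ball hε.2.le).trans hδu
  obtain ⟨ε, hε, hε0⟩ :=
    (((Filter.eventually_all_finset I).2 h1).and self_mem_nhdsWithin).exists
  refine ⟨I, ε, hε0, fun f' hf' => hI fun a ha => hε a ha ?_⟩
  rw [Metric.mem_ball, Real.dist_eq]
  exact hf' a ha

/-- a continuous map as an element of `C_p` -/
def toCp (f : C(X, ℝ)) : Cp X := ⟨f, f.continuous⟩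

theorem exists_nhd_tuple (φ : Cp X → ℝ) (hφ : Continuous φ) {m : ℕ} (g : Fin m → C(X, ℝ))
    (U : Fin m → Set ℝ) (hU : ∀ j, IsOpen (U j)) (hg : ∀ j, φ (toCp (g j)) ∈ U j) :
    ∃ T : Finset X, ∃ ε : ℝ, 0 < ε ∧ ∀ h : Fin m → C(X, ℝ),
      (∀ x ∈ T, ∀ j, |h j x - g j x| < ε) → ∀ j, φ (toCp (h j)) ∈ U j := by
  classical
  have h1 : ∀ j, ∃ T : Finset X, ∃ ε : ℝ, 0 < ε ∧ ∀ f' : Cp X,
      (∀ x ∈ T, |f'.1 x - (toCp (g j)).1 x| < ε) → f' ∈ φ ⁻¹' (U j) :=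
    fun j => exists_nhd _ ((hU j).preimage hφ) _ (hg j)
  choose T ε hε hT using h1
  have h2 : ∃ ε₀ : ℝ, 0 < ε₀ ∧ ∀ j, ε₀ ≤ ε j := by
    have h3 : ∀ j, ∀ᶠ r in 𝓝[>] (0 : ℝ), r ≤ ε j := by
      intro j
      have : Set.Ioo (0 : ℝ) (ε j) ∈ 𝓝[>] (0 : ℝ) := Ioo_mem_nhdsGT (hε j)
      filter_upwards [this] with r hr
      exact hr.2.le
    obtain ⟨r, hr, hr0⟩ := ((Filter.eventually_all.2 h3).and self_mem_nhdsWithin).exists
    exact ⟨r, hr0, hr⟩
  obtain ⟨ε₀, hε₀, hle⟩ := h2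
  refine ⟨Finset.univ.biUnion T, ε₀, hε₀, fun h hh j => hT j _ fun x hx => ?_⟩
  have := hh x (Finset.mem_biUnion.2 ⟨j, Finset.mem_univ j, hx⟩) j
  exact this.trans_le (hle j)

/-- the box of `C_p(C_p(X))` given by a tuple and rational intervals -/
def box {m : ℕ} (h : Fin m → C(X, ℝ)) (J : Fin m → ℚ × ℚ) :
    Set {g : Cp X → ℝ // Continuous g} :=
  {φ | ∀ j, φ.1 (toCp (h j)) ∈ Set.Ioo ((J j).1 : ℝ) ((J j).2 : ℝ)}

theorem isCoz_box {m : ℕ} (h : Fin m → C(X, ℝ)) (J : Fin m → ℚ × ℚ) : IsCoz (box h J) := by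
  refine ⟨fun φ => ∏ j, max 0 (min (φ.1 (toCp (h j)) - ((J j).1 : ℝ))
    (((J j).2 : ℝ) - φ.1 (toCp (h j)))), ?_, ?_⟩
  · refine continuous_finsetProd _ fun j _ => ?_
    have : Continuous fun φ : {g : Cp X → ℝ // Continuous g} => φ.1 (toCp (h j)) :=
      (continuous_apply _).comp continuous_subtype_val
    exact continuous_const.max ((this.sub continuous_const).min (continuous_const.sub this))
  · ext φ
    simp only [box, Set.mem_ofPred_eq, Set.mem_Ioo, Finset.prod_ne_zero_iff, Finset.mem_univ,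
      forall_true_left]
    refine forall_congr' fun j => ?_
    constructor
    · rintro ⟨h1, h2⟩
      have : 0 < min (φ.1 (toCp (h j)) - ((J j).1 : ℝ)) (((J j).2 : ℝ) - φ.1 (toCp (h j))) :=
        lt_min (by linarith) (by linarith)
      rw [max_eq_right this.le]
      exact this.ne'
    · intro hne
      by_contra hcon
      apply hne
      apply max_eq_left
      by_contra h3
      push Not at h3
      obtain ⟨h4, h5⟩ := lt_min_iff.1 h3
      exact hcon ⟨by linarith, by linarith⟩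

theorem exists_box (O : Set {g : Cp X → ℝ // Continuous g}) (hO : IsOpen O)
    (φ : {g : Cp X → ℝ // Continuous g}) (hφ : φ ∈ O) :
    ∃ (m : ℕ) (h : Fin m → C(X, ℝ)) (J : Fin m → ℚ × ℚ), φ ∈ box h J ∧ box h J ⊆ O := by
  classical
  obtain ⟨V, hV, rfl⟩ := isOpen_induced_iff.1 hO
  obtain ⟨I, u, hu, hI⟩ := isOpen_pi_iff.1 hV φ.1 hφ
  have h1 : ∀ a : I, ∃ J : ℚ × ℚ, φ.1 a.1 ∈ Set.Ioo (J.1 : ℝ) (J.2 : ℝ) ∧
      Set.Ioo (J.1 : ℝ) (J.2 : ℝ) ⊆ u a.1 := by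
    rintro ⟨a, ha⟩
    obtain ⟨δ, hδ, hδu⟩ := Metric.isOpen_iff.1 (hu a ha).1 _ (hu a ha).2
    obtain ⟨p, hp1, hp2⟩ := exists_rat_btwn (show φ.1 a - δ < φ.1 a by linarith)
    obtain ⟨q, hq1, hq2⟩ := exists_rat_btwn (show φ.1 a < φ.1 a + δ by linarith)
    refine ⟨(p, q), ⟨hp2, hq1⟩, fun r hr => hδu ?_⟩
    rw [Metric.mem_ball, Real.dist_eq, abs_lt]
    obtain ⟨h5, h6⟩ := hr
    simp only at h5 h6
    constructor <;> linarith
  choose J hJ1 hJ2 using h1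
  let e : Fin I.card ≃ I := (Finset.equivFin I).symm
  refine ⟨I.card, fun i => ⟨(e i).1.1, (e i).1.2⟩, fun i => J (e i), ?_, ?_⟩
  · intro i
    exact hJ1 (e i)
  · intro ψ hψ
    refine hI fun a ha => ?_
    have h7 := hψ (e.symm ⟨a, ha⟩)
    simp only [Equiv.apply_symm_apply] at h7
    exact hJ2 ⟨a, ha⟩ h7

end FinalAux

open FinalAux in
theorem pn_of_sep (h : ∀ (m : ℕ) (E : Set (Fin m → C(X, ℝ))), ClosedPt E → SepPt E) :
    PerfectlyNormalSpace {g : {f : X → ℝ // Continuous f} → ℝ // Continuous g} := by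
  classical
  apply perfectlyNormal_of_coz
  intro O hO
  have hclosed : ∀ (m : ℕ) (J : Fin m → ℚ × ℚ),
      ClosedPt {h : Fin m → C(X, ℝ) | box h J ⊆ O} := by
    intro m J g hg φ hφ
    obtain ⟨T, ε, hε, hT⟩ := exists_nhd_tuple φ.1 φ.2 g
      (fun j => Set.Ioo ((J j).1 : ℝ) ((J j).2 : ℝ)) (fun j => isOpen_Ioo) hφ
    obtain ⟨h', hh', hclose⟩ := hg T ε hε
    exact hh' (hT h' hclose)
  have hsep : ∀ (m : ℕ) (J : Fin m → ℚ × ℚ), ∃ D : Set (Fin m → C(X, ℝ)),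
      D ⊆ {h : Fin m → C(X, ℝ) | box h J ⊆ O} ∧ D.Countable ∧
      ∀ h' ∈ {h : Fin m → C(X, ℝ) | box h J ⊆ O}, ∀ T : Finset X, ∀ ε : ℝ, 0 < ε →
        ∃ d ∈ D, ∀ x ∈ T, ∀ j, |d j x - h' j x| < ε :=
    fun m J => h m _ (hclosed m J)
  choose D hD1 hD2 hD3 using hsep
  set 𝒞 : Set (Set {g : Cp X → ℝ // Continuous g}) :=
    ⋃ (m : ℕ), ⋃ (J : Fin m → ℚ × ℚ), (fun d => box d J) '' D m J with h𝒞
  have hc : 𝒞.Countable :=
    Set.countable_iUnion fun m => Set.countable_iUnion fun J => (hD2 m J).image _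
  have hcoz : ∀ U ∈ 𝒞, IsCoz U := by
    intro U hU
    simp only [h𝒞, Set.mem_iUnion, Set.mem_image] at hU
    obtain ⟨m, J, d, -, rfl⟩ := hU
    exact isCoz_box d J
  have heq : O = ⋃₀ 𝒞 := by
    apply Set.Subset.antisymm
    · intro φ hφ
      obtain ⟨m, g, J, hφg, hgO⟩ := exists_box O hO φ hφ
      obtain ⟨T, ε, hε, hT⟩ := exists_nhd_tuple φ.1 φ.2 g
        (fun j => Set.Ioo ((J j).1 : ℝ) ((J j).2 : ℝ)) (fun j => isOpen_Ioo) hφg
      obtain ⟨d, hd, hclose⟩ := hD3 m J g hgO T ε hε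
      refine Set.mem_sUnion.2 ⟨box d J, ?_, hT d hclose⟩
      simp only [h𝒞, Set.mem_iUnion, Set.mem_image]
      exact ⟨m, J, d, hd, rfl⟩
    · intro φ hφ
      obtain ⟨U, hU, hφU⟩ := Set.mem_sUnion.1 hφ
      simp only [h𝒞, Set.mem_iUnion, Set.mem_image] at hU
      obtain ⟨m, J, d, hd, rfl⟩ := hU
      exact hD1 m J hd hφU
  rw [heq]
  exact isCoz_sUnion 𝒞 hc hcoz

end Pool.Agent.CpPN
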