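import Pool.Agent.CpPN.Defs

/-! # Module LC: lacunarity of the fast growing test function on lattices -/

set_option autoImplicit false

namespace Pool.Agent.CpPN

/-- the values of `wfun` on the lattice `(2⁻ᴵ ℤ)ᵐ` -/
noncomputable def kap (I s : ℕ) : ℝ := Real.exp (Real.exp (((s : ℝ) / 4 ^ I) ^ 2))

theorem one_le_kap (I s : ℕ) : 1 ≤ kap I s :=
  Real.one_le_exp (Real.exp_pos _).le

theorem kap_strictMono (I : ℕ) : StrictMono (kap I) := by
  intro s t hst
  unfold kap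
  rw [Real.exp_lt_exp, Real.exp_lt_exp]
  have h1 : (s : ℝ) / 4 ^ I < (t : ℝ) / 4 ^ I :=
    div_lt_div_of_pos_right (by exact_mod_cast hst) (by positivity)
  exact pow_lt_pow_left₀ h1 (by positivity) two_ne_zero

theorem kap_lac (I : ℕ) (C : ℝ) : ∃ s0 : ℕ, ∀ s ≥ s0, C * kap I s ^ 4 ≤ kap I (s + 1) := by
  obtain ⟨s0, hs0⟩ := exists_nat_ge (16 ^ I * (3 + |C|))
  refine ⟨s0, fun s hs => ?_⟩
  unfold kap
  set x : ℝ := ((s : ℝ) / 4 ^ I) ^ 2 with hx
  have hx0 : 0 ≤ x := by positivity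
  have h16 : (0 : ℝ) < 16 ^ I := by positivity
  have hx' : (((s + 1 : ℕ) : ℝ) / 4 ^ I) ^ 2 = x + (2 * s + 1) / 16 ^ I := by
    have h4 : ((16 : ℝ) ^ I) = 4 ^ I * 4 ^ I := by
      rw [← mul_pow]; norm_num
    rw [hx, h4]
    push_cast
    field_simp
    ring
  have hy : 3 + |C| ≤ (2 * (s : ℝ) + 1) / 16 ^ I := by
    rw [le_div_iff₀ h16]
    have h1 : (s0 : ℝ) ≤ s := by exact_mod_cast hs
    have h2 : (0 : ℝ) ≤ s := Nat.cast_nonneg s
    nlinarith
  rw [hx']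
  set y : ℝ := (2 * (s : ℝ) + 1) / 16 ^ I with hydef
  have h1 : Real.exp x * (1 + y) ≤ Real.exp (x + y) := by
    rw [Real.exp_add]
    refine mul_le_mul_of_nonneg_left ?_ (Real.exp_pos _).le
    linarith [Real.add_one_le_exp y]
  have h2 : 1 ≤ Real.exp x := Real.one_le_exp hx0
  have h3 : |C| + 4 * Real.exp x ≤ Real.exp (x + y) := by
    have hC := abs_nonneg C
    nlinarith
  calc C * Real.exp (Real.exp x) ^ 4 ≤ Real.exp |C| * Real.exp (Real.exp x) ^ 4 := by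
        refine mul_le_mul_of_nonneg_right ?_ (by positivity)
        calc C ≤ |C| := le_abs_self C
          _ ≤ |C| + 1 := by linarith
          _ ≤ Real.exp |C| := Real.add_one_le_exp _
    _ = Real.exp (|C| + 4 * Real.exp x) := by
        rw [← Real.exp_nat_mul, ← Real.exp_add]
        norm_num
    _ ≤ Real.exp (Real.exp (x + y)) := Real.exp_le_exp.2 h3

theorem wfun_lat {m : ℕ} (I : ℕ) (z : Fin m → ℝ) (hz : ∀ j, IsLat I (z j)) :
    ∃ s : ℕ, wfun z = kap I s := by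
  choose k hk using hz
  refine ⟨∑ j, (k j).natAbs ^ 2, ?_⟩
  unfold wfun kap
  have h : ∑ j, z j ^ 2 = ((∑ j, (k j).natAbs ^ 2 : ℕ) : ℝ) / 4 ^ I := by
    push_cast
    rw [Finset.sum_div]
    refine Finset.sum_congr rfl fun j _ => ?_
    rw [hk j, div_pow]
    congr 1
    · have : ((k j).natAbs : ℝ) = |(k j : ℝ)| := by
        rw [Nat.cast_natAbs, Int.cast_abs]
      rw [this, sq_abs]
    · rw [← pow_mul, mul_comm, pow_mul]
      norm_num
  rw [h]

/-- only finitely many lattice points have bounded `wfun` -/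
theorem wfun_finite (m I : ℕ) (C : ℝ) :
    {z : Fin m → ℝ | (∀ j, IsLat I (z j)) ∧ wfun z ≤ C}.Finite := by
  obtain ⟨M, hM⟩ := exists_nat_ge (2 ^ I * (|C| + 1))
  have hfin : (Set.pi Set.univ fun _ : Fin m => Set.Icc (-(M : ℤ)) M).Finite :=
    Set.Finite.pi fun _ => Set.finite_Icc _ _
  refine (hfin.image fun k : Fin m → ℤ => fun j => (k j : ℝ) / 2 ^ I).subset ?_
  rintro z ⟨hz, hw⟩
  choose k hk using hz
  refine ⟨k, ?_, funext fun j => (hk j).symm⟩
  intro j _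
  have h1 : (∑ j, z j ^ 2) ^ 2 ≤ |C| := by
    have h2 := Real.add_one_le_exp ((∑ j, z j ^ 2) ^ 2)
    have h3 := Real.add_one_le_exp (Real.exp ((∑ j, z j ^ 2) ^ 2))
    have h4 : wfun z ≤ |C| := hw.trans (le_abs_self C)
    unfold wfun at h4
    linarith
  have h2 : z j ^ 2 ≤ ∑ j, z j ^ 2 :=
    Finset.single_le_sum (f := fun j => z j ^ 2) (fun _ _ => sq_nonneg _) (Finset.mem_univ j)
  have h3 : |z j| ≤ |C| + 1 := by
    have hC := abs_nonneg C
    have h5 : ∑ j, z j ^ 2 ≤ |C| + 1 := by nlinarith [sq_nonneg (∑ j, z j ^ 2 - 1)]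
    have h6 : |z j| ^ 2 ≤ |C| + 1 := by
      rw [sq_abs]; linarith
    nlinarith [abs_nonneg (z j)]
  have h4 : |(k j : ℝ)| ≤ M := by
    rw [hk j, abs_div, abs_of_pos (by positivity : (0 : ℝ) < 2 ^ I),
      div_le_iff₀ (by positivity)] at h3
    linarith
  have h5 : |k j| ≤ (M : ℤ) := by exact_mod_cast h4
  exact ⟨(abs_le.1 h5).1, (abs_le.1 h5).2⟩

end Pool.Agent.CpPN
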