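import Pool.Agent.CpPN.Ccc

/-! # Module LA: perfect normality of `L_p(X)` gives the countable property -/

set_option autoImplicit false

namespace Pool.Agent.CpPN

open Set Topology

variable {X : Type} [TopologicalSpace X]

namespace LemAAux

open ReprAux

/-- small values on `F₁` give small values on the span of `F₁` -/
theorem small_of_span (F₁ : Set C(X, ℝ)) (w : C(X, ℝ)) (hw : w ∈ Submodule.span ℝ F₁) :
    ∃ F : Finset C(X, ℝ), (F : Set C(X, ℝ)) ⊆ F₁ ∧ ∀ ε : ℝ, 0 < ε → ∃ δ : ℝ, 0 < δ ∧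
      ∀ c : X →₀ ℝ, (∀ s ∈ F, |pair c s| < δ) → |pair c w| < ε := by
  classical
  induction hw using Submodule.span_induction with
  | mem x hx =>
    refine ⟨{x}, by simpa using hx, fun ε hε => ⟨ε, hε, fun c hc => hc x (by simp)⟩⟩
  | zero =>
    refine ⟨∅, by simp, fun ε hε => ⟨1, one_pos, fun c _ => by simpa using hε⟩⟩
  | add x y _ _ hx hy =>
    obtain ⟨Fx, hFx, hx⟩ := hx
    obtain ⟨Fy, hFy, hy⟩ := hy
    refine ⟨Fx ∪ Fy, by rw [Finset.coe_union]; exact union_subset hFx hFy, fun ε hε => ?_⟩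
    obtain ⟨δ₁, h1, h1'⟩ := hx (ε / 2) (by linarith)
    obtain ⟨δ₂, h2, h2'⟩ := hy (ε / 2) (by linarith)
    refine ⟨min δ₁ δ₂, lt_min h1 h2, fun c hc => ?_⟩
    have e1 := h1' c fun s hs => lt_of_lt_of_le (hc s (Finset.mem_union_left _ hs)) (min_le_left _ _)
    have e2 := h2' c fun s hs => lt_of_lt_of_le (hc s (Finset.mem_union_right _ hs)) (min_le_right _ _)
    rw [pair_add_right]
    calc |pair c x + pair c y| ≤ |pair c x| + |pair c y| := abs_add_le _ _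
      _ < ε / 2 + ε / 2 := add_lt_add e1 e2
      _ = ε := by ring
  | smul r x _ hx =>
    obtain ⟨Fx, hFx, hx⟩ := hx
    refine ⟨Fx, hFx, fun ε hε => ?_⟩
    obtain ⟨δ₁, h1, h1'⟩ := hx (ε / (|r| + 1)) (by positivity)
    refine ⟨δ₁, h1, fun c hc => ?_⟩
    have e1 := h1' c hc
    rw [pair_smul_right, abs_mul]
    have hr : 0 ≤ |r| := abs_nonneg r
    calc |r| * |pair c x| ≤ |r| * (ε / (|r| + 1)) := mul_le_mul_of_nonneg_left e1.le hr
      _ < (|r| + 1) * (ε / (|r| + 1)) := by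
          apply mul_lt_mul_of_pos_right (by linarith); positivity
      _ = ε := by field_simp

/-- the decomposition lemma -/
theorem dec (S : Set C(X, ℝ)) (F₀ : Finset C(X, ℝ)) (ε₀ : ℝ) (hε₀ : 0 < ε₀) :
    ∃ F₁ : Finset C(X, ℝ), (F₁ : Set C(X, ℝ)) ⊆ S ∧ ∃ ε₁ : ℝ, 0 < ε₁ ∧
      ∀ a a' : X →₀ ℝ, a' ∈ Nb a F₁ ε₁ → ∀ F' : Finset C(X, ℝ), (F' : Set C(X, ℝ)) ⊆ S →
        ∃ a'' : X →₀ ℝ, (∀ f ∈ F', pair a'' f = pair a' f) ∧ a'' ∈ Nb a F₀ ε₀ := by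
  classical
  obtain ⟨K, hK⟩ := Submodule.exists_isCompl (Submodule.span ℝ S)
  have hdec : ∀ f : C(X, ℝ), ∃ w ∈ Submodule.span ℝ S, ∃ k ∈ K, w + k = f := by
    intro f
    have : f ∈ Submodule.span ℝ S ⊔ K := by rw [hK.sup_eq_top]; trivial
    obtain ⟨w, hw, k, hk, h⟩ := Submodule.mem_sup.1 this
    exact ⟨w, hw, k, hk, h⟩
  choose w hw k hk hwk using hdec
  choose G hGS hG using fun f => small_of_span S (w f) (hw f)
  choose δ hδ hδ' using fun f => hG f ε₀ hε₀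
  obtain ⟨ε₁, hε₁, hmin⟩ : ∃ ε₁ : ℝ, 0 < ε₁ ∧ ∀ f ∈ F₀, ε₁ ≤ δ f := by
    rcases F₀.eq_empty_or_nonempty with h | h
    · exact ⟨1, one_pos, by simp [h]⟩
    · refine ⟨F₀.inf' h δ, ?_, fun f hf => Finset.inf'_le _ hf⟩
      rw [Finset.lt_inf'_iff]
      exact fun f _ => hδ f
  refine ⟨F₀.biUnion G, ?_, ε₁, hε₁, fun a a' ha F' hF' => ?_⟩
  · intro s hs
    obtain ⟨f, _, hf⟩ := Finset.mem_biUnion.1 (Finset.mem_coe.1 hs)
    exact hGS f hf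
  obtain ⟨ψ, hψ⟩ : ∃ ψ : C(X, ℝ) →ₗ[ℝ] ℝ, ψ = LinearMap.ofIsCompl hK
      (0 : Submodule.span ℝ S →ₗ[ℝ] ℝ) ((pairL (a - a')).domRestrict K) := ⟨_, rfl⟩
  have hψN : ∀ f ∈ Submodule.span ℝ S, ψ f = 0 := by
    intro f hf
    rw [hψ]
    exact LinearMap.ofIsCompl_apply_left (h := hK) (φ := (0 : Submodule.span ℝ S →ₗ[ℝ] ℝ))
      (ψ := (pairL (a - a')).domRestrict K) ⟨f, hf⟩
  have hψK : ∀ f ∈ K, ψ f = pair (a - a') f := by
    intro f hf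
    rw [hψ]
    exact LinearMap.ofIsCompl_apply_right (h := hK) (φ := (0 : Submodule.span ℝ S →ₗ[ℝ] ℝ))
      (ψ := (pairL (a - a')).domRestrict K) ⟨f, hf⟩
  obtain ⟨e, he⟩ := exists_repr ψ (F' ∪ F₀)
  refine ⟨a' + e, fun f hf => ?_, fun f hf => ?_⟩
  · rw [pair_add_left, he f (Finset.mem_union_left _ hf),
      hψN f (Submodule.subset_span (hF' hf)), add_zero]
  · rw [pair_add_left, he f (Finset.mem_union_right _ hf)]
    have h1 : ψ f = pair (a - a') f - pair (a - a') (w f) := by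
      have hfk : f - w f = k f := sub_eq_of_eq_add' (hwk f).symm
      rw [← pair_sub_right, ← hψK (f - w f) (by rw [hfk]; exact hk f), map_sub,
        hψN _ (hw f), sub_zero]
    rw [h1, pair_sub_left a a' f]
    have h2 : pair a' f + (pair a f - pair a' f - pair (a - a') (w f)) - pair a f =
        pair (a' - a) (w f) := by
      rw [pair_sub_left, pair_sub_left]; ring
    rw [h2]
    apply hδ' f
    intro s hs
    rw [pair_sub_left]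
    exact lt_of_lt_of_le (ha s (Finset.mem_biUnion.2 ⟨f, hf, hs⟩)) (hmin f hf)

/-- closure in the weak topology -/
def clA (G : Set (X →₀ ℝ)) : Set (X →₀ ℝ) :=
  {a | ∀ F : Finset C(X, ℝ), ∀ ε : ℝ, 0 < ε → (Nb a F ε ∩ G).Nonempty}

theorem nb_open (a : X →₀ ℝ) (F : Finset C(X, ℝ)) (ε : ℝ) (b : X →₀ ℝ) (hb : b ∈ Nb a F ε) :
    ∃ δ : ℝ, 0 < δ ∧ Nb b F δ ⊆ Nb a F ε := by
  classical
  obtain ⟨δ, hδ, hmin⟩ : ∃ δ : ℝ, 0 < δ ∧ ∀ f ∈ F, δ ≤ ε - |pair b f - pair a f| := by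
    rcases F.eq_empty_or_nonempty with h | h
    · exact ⟨1, one_pos, by simp [h]⟩
    · refine ⟨F.inf' h fun f => ε - |pair b f - pair a f|, ?_, fun f hf => Finset.inf'_le _ hf⟩
      rw [Finset.lt_inf'_iff]
      exact fun f hf => sub_pos.2 (hb f hf)
  refine ⟨δ, hδ, fun c hc f hf => ?_⟩
  have h1 := hc f hf
  have h2 := hmin f hf
  calc |pair c f - pair a f| = |(pair c f - pair b f) + (pair b f - pair a f)| := by ring_nf
    _ ≤ |pair c f - pair b f| + |pair b f - pair a f| := abs_add_le _ _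
    _ < ε := by linarith

theorem nb_inter (a : X →₀ ℝ) (F F' : Finset C(X, ℝ)) (ε ε' : ℝ) [DecidableEq C(X, ℝ)] :
    Nb a (F ∪ F') (min ε ε') ⊆ Nb a F ε ∩ Nb a F' ε' := fun _ hb =>
  ⟨fun f hf => lt_of_lt_of_le (hb f (Finset.mem_union_left _ hf)) (min_le_left _ _),
    fun f hf => lt_of_lt_of_le (hb f (Finset.mem_union_right _ hf)) (min_le_right _ _)⟩

/-- the key lemma: the interior of the closure of an open set is open for countably many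
functions -/
theorem key (G : Set (X →₀ ℝ)) (hG : OpenA G) : ∃ S : Set C(X, ℝ), S.Countable ∧
    ∀ (a : X →₀ ℝ) (F₀ : Finset C(X, ℝ)) (ε₀ : ℝ), 0 < ε₀ → Nb a F₀ ε₀ ⊆ clA G →
      ∃ F₁ : Finset C(X, ℝ), (F₁ : Set C(X, ℝ)) ⊆ S ∧ ∃ ε₁ : ℝ, 0 < ε₁ ∧ Nb a F₁ ε₁ ⊆ clA G := by
  classical
  -- a maximal disjoint family of basic open subsets of `G`
  obtain ⟨𝒮, h𝒮⟩ : ∃ 𝒮 : Set (Set ((X →₀ ℝ) × Finset C(X, ℝ) × ℝ)), 𝒮 =
      {𝒟 | (∀ p ∈ 𝒟, 0 < p.2.2 ∧ Nb p.1 p.2.1 p.2.2 ⊆ G) ∧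
        𝒟.Pairwise fun p p' => Disjoint (Nb p.1 p.2.1 p.2.2) (Nb p'.1 p'.2.1 p'.2.2)} := ⟨_, rfl⟩
  obtain ⟨𝒟, h𝒟⟩ := zorn_subset 𝒮 (by
    intro c hc hchain
    refine ⟨⋃₀ c, ?_, fun s hs => subset_sUnion_of_mem hs⟩
    rw [h𝒮]
    refine ⟨?_, ?_⟩
    · rintro p ⟨s, hs, hp⟩
      have := hc hs
      rw [h𝒮] at this
      exact this.1 p hp
    · rintro p ⟨s, hs, hp⟩ p' ⟨s', hs', hp'⟩ hne
      rcases hchain.total hs hs' with h | h
      · have := hc hs'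
        rw [h𝒮] at this
        exact this.2 (h hp) hp' hne
      · have := hc hs
        rw [h𝒮] at this
        exact this.2 hp (h hp') hne)
  have hmem : 𝒟 ∈ 𝒮 := h𝒟.prop
  have hmem' := hmem
  rw [h𝒮] at hmem'
  obtain ⟨hD1, hD2⟩ := hmem'
  have hcount : Countable 𝒟 := by
    refine nb_ccc (fun p : 𝒟 => p.1.1) (fun p => p.1.2.1) (fun p => p.1.2.2)
      (fun p => (hD1 p.1 p.2).1) ?_
    intro p p' hne
    exact hD2 p.2 p'.2 fun h => hne (Subtype.ext h)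
  have hmax : ∀ (a : X →₀ ℝ) (F : Finset C(X, ℝ)) (ε : ℝ), 0 < ε → Nb a F ε ⊆ G →
      ∃ p ∈ 𝒟, (Nb a F ε ∩ Nb p.1 p.2.1 p.2.2).Nonempty := by
    intro a F ε hε hsub
    by_contra hcon
    have hcon' : ∀ p ∈ 𝒟, Disjoint (Nb a F ε) (Nb p.1 p.2.1 p.2.2) := by
      intro p hp
      rw [Set.disjoint_iff_inter_eq_empty, ← Set.not_nonempty_iff_eq_empty]
      exact fun h => hcon ⟨p, hp, h⟩
    have hins : insert (a, F, ε) 𝒟 ∈ 𝒮 := by
      rw [h𝒮]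
      refine ⟨?_, ?_⟩
      · rintro p (rfl | hp)
        · exact ⟨hε, hsub⟩
        · exact hD1 p hp
      · apply Set.Pairwise.insert hD2
        intro p hp _
        exact ⟨hcon' p hp, (hcon' p hp).symm⟩
    have h1 := h𝒟.eq_of_subset hins (Set.subset_insert _ _)
    have h2 : (a, F, ε) ∈ 𝒟 := by rw [h1]; exact Set.mem_insert _ _
    have h3 := hcon' _ h2
    rw [Set.disjoint_iff] at h3
    exact h3 ⟨self_mem_Nb a F hε, self_mem_Nb a F hε⟩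
  obtain ⟨U, hU⟩ : ∃ U : Set (X →₀ ℝ), U = ⋃ p ∈ 𝒟, Nb p.1 p.2.1 p.2.2 := ⟨_, rfl⟩
  have hUG : U ⊆ G := by
    rw [hU]
    exact iUnion₂_subset fun p hp => (hD1 p hp).2
  have hcl : ∀ a ∈ clA G, a ∈ clA U := by
    intro a ha F ε hε
    obtain ⟨b, hb1, hb2⟩ := ha F ε hε
    obtain ⟨F', ε', hε', hsub⟩ := hG b hb2
    obtain ⟨δ, hδ, hδ'⟩ := nb_open a F ε b hb1
    obtain ⟨p, hp, c, hc1, hc2⟩ := hmax b (F ∪ F') (min δ ε') (lt_min hδ hε')
      (fun c hc => hsub (nb_inter b F F' δ ε' hc).2)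
    refine ⟨c, hδ' (nb_inter b F F' δ ε' hc1).1, ?_⟩
    rw [hU]
    exact mem_iUnion₂.2 ⟨p, hp, hc2⟩
  have hcl' : ∀ a ∈ clA U, a ∈ clA G := fun a ha F ε hε =>
    (ha F ε hε).mono (inter_subset_inter_right _ hUG)
  obtain ⟨S, hS⟩ : ∃ S : Set C(X, ℝ), S = ⋃ p ∈ 𝒟, (p.2.1 : Set C(X, ℝ)) := ⟨_, rfl⟩
  have hSsub : ∀ p ∈ 𝒟, (p.2.1 : Set C(X, ℝ)) ⊆ S := by
    intro p hp
    rw [hS]
    exact subset_biUnion_of_mem (u := fun p : (X →₀ ℝ) × Finset C(X, ℝ) × ℝ =>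
      (p.2.1 : Set C(X, ℝ))) hp
  refine ⟨S, ?_, fun a F₀ ε₀ hε₀ hsub => ?_⟩
  · rw [hS]
    exact (Set.countable_coe_iff.1 hcount).biUnion fun p _ => Finset.countable_toSet _
  obtain ⟨F₁, hF₁, ε₁, hε₁, hdec⟩ := dec S F₀ ε₀ hε₀
  refine ⟨F₁, hF₁, ε₁, hε₁, fun a' ha' => ?_⟩
  apply hcl'
  by_contra hnot
  have hnot' : ∃ F : Finset C(X, ℝ), ∃ ε : ℝ, 0 < ε ∧ ¬ (Nb a' F ε ∩ U).Nonempty := by
    by_contra h
    push Not at h
    exact hnot fun F ε hε => h F ε hε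
  obtain ⟨F₂, ε₂, hε₂, hF₂⟩ := hnot'
  obtain ⟨F₃, hF₃, ε₃, hε₃, hdec3⟩ := dec S F₂ ε₂ hε₂
  have hF₃' : ¬ (Nb a' F₃ ε₃ ∩ U).Nonempty := by
    rintro ⟨b, hb1, hb2⟩
    rw [hU] at hb2
    obtain ⟨p, hp, hb2⟩ := mem_iUnion₂.1 hb2
    obtain ⟨b'', h1, h2⟩ := hdec3 a' b hb1 p.2.1 (hSsub p hp)
    apply hF₂
    refine ⟨b'', h2, ?_⟩
    rw [hU]
    refine mem_iUnion₂.2 ⟨p, hp, fun f hf => ?_⟩
    rw [h1 f hf]
    exact hb2 f hf
  obtain ⟨a'', h1, h2⟩ := hdec a a' ha' F₃ hF₃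
  obtain ⟨c, hc1, hc2⟩ := hcl a'' (hsub h2) F₃ ε₃ hε₃
  apply hF₃'
  refine ⟨c, fun f hf => ?_, hc2⟩
  rw [← h1 f hf]
  exact hc1 f hf

/-- the canonical map onto `L_p(X)` -/
noncomputable def ev (a : X →₀ ℝ) : Lp X :=
  ⟨fun f => pair a ⟨f.1, f.2⟩, by
    have h : (fun f : {f : X → ℝ // Continuous f} => pair a ⟨f.1, f.2⟩) =
        ∑ x ∈ a.support, a x • fun f : {f : X → ℝ // Continuous f} => f.1 x := by
      funext f
      rw [pair_eq_sum a _ (Finset.Subset.refl _), Finset.sum_apply]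
      rfl
    rw [h]
    exact Submodule.sum_mem _ fun x _ =>
      Submodule.smul_mem _ _ (Submodule.subset_span ⟨x, rfl⟩)⟩

theorem ev_apply (a : X →₀ ℝ) (f : {f : X → ℝ // Continuous f}) :
    (ev a).1 f = pair a ⟨f.1, f.2⟩ := rfl

theorem ev_surjective : Function.Surjective (ev (X := X)) := by
  rintro ⟨l, hl⟩
  have : ∃ a : X →₀ ℝ, ∀ f : {f : X → ℝ // Continuous f}, l f = pair a ⟨f.1, f.2⟩ := by
    induction hl using Submodule.span_induction with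
    | mem l hl =>
      obtain ⟨x, rfl⟩ := hl
      exact ⟨Finsupp.single x 1, fun f => by simp⟩
    | zero => exact ⟨0, fun f => by simp⟩
    | add l l' _ _ h1 h2 =>
      obtain ⟨a, ha⟩ := h1
      obtain ⟨b, hb⟩ := h2
      exact ⟨a + b, fun f => by rw [pair_add_left, Pi.add_apply, ha, hb]⟩
    | smul c l _ h =>
      obtain ⟨a, ha⟩ := h
      exact ⟨c • a, fun f => by rw [pair_smul_left, Pi.smul_apply, ha, smul_eq_mul]⟩
  obtain ⟨a, ha⟩ := this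
  exact ⟨a, Subtype.ext (funext fun f => (ha f).symm)⟩

theorem openA_of_isOpen {U : Set (Lp X)} (hU : IsOpen U) : OpenA (ev ⁻¹' U) := by
  classical
  intro a ha
  obtain ⟨V, hV, rfl⟩ := isOpen_induced_iff.1 hU
  obtain ⟨I, u, hu, hsub⟩ := isOpen_pi_iff.1 hV (ev a).1 ha
  have hball : ∀ f : {f : X → ℝ // Continuous f}, ∃ δ : ℝ, 0 < δ ∧
      (f ∈ I → ∀ r : ℝ, |r - pair a ⟨f.1, f.2⟩| < δ → r ∈ u f) := by
    intro f
    by_cases hf : f ∈ I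
    · obtain ⟨h1, h2⟩ := hu f hf
      obtain ⟨δ, hδ, hδ'⟩ := Metric.isOpen_iff.1 h1 _ h2
      exact ⟨δ, hδ, fun _ r hr => hδ' (by rw [Metric.mem_ball, Real.dist_eq]; exact hr)⟩
    · exact ⟨1, one_pos, fun h => absurd h hf⟩
  choose δ hδ hδ' using hball
  obtain ⟨ε, hε, hmin⟩ : ∃ ε : ℝ, 0 < ε ∧ ∀ f ∈ I, ε ≤ δ f := by
    rcases I.eq_empty_or_nonempty with h | h
    · exact ⟨1, one_pos, by simp [h]⟩
    · refine ⟨I.inf' h δ, ?_, fun f hf => Finset.inf'_le _ hf⟩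
      rw [Finset.lt_inf'_iff]
      exact fun f _ => hδ f
  refine ⟨I.image fun f => (⟨f.1, f.2⟩ : C(X, ℝ)), ε, hε, fun b hb => ?_⟩
  apply hsub
  intro f hf
  have h1 := hb ⟨f.1, f.2⟩ (Finset.mem_image.2 ⟨f, hf, rfl⟩)
  exact hδ' f hf _ (lt_of_lt_of_le h1 (hmin f hf))

theorem isOpen_image {O : Set (X →₀ ℝ)} (hO : OpenA O) : IsOpen (ev '' O) := by
  classical
  rw [isOpen_iff_mem_nhds]
  rintro _ ⟨a, ha, rfl⟩
  obtain ⟨F, ε, hε, hsub⟩ := hO a ha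
  have hN : {l : Lp X | ∀ f ∈ F, |l.1 ⟨f, f.continuous⟩ - pair a f| < ε} ∈ 𝓝 (ev a) := by
    have h1 : IsOpen {l : Lp X | ∀ f ∈ F, |l.1 ⟨f, f.continuous⟩ - pair a f| < ε} := by
      have h2 : {l : Lp X | ∀ f ∈ F, |l.1 ⟨f, f.continuous⟩ - pair a f| < ε} =
          ⋂ f ∈ F, {l : Lp X | |l.1 ⟨f, f.continuous⟩ - pair a f| < ε} := by
        ext l; simp
      rw [h2]
      refine isOpen_biInter_finset fun f _ => ?_
      refine isOpen_lt ?_ continuous_const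
      exact continuous_abs.comp
        (((continuous_apply _).comp continuous_subtype_val).sub continuous_const)
    exact h1.mem_nhds fun f _ => by
      have h3 : (ev a).1 ⟨f, f.continuous⟩ = pair a f :=
        ev_apply a ⟨f, f.continuous⟩
      rw [h3, sub_self, abs_zero]
      exact hε
  refine Filter.mem_of_superset hN fun l hl => ?_
  obtain ⟨b, rfl⟩ := ev_surjective l
  exact ⟨b, hsub fun f hf => hl f hf, rfl⟩

theorem preimage_image {O : Set (X →₀ ℝ)} (hO : OpenA O) : ev ⁻¹' (ev '' O) = O := by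
  apply Set.Subset.antisymm _ (subset_preimage_image _ _)
  rintro b ⟨a, ha, hab⟩
  obtain ⟨F, ε, hε, hsub⟩ := hO a ha
  apply hsub
  intro f _
  have := congrFun (congrArg Subtype.val hab) ⟨f, f.continuous⟩
  rw [ev_apply, ev_apply] at this
  have h2 : pair b f = pair a f := this.symm
  rw [h2]
  simpa using hε

end LemAAux

open LemAAux

theorem countProp_of_pn (h : PerfectlyNormalSpace (Lp X)) : CountProp X := by
  intro O hO
  have hO' := isOpen_image hO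
  obtain ⟨f, hf, hfO⟩ := isGδ_iff_eq_iInter_nat.1 (h.closed_gdelta hO'.isClosed_compl)
  have hsub : ∀ n, (f n)ᶜ ⊆ ev '' O := by
    intro n l hl
    by_contra hnot
    have : l ∈ (ev '' O)ᶜ := hnot
    rw [hfO] at this
    exact hl (mem_iInter.1 this n)
  have hnorm : ∀ n, ∃ G : Set (Lp X), IsOpen G ∧ (f n)ᶜ ⊆ G ∧ closure G ⊆ ev '' O := fun n =>
    normal_exists_closure_subset (hf n).isClosed_compl hO' (hsub n)
  choose G hG1 hG2 hG3 using hnorm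
  choose S hS1 hS2 using fun n => key (ev ⁻¹' G n) (openA_of_isOpen (hG1 n))
  refine ⟨⋃ n, S n, countable_iUnion hS1, fun a ha => ?_⟩
  obtain ⟨n, hn⟩ : ∃ n, ev a ∈ (f n)ᶜ := by
    by_contra hcon
    push Not at hcon
    have : ev a ∈ (ev '' O)ᶜ := by
      rw [hfO]
      exact mem_iInter.2 fun n => by
        have := hcon n
        rwa [Set.notMem_compl_iff] at this
    exact this ⟨a, ha, rfl⟩
  obtain ⟨F₀, ε₀, hε₀, h0⟩ := openA_of_isOpen (hG1 n) a (hG2 n hn)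
  have hclsub : ∀ b ∈ ev ⁻¹' G n, b ∈ clA (ev ⁻¹' G n) := fun b hb F ε hε =>
    ⟨b, self_mem_Nb b F hε, hb⟩
  obtain ⟨F₁, hF₁, ε₁, hε₁, h1⟩ := hS2 n a F₀ ε₀ hε₀ (h0.trans hclsub)
  refine ⟨F₁, hF₁.trans (subset_iUnion S n), ε₁, hε₁, h1.trans ?_⟩
  intro b hb
  have hb' : ev b ∈ closure (G n) := by
    rw [mem_closure_iff]
    intro U hU hbU
    obtain ⟨F, ε, hε, hFU⟩ := openA_of_isOpen hU b hbU
    obtain ⟨c, hc1, hc2⟩ := hb F ε hε
    exact ⟨ev c, hFU hc1, hc2⟩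
  have h3 : b ∈ ev ⁻¹' (ev '' O) := hG3 n hb'
  rwa [preimage_image hO] at h3

end Pool.Agent.CpPN
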