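import Pool.Agent.CpPN.MainStep

/-! # Module MP: separability of lattice valued, sequence determined families -/

set_option autoImplicit false

namespace Pool.Agent.CpPN

open Set Topology

variable {X : Type} [TopologicalSpace X]

namespace MainPropAux

/-! ### the combinatorial core -/

theorem combi {Y E : Type} (T : Finset Y) (idx : Y → ℕ) (hidx : Set.InjOn idx (T : Set Y))
    {N : ℕ} (zf : Fin N → E) (hzf : Function.Injective zf) (z : Y → E)
    (hz : ∀ t ∈ T, ∃ k, zf k = z t) (p : Fin N → Y → ℝ) (hp0 : ∀ k t, 0 ≤ p k t)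
    (hp1 : ∀ k t, p k t ≤ 1) (huniq : ∀ t k k', p k t ≠ 0 → p k' t ≠ 0 → k = k')
    (ε : ℝ) (hε : 0 < ε) (hεN : 2 * ε * N ≤ 1 / 4)
    (hq : ∀ k, |∑ t ∈ T, (2 : ℝ) ^ idx t * p k t
      - ∑ t ∈ T, (2 : ℝ) ^ idx t * (by classical exact if z t = zf k then (1 : ℝ) else 0)| < 2 * ε) :
    ∀ t ∈ T, ∀ k, zf k = z t → 0 < p k t := by
  classical
  set w : Y → ℝ := fun t => (2 : ℝ) ^ idx t with hw
  have hw1 : ∀ t, 1 ≤ w t := fun t => one_le_pow₀ (by norm_num)
  set def' : Y → ℝ := fun t => 1 - ∑ k, p k t with hdef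
  have hsumone : ∀ t k, p k t ≠ 0 → ∑ k', p k' t = p k t := by
    intro t k hk
    refine Finset.sum_eq_single k (fun k' _ hk' => ?_) (fun h => absurd (Finset.mem_univ k) h)
    by_contra hcon
    exact hk' (huniq t k' k hcon hk)
  have hdef0 : ∀ t, 0 ≤ def' t := by
    intro t
    by_cases hex : ∃ k, p k t ≠ 0
    · obtain ⟨k, hk⟩ := hex
      simp only [hdef]
      rw [hsumone t k hk]
      linarith [hp1 k t]
    · push Not at hex
      simp only [hdef]
      rw [Finset.sum_eq_zero fun k _ => hex k]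
      norm_num
  have hcls : ∑ k, ∑ t ∈ T, w t * (if z t = zf k then (1 : ℝ) else 0) = ∑ t ∈ T, w t := by
    rw [Finset.sum_comm]
    refine Finset.sum_congr rfl fun t ht => ?_
    obtain ⟨k0, hk0⟩ := hz t ht
    rw [Finset.sum_eq_single k0]
    · rw [if_pos hk0.symm, mul_one]
    · intro k _ hk
      rw [if_neg, mul_zero]
      intro hc
      exact hk (hzf (by rw [← hc, hk0]))
    · intro h
      exact absurd (Finset.mem_univ k0) h
  have htot : ∑ t ∈ T, w t * def' t ≤ 1 / 4 := by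
    have e : ∑ t ∈ T, w t * def' t
        = ∑ k, (∑ t ∈ T, w t * (if z t = zf k then (1 : ℝ) else 0) - ∑ t ∈ T, w t * p k t) := by
      rw [Finset.sum_sub_distrib, hcls, Finset.sum_comm (s := Finset.univ), ← Finset.sum_sub_distrib]
      refine Finset.sum_congr rfl fun t _ => ?_
      simp only [hdef]
      rw [mul_sub, mul_one, Finset.mul_sum]
    rw [e]
    calc ∑ k, (∑ t ∈ T, w t * (if z t = zf k then (1 : ℝ) else 0) - ∑ t ∈ T, w t * p k t)
        ≤ ∑ _k : Fin N, 2 * ε := by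
          refine Finset.sum_le_sum fun k _ => ?_
          have := (abs_lt.1 (hq k)).1
          linarith
      _ = 2 * ε * N := by rw [Finset.sum_const, Finset.card_univ, Fintype.card_fin, nsmul_eq_mul]; ring
      _ ≤ 1 / 4 := hεN
  have hdt : ∀ t ∈ T, def' t ≤ 1 / 4 := by
    intro t ht
    have h1 : w t * def' t ≤ ∑ t ∈ T, w t * def' t :=
      Finset.single_le_sum (f := fun t => w t * def' t)
        (fun t _ => mul_nonneg (le_trans zero_le_one (hw1 t)) (hdef0 t)) ht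
    have h2 : def' t ≤ w t * def' t := by nlinarith [hw1 t, hdef0 t]
    linarith
  intro t ht k hk
  have hN1 : (1 : ℝ) ≤ N := by
    have : 0 < N := k.pos
    exact_mod_cast this
  set A : Finset Y := T.filter fun t => p k t ≠ 0 with hA
  set B : Finset Y := T.filter fun t => z t = zf k with hB
  have hAB1 : 0 ≤ ∑ t ∈ A, w t - ∑ t ∈ T, w t * p k t ∧
      ∑ t ∈ A, w t - ∑ t ∈ T, w t * p k t ≤ 1 / 4 := by
    have e1 : ∑ t ∈ T, w t * p k t = ∑ t ∈ A, w t * p k t := by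
      rw [hA, Finset.sum_filter]
      refine Finset.sum_congr rfl fun t _ => ?_
      by_cases h0 : p k t = 0
      · simp [h0]
      · simp [h0]
    have e2 : ∑ t ∈ A, w t - ∑ t ∈ T, w t * p k t = ∑ t ∈ A, w t * def' t := by
      rw [e1, ← Finset.sum_sub_distrib]
      refine Finset.sum_congr rfl fun t ht' => ?_
      simp only [hdef]
      rw [hsumone t k (Finset.mem_filter.1 ht').2]
      ring
    rw [e2]
    constructor
    · exact Finset.sum_nonneg fun t _ => mul_nonneg (le_trans zero_le_one (hw1 t)) (hdef0 t)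
    · exact (Finset.sum_le_sum_of_subset_of_nonneg (Finset.filter_subset _ _)
        fun t _ _ => mul_nonneg (le_trans zero_le_one (hw1 t)) (hdef0 t)).trans htot
  have hB2 : ∑ t ∈ T, w t * (if z t = zf k then (1 : ℝ) else 0) = ∑ t ∈ B, w t := by
    rw [hB, Finset.sum_filter]
    refine Finset.sum_congr rfl fun t _ => ?_
    split_ifs <;> simp
  have hq' : |∑ t ∈ T, w t * p k t - ∑ t ∈ B, w t| < 2 * ε := by
    rw [← hB2]
    exact hq k
  have h2e : 2 * ε ≤ 1 / 4 := by nlinarith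
  have hint : ∑ t ∈ A, 2 ^ idx t = ∑ t ∈ B, 2 ^ idx t := by
    have hA' : ∑ t ∈ A, w t = ((∑ t ∈ A, 2 ^ idx t : ℕ) : ℝ) := by push_cast; rfl
    have hB' : ∑ t ∈ B, w t = ((∑ t ∈ B, 2 ^ idx t : ℕ) : ℝ) := by push_cast; rfl
    rw [hB'] at hq'
    rw [hA'] at hAB1
    obtain ⟨h3, h4⟩ := abs_lt.1 hq'
    have h5 : ((∑ t ∈ A, 2 ^ idx t : ℕ) : ℝ) < ((∑ t ∈ B, 2 ^ idx t : ℕ) : ℝ) + 1 := by
      linarith [hAB1.2]
    have h6 : ((∑ t ∈ B, 2 ^ idx t : ℕ) : ℝ) < ((∑ t ∈ A, 2 ^ idx t : ℕ) : ℝ) + 1 := by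
      linarith [hAB1.1]
    have h5' : ∑ t ∈ A, 2 ^ idx t < ∑ t ∈ B, 2 ^ idx t + 1 := by exact_mod_cast h5
    have h6' : ∑ t ∈ B, 2 ^ idx t < ∑ t ∈ A, 2 ^ idx t + 1 := by exact_mod_cast h6
    omega
  have himg : A.image idx = B.image idx := by
    refine Finset.geomSum_injective (n := 2) le_rfl ?_
    show ∑ i ∈ A.image idx, 2 ^ i = ∑ i ∈ B.image idx, 2 ^ i
    rw [Finset.sum_image, Finset.sum_image, hint]
    · intro a ha b hb hab
      exact hidx (Finset.mem_of_mem_filter a ha) (Finset.mem_of_mem_filter b hb) hab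
    · intro a ha b hb hab
      exact hidx (Finset.mem_of_mem_filter a ha) (Finset.mem_of_mem_filter b hb) hab
  have htB : t ∈ B := Finset.mem_filter.2 ⟨ht, hk.symm⟩
  have htA : idx t ∈ A.image idx := by
    rw [himg]
    exact Finset.mem_image_of_mem _ htB
  obtain ⟨t', ht', htt⟩ := Finset.mem_image.1 htA
  have : t' = t := hidx (Finset.mem_of_mem_filter t' ht') ht htt
  subst this
  exact lt_of_le_of_ne (hp0 k t') (Ne.symm (Finset.mem_filter.1 ht').2)

/-! ### the test functions -/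

/-- the tent function with centre `c` and radius `r` -/
noncomputable def tent {m : ℕ} (c : Fin m → ℝ) (r : ℝ) : C(Fin m → ℝ, ℝ) :=
  ⟨fun z => max 0 (min 1 (2 - 2 * ‖z - c‖ / r)), by fun_prop⟩

theorem tent_apply {m : ℕ} (c : Fin m → ℝ) (r : ℝ) (z : Fin m → ℝ) :
    tent c r z = max 0 (min 1 (2 - 2 * ‖z - c‖ / r)) := rfl

theorem tent_nonneg {m : ℕ} (c : Fin m → ℝ) (r : ℝ) (z : Fin m → ℝ) : 0 ≤ tent c r z :=
  le_max_left _ _

theorem tent_le_one {m : ℕ} (c : Fin m → ℝ) (r : ℝ) (z : Fin m → ℝ) : tent c r z ≤ 1 :=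
  max_le zero_le_one (min_le_left _ _)

theorem tent_one {m : ℕ} {c : Fin m → ℝ} {r : ℝ} {z : Fin m → ℝ} (hr : 0 < r)
    (h : ‖z - c‖ ≤ r / 2) : tent c r z = 1 := by
  rw [tent_apply]
  have : 2 * ‖z - c‖ / r ≤ 1 := by
    rw [div_le_one hr]
    linarith
  rw [min_eq_left (by linarith), max_eq_right zero_le_one]

theorem tent_ne {m : ℕ} {c : Fin m → ℝ} {r : ℝ} {z : Fin m → ℝ} (hr : 0 < r)
    (h : tent c r z ≠ 0) : ‖z - c‖ < r := by
  by_contra hcon
  push Not at hcon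
  apply h
  rw [tent_apply]
  have : 2 ≤ 2 * ‖z - c‖ / r := by
    rw [le_div_iff₀ hr]
    linarith
  rw [max_eq_left]
  exact (min_le_right _ _).trans (by linarith)

/-- the finitely many test functions of an element -/
noncomputable def gfun {m r : ℕ} (P : Fin r → C(Fin m → ℝ, ℝ)) (f : Fin m → C(X, ℝ)) :
    Fin m ⊕ Fin r ⊕ Unit → C(X, ℝ) :=
  Sum.elim f (Sum.elim (fun k => cmp (P k) f) fun _ => cmp (wC m) f)

/-- the open sets used with the countability hypothesis -/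
def Oset {m r : ℕ} (𝓗 : Set (Fin m → C(X, ℝ))) (P : Fin r → C(Fin m → ℝ, ℝ))
    (v : Fin m ⊕ Fin r ⊕ Unit → ℝ) (ε : ℝ) : Set (X →₀ ℝ) :=
  {a | ∃ f ∈ 𝓗, ∀ i, |pair a (gfun P f i) - v i| < ε}

theorem openA_Oset {m r : ℕ} (𝓗 : Set (Fin m → C(X, ℝ))) (P : Fin r → C(Fin m → ℝ, ℝ))
    (v : Fin m ⊕ Fin r ⊕ Unit → ℝ) (ε : ℝ) : OpenA (Oset 𝓗 P v ε) := by
  classical
  rintro a ⟨f, hf, hfa⟩
  obtain ⟨i0, hi0⟩ := Finite.exists_min (fun i : Fin m ⊕ Fin r ⊕ Unit =>
    ε - |pair a (gfun P f i) - v i|)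
  refine ⟨Finset.univ.image (gfun P f), ε - |pair a (gfun P f i0) - v i0|, ?_, ?_⟩
  · linarith [hfa i0]
  · intro b hb
    refine ⟨f, hf, fun i => ?_⟩
    have h1 := hb (gfun P f i) (Finset.mem_image_of_mem _ (Finset.mem_univ i))
    have h2 := hi0 i
    calc |pair b (gfun P f i) - v i|
        = |(pair b (gfun P f i) - pair a (gfun P f i)) + (pair a (gfun P f i) - v i)| := by
          congr 1; ring
      _ ≤ |pair b (gfun P f i) - pair a (gfun P f i)| + |pair a (gfun P f i) - v i| :=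
          abs_add_le _ _
      _ < ε := by linarith

/-! ### finite dimensional families are separable -/

/-- linear combinations -/
noncomputable def Phi {S : Set C(X, ℝ)} {m : ℕ} (F : Finset ↥S) (c : Fin m → F → ℝ) :
    Fin m → C(X, ℝ) := fun j => ∑ f : F, c j f • ((f : ↥S) : C(X, ℝ))

theorem Phi_apply {S : Set C(X, ℝ)} {m : ℕ} (F : Finset ↥S) (c : Fin m → F → ℝ) (j : Fin m)
    (x : X) : Phi F c j x = ∑ f : F, c j f * ((f : ↥S) : C(X, ℝ)) x := by
  simp [Phi, ContinuousMap.sum_apply]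

theorem exists_dense {S : Set C(X, ℝ)} {m : ℕ} (𝓗 : Set (Fin m → C(X, ℝ))) (F : Finset ↥S) :
    ∃ D : Set (Fin m → C(X, ℝ)), D ⊆ 𝓗 ∧ D.Countable ∧ ∀ c : Fin m → F → ℝ, Phi F c ∈ 𝓗 →
      ∀ T : Finset X, ∀ ε : ℝ, 0 < ε → ∃ d ∈ D, ∀ x ∈ T, ∀ j, |d j x - Phi F c j x| < ε := by
  set A : Set (Fin m → F → ℝ) := {c | Phi F c ∈ 𝓗} with hA
  obtain ⟨t, htc, htd⟩ := TopologicalSpace.exists_countable_dense ↥A
  refine ⟨(fun c : ↥A => Phi F c.1) '' t, ?_, htc.image _, ?_⟩
  · rintro _ ⟨c, -, rfl⟩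
    exact c.2
  · intro c hc T ε hε
    have hopen : IsOpen {c' : ↥A | ∀ x ∈ T, ∀ j, |Phi F c'.1 j x - Phi F c j x| < ε} := by
      have e : {c' : ↥A | ∀ x ∈ T, ∀ j, |Phi F c'.1 j x - Phi F c j x| < ε}
          = ⋂ x ∈ T, ⋂ j, {c' : ↥A | |Phi F c'.1 j x - Phi F c j x| < ε} := by
        ext c'
        simp
      rw [e]
      refine isOpen_biInter_finset fun x _ => isOpen_iInter_of_finite fun j => ?_
      refine isOpen_lt ?_ continuous_const
      simp only [Phi_apply]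
      refine continuous_abs.comp (Continuous.sub ?_ continuous_const)
      refine continuous_finset_sum _ fun f _ => ?_
      have hc1 : Continuous fun c' : ↥A => c'.1 j := (continuous_apply j).comp continuous_subtype_val
      exact ((continuous_apply f).comp hc1).mul continuous_const
    obtain ⟨c', hc't, hc'⟩ := htd.exists_mem_open hopen ⟨⟨c, hc⟩, by
      intro x _ j
      simpa using hε⟩
    exact ⟨_, ⟨c', hc't, rfl⟩, hc'⟩

theorem exists_gap {E : Type} [MetricSpace E] (Z : Finset E) :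
    ∃ ρ : ℝ, 0 < ρ ∧ ∀ z ∈ Z, ∀ z' ∈ Z, z ≠ z' → ρ ≤ dist z z' := by
  classical
  by_cases hne : Z.offDiag.Nonempty
  · obtain ⟨q, hq, hmin⟩ := Finset.exists_min_image _ (fun q : E × E => dist q.1 q.2) hne
    refine ⟨dist q.1 q.2, dist_pos.2 (Finset.mem_offDiag.1 hq).2.2, fun z hz z' hz' hzz => ?_⟩
    exact hmin (z, z') (Finset.mem_offDiag.2 ⟨hz, hz', hzz⟩)
  · refine ⟨1, one_pos, fun z hz z' hz' hzz => ?_⟩
    exact absurd ⟨(z, z'), Finset.mem_offDiag.2 ⟨hz, hz', hzz⟩⟩ hne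

/-- parameters of the countable family of open sets -/
abbrev Par (m : ℕ) : Type :=
  Σ N : ℕ, (Fin N → (Fin m → ℚ) × ℚ) × (Fin m ⊕ Fin N ⊕ Unit → ℚ) × ℚ

/-- the tents of a parameter -/
noncomputable def ParP {m : ℕ} (π : Par m) (k : Fin π.1) : C(Fin m → ℝ, ℝ) :=
  tent (fun j => ((π.2.1 k).1 j : ℝ)) ((π.2.1 k).2 : ℝ)

end MainPropAux

open MainPropAux

theorem mainProp (h : CountProp X) {m : ℕ} (y : ℕ → X) (hy : DenseRange y)
    (𝓗 : Set (Fin m → C(X, ℝ)))
    (hlat : ∀ f ∈ 𝓗, ∀ i j, IsLat i (f j (y i)))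
    (hdet : ∀ f : Fin m → C(X, ℝ),
      (∀ n : ℕ, ∃ g ∈ 𝓗, ∀ i ≤ n, ∀ j, g j (y i) = f j (y i)) → f ∈ 𝓗) :
    SepPt 𝓗 := by
  classical
  choose S hSc hSo using fun π : Par m =>
    h (Oset 𝓗 (ParP π) (fun i => (π.2.2.1 i : ℝ)) (π.2.2.2 : ℝ))
      (openA_Oset 𝓗 (ParP π) (fun i => (π.2.2.1 i : ℝ)) (π.2.2.2 : ℝ))
  have hSSc : (⋃ π, S π).Countable := Set.countable_iUnion hSc
  set SS : Set C(X, ℝ) := ⋃ π, S π with hSS
  haveI : Countable ↥SS := hSSc.to_subtype
  choose D hDH hDc hDd using fun F : Finset ↥SS => exists_dense 𝓗 F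
  refine ⟨⋃ F, D F, Set.iUnion_subset hDH, Set.countable_iUnion hDc,
    fun g hg T ε0 hε0 => ?_⟩
  -- the values
  set z : X → (Fin m → ℝ) := fun t j => g j t with hz
  set Z : Finset (Fin m → ℝ) := T.image z with hZ
  obtain ⟨ρ, hρ, hρZ⟩ := exists_gap Z
  obtain ⟨r, hr0, hr1⟩ : ∃ r : ℚ, (0 : ℝ) < r ∧ (r : ℝ) < min (ε0 / 4) (ρ / 4) :=
    exists_rat_btwn (lt_min (by positivity) (by positivity))
  have hrε : (r : ℝ) < ε0 / 4 := hr1.trans_le (min_le_left _ _)
  have hrρ : (r : ℝ) < ρ / 4 := hr1.trans_le (min_le_right _ _)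
  set N : ℕ := Z.card with hN
  set zf : Fin N → (Fin m → ℝ) := fun k => (Z.equivFin.symm k : Fin m → ℝ) with hzf
  have hzfinj : Function.Injective zf := fun a b hab =>
    Z.equivFin.symm.injective (Subtype.ext hab)
  have hzfmem : ∀ k, zf k ∈ Z := fun k => (Z.equivFin.symm k).2
  have hzT : ∀ t ∈ T, ∃ k, zf k = z t := by
    intro t ht
    refine ⟨Z.equivFin ⟨z t, Finset.mem_image_of_mem z ht⟩, ?_⟩
    simp [hzf]
  have hcent : ∀ k, ∃ c : Fin m → ℚ, ‖zf k - fun j => (c j : ℝ)‖ < (r : ℝ) / 2 := by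
    intro k
    choose c hc using fun j => exists_rat_near (zf k j) (show (0 : ℝ) < (r : ℝ) / 2 by positivity)
    refine ⟨c, (pi_norm_lt_iff (by positivity)).2 fun j => ?_⟩
    rw [Pi.sub_apply, Real.norm_eq_abs]
    exact hc j
  choose c hc using hcent
  obtain ⟨idx, hidx⟩ := Set.countable_iff_exists_injOn.1 (T.countable_toSet)
  set a0 : X →₀ ℝ := ∑ t ∈ T, Finsupp.single t ((2 : ℝ) ^ idx t) with ha0
  have hpair : ∀ f : C(X, ℝ), pair a0 f = ∑ t ∈ T, (2 : ℝ) ^ idx t * f t := by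
    intro f
    rw [ha0, pair_sum_left]
    exact Finset.sum_congr rfl fun t _ => pair_single _ _ _
  have ha00 : ∀ x, 0 ≤ a0 x := by
    intro x
    rw [ha0, Finsupp.finset_sum_apply]
    refine Finset.sum_nonneg fun t _ => ?_
    rw [Finsupp.single_apply]
    split_ifs <;> positivity
  set n : ℕ := T.card with hn
  have hNn : N ≤ n := Finset.card_image_le
  -- parameters
  set ε : ℚ := 1 / (8 * (n + 1)) with hε
  have hε0' : (0 : ℚ) < ε := by positivity
  have hεR : ((ε : ℚ) : ℝ) = 1 / (8 * ((n : ℝ) + 1)) := by rw [hε]; push_cast; ring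
  have hεp : (0 : ℝ) < (ε : ℝ) := by exact_mod_cast hε0'
  have hεN : 2 * (ε : ℝ) * N ≤ 1 / 4 := by
    have h1 : (N : ℝ) ≤ n := by exact_mod_cast hNn
    have h2 : 2 * (ε : ℝ) * N ≤ 2 * (ε : ℝ) * (n + 1) :=
      mul_le_mul_of_nonneg_left (by linarith) (by positivity)
    have h3 : 2 * (ε : ℝ) * (n + 1) = 1 / 4 := by
      rw [hεR]
      field_simp
      norm_num
    linarith
  set qk : Fin N → ℕ := fun k => ∑ t ∈ T, 2 ^ idx t * (if z t = zf k then 1 else 0) with hqk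
  choose qc hqc using fun j : Fin m => exists_rat_near (pair a0 (g j)) hεp
  obtain ⟨qw, hqw⟩ := exists_rat_near (pair a0 (cmp (wC m) g)) hεp
  set π : Par m := ⟨N, fun k => (c k, r), Sum.elim qc (Sum.elim (fun k => (qk k : ℚ)) fun _ => qw), ε⟩
    with hπ
  have hPk : ∀ k : Fin N, ParP π k = tent (fun j => (c k j : ℝ)) (r : ℝ) := fun k => rfl
  have htentz : ∀ t ∈ T, ∀ k, tent (fun j => (c k j : ℝ)) (r : ℝ) (z t)
      = if z t = zf k then 1 else 0 := by
    intro t ht k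
    split_ifs with hcase
    · rw [hcase]
      exact tent_one hr0 (hc k).le
    · by_contra hne
      have h1 := tent_ne hr0 hne
      have h2 := hρZ _ (Finset.mem_image_of_mem z ht) _ (hzfmem k) hcase
      have h3 : dist (z t) (zf k) ≤ ‖z t - fun j => (c k j : ℝ)‖ + ‖zf k - fun j => (c k j : ℝ)‖ := by
        rw [← dist_eq_norm, ← dist_eq_norm]
        exact dist_triangle_right _ _ _
      linarith [hc k]
  have hpk : ∀ k, pair a0 (cmp (ParP π k) g) = (qk k : ℝ) := by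
    intro k
    rw [hpair, hqk]
    push_cast
    refine Finset.sum_congr rfl fun t ht => ?_
    rw [cmp_apply, hPk]
    rw [show (fun j => g j t) = z t from rfl, htentz t ht k]
  have ha0O : a0 ∈ Oset 𝓗 (ParP π) (fun i => (π.2.2.1 i : ℝ)) (π.2.2.2 : ℝ) := by
    refine ⟨g, hg, ?_⟩
    rintro (j | k | u)
    · exact hqc j
    · show |pair a0 (cmp (ParP π k) g) - ((qk k : ℚ) : ℝ)| < (ε : ℝ)
      rw [hpk k]
      simpa using hεp
    · exact hqw
  obtain ⟨F, hFS, ε', hε', hNb⟩ := hSo π a0 ha0O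
  obtain ⟨d, hdH, hdspan, hdq⟩ := mainStep y hy 𝓗 hlat hdet a0 ha00 F ε' (ε : ℝ) hε' hεp (ParP π)
    (fun k z => ⟨tent_nonneg _ _ _, tent_le_one _ _ _⟩) (fun j => (qc j : ℝ))
    (fun k => ((qk k : ℚ) : ℝ)) (qw : ℝ)
    (fun a ha => by
      obtain ⟨f, hf, hfi⟩ := hNb ha
      exact ⟨f, hf, fun j => hfi (Sum.inl j), fun k => hfi (Sum.inr (Sum.inl k)),
        hfi (Sum.inr (Sum.inr ()))⟩)
  -- closeness of d and g on T
  have hclose : ∀ t ∈ T, ∀ j, |d j t - g j t| < ε0 / 2 := by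
    have hpos := combi T idx hidx zf hzfinj z hzT
      (fun k t => tent (fun j => (c k j : ℝ)) (r : ℝ) (fun j => d j t))
      (fun k t => tent_nonneg _ _ _) (fun k t => tent_le_one _ _ _)
      (by
        intro t k k' hk hk'
        have h1 := tent_ne hr0 hk
        have h2 := tent_ne hr0 hk'
        by_contra hkk
        have h3 := hρZ _ (hzfmem k) _ (hzfmem k') (fun hcon => hkk (hzfinj hcon))
        have h4 := hc k
        have h5 := hc k'
        rw [← dist_eq_norm] at h1 h2 h4 h5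
        have h6 : dist (zf k) (zf k') ≤ dist (zf k) (fun j => (c k j : ℝ))
            + dist (fun j => (c k j : ℝ)) (fun j => d j t)
            + dist (fun j => d j t) (fun j => (c k' j : ℝ))
            + dist (fun j => (c k' j : ℝ)) (zf k') :=
          (dist_triangle _ (fun j => (c k' j : ℝ)) _).trans
            (add_le_add_left ((dist_triangle _ (fun j => d j t) _).trans
              (add_le_add_left (dist_triangle _ _ _) _)) _)
        rw [dist_comm (fun j => (c k j : ℝ)) (fun j => d j t),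
          dist_comm (fun j => (c k' j : ℝ)) (zf k')] at h6
        linarith)
      (ε : ℝ) hεp hεN
      (by
        intro k
        have h1 := hdq k
        rw [hpair] at h1
        have e1 : ∑ t ∈ T, (2 : ℝ) ^ idx t * (if z t = zf k then (1 : ℝ) else 0)
            = (((qk k : ℕ) : ℚ) : ℝ) := by
          rw [hqk]
          push_cast
          refine Finset.sum_congr rfl fun t _ => ?_
          split_ifs <;> simp
        have e2 : ∑ t ∈ T, (2 : ℝ) ^ idx t
              * tent (fun j => (c k j : ℝ)) (r : ℝ) (fun j => d j t)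
            = ∑ t ∈ T, (2 : ℝ) ^ idx t * cmp (ParP π k) d t := rfl
        rw [e2]
        refine lt_of_eq_of_lt ?_ h1
        congr 2
        convert e1)
    intro t ht j
    obtain ⟨k, hk⟩ := hzT t ht
    have h1 := tent_ne hr0 (hpos t ht k hk).ne'
    have h2 := hc k
    have h3 : ‖(fun j => d j t) - z t‖ < 3 * (r : ℝ) / 2 := by
      rw [← dist_eq_norm] at h1 h2 ⊢
      calc dist (fun j => d j t) (z t)
          ≤ dist (fun j => d j t) (fun j => (c k j : ℝ)) + dist (z t) (fun j => (c k j : ℝ)) :=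
            dist_triangle_right _ _ _
        _ < 3 * (r : ℝ) / 2 := by rw [← hk]; linarith
    have h4 : |d j t - g j t| ≤ ‖(fun j => d j t) - z t‖ := by
      have := norm_le_pi_norm ((fun j => d j t) - z t) j
      rwa [Pi.sub_apply, Real.norm_eq_abs] at this
    linarith
  -- approximation in the countable set
  set F' : Finset ↥SS := F.subtype (· ∈ SS) with hF'
  have hFSS : ∀ f ∈ F, f ∈ SS := fun f hf => Set.mem_iUnion.2 ⟨π, hFS hf⟩
  have hcoef : ∀ j, ∃ cf : C(X, ℝ) → ℝ, ∑ f ∈ F, cf f • f = d j := by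
    intro j
    obtain ⟨cf, -, hcf⟩ := Submodule.mem_span_finset.1 (hdspan j)
    exact ⟨cf, hcf⟩
  choose cf hcf using hcoef
  have hPhi : Phi F' (fun j f => cf j ((f : ↥SS) : C(X, ℝ))) = d := by
    funext j
    show ∑ f : F', cf j ((f : ↥SS) : C(X, ℝ)) • ((f : ↥SS) : C(X, ℝ)) = d j
    rw [← hcf j, Finset.sum_coe_sort F' (fun f : ↥SS => cf j (f : C(X, ℝ)) • (f : C(X, ℝ)))]
    exact Finset.sum_subtype_of_mem (fun f => cf j f • f) hFSS
  obtain ⟨d', hd'D, hd'⟩ := hDd F' (fun j f => cf j ((f : ↥SS) : C(X, ℝ)))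
    (by rw [hPhi]; exact hdH) T (ε0 / 2) (by positivity)
  rw [hPhi] at hd'
  refine ⟨d', Set.mem_iUnion.2 ⟨F', hd'D⟩, fun x hx j => ?_⟩
  calc |d' j x - g j x| = |(d' j x - d j x) + (d j x - g j x)| := by congr 1; ring
    _ ≤ |d' j x - d j x| + |d j x - g j x| := abs_add_le _ _
    _ < ε0 := by linarith [hd' x hx j, hclose x hx j]

end Pool.Agent.CpPN
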