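import Pool.Agent.CpPN.Defs

/-! # Module PO: positivity of a functional on large finite sets -/

set_option autoImplicit false

namespace Pool.Agent.CpPN

open Set Topology

variable {X : Type} [TopologicalSpace X]

theorem pos_eventually (V : Submodule ℝ C(X, ℝ)) [FiniteDimensional ℝ V] (y : ℕ → X)
    (hy : DenseRange y) (n0 : ℕ) (hn0 : ∀ g ∈ V, (∀ i ≤ n0, g (y i) = 0) → g = 0)
    (a0 : X →₀ ℝ) (ha0 : ∀ x, 0 ≤ a0 x) (η : ℝ) (hη : 0 < η) :
    ∃ n1 : ℕ, n0 ≤ n1 ∧ ∀ n, n1 ≤ n → ∀ g ∈ V, (∀ i ≤ n, 0 ≤ g (y i)) →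
      η / 2 * ∑ i ∈ Finset.range (n0 + 1), g (y i) ≤
        pair a0 g + η * ∑ i ∈ Finset.range (n0 + 1), g (y i) := by
  classical
  let R : V →ₗ[ℝ] (Fin (n0 + 1) → ℝ) :=
    { toFun := fun g i => (g : C(X, ℝ)) (y i)
      map_add' := fun g h => by ext t; simp
      map_smul' := fun c g => by ext t; simp }
  have hRapp : ∀ (g : V) (i : Fin (n0 + 1)), R g i = (g : C(X, ℝ)) (y i) := fun _ _ => rfl
  have hRker : LinearMap.ker R = ⊥ := by
    rw [LinearMap.ker_eq_bot']
    intro g hg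
    apply Subtype.ext
    refine hn0 g g.2 fun i hi => ?_
    exact congrFun hg ⟨i, Nat.lt_succ_of_le hi⟩
  obtain ⟨L, hL⟩ := R.exists_leftInverse_of_injective hRker
  have hLR : ∀ g : V, L (R g) = g := fun g => by
    have := LinearMap.congr_fun hL g
    simpa using this
  -- the linear functionals
  let evL : X → (Fin (n0 + 1) → ℝ) →ₗ[ℝ] ℝ := fun x =>
    { toFun := fun z => (L z : C(X, ℝ)) x
      map_add' := fun z w => by rw [map_add, Submodule.coe_add, ContinuousMap.add_apply]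
      map_smul' := fun c z => by
        rw [map_smul, Submodule.coe_smul, ContinuousMap.smul_apply, RingHom.id_apply] }
  let paL : (Fin (n0 + 1) → ℝ) →ₗ[ℝ] ℝ :=
    { toFun := fun z => pair a0 (L z : C(X, ℝ))
      map_add' := fun z w => by rw [map_add, Submodule.coe_add, pair_add_right]
      map_smul' := fun c z => by
        rw [map_smul, Submodule.coe_smul, pair_smul_right, RingHom.id_apply, smul_eq_mul] }
  have hevc : ∀ x, Continuous fun z => (L z : C(X, ℝ)) x := fun x =>
    (evL x).continuous_of_finiteDimensional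
  have hpac : Continuous fun z => pair a0 (L z : C(X, ℝ)) :=
    paL.continuous_of_finiteDimensional
  let K : ℕ → Set (Fin (n0 + 1) → ℝ) := fun n =>
    {z | z ∈ LinearMap.range R ∧ ∑ i, |z i| = 1 ∧ pair a0 (L z : C(X, ℝ)) ≤ -(η / 2) ∧
      ∀ i ≤ n, 0 ≤ (L z : C(X, ℝ)) (y i)}
  have hKcl : ∀ n, IsClosed (K n) := by
    intro n
    refine IsClosed.inter (Submodule.closed_of_finiteDimensional _) ?_
    refine IsClosed.inter (isClosed_eq (by fun_prop) continuous_const) ?_
    refine IsClosed.inter (isClosed_le hpac continuous_const) ?_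
    have : {z : Fin (n0 + 1) → ℝ | ∀ i ≤ n, 0 ≤ (L z : C(X, ℝ)) (y i)} =
        ⋂ i ∈ {i | i ≤ n}, {z | 0 ≤ (L z : C(X, ℝ)) (y i)} := by
      ext z; simp
    show IsClosed {z : Fin (n0 + 1) → ℝ | ∀ i ≤ n, 0 ≤ (L z : C(X, ℝ)) (y i)}
    rw [this]
    exact isClosed_biInter fun i _ => isClosed_le continuous_const (hevc _)
  have hKco : IsCompact (K 0) := by
    refine Metric.isCompact_of_isClosed_isBounded (hKcl 0) ?_
    refine (Metric.isBounded_closedBall (x := (0 : Fin (n0 + 1) → ℝ)) (r := 1)).subset ?_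
    rintro z ⟨-, hz, -⟩
    rw [mem_closedBall_zero_iff, pi_norm_le_iff_of_nonneg zero_le_one]
    intro i
    rw [Real.norm_eq_abs, ← hz]
    exact Finset.single_le_sum (f := fun i => |z i|) (fun _ _ => abs_nonneg _)
      (Finset.mem_univ i)
  have hempty : ∃ n, K n = ∅ := by
    by_contra hcon
    push Not at hcon
    obtain ⟨z, hz⟩ := IsCompact.nonempty_iInter_of_sequence_nonempty_isCompact_isClosed K
      (fun n z hz => ⟨hz.1, hz.2.1, hz.2.2.1, fun i hi => hz.2.2.2 i (by omega)⟩)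
      (fun n => Set.nonempty_iff_ne_empty.2 (Set.nonempty_iff_ne_empty.1 (hcon n))) hKco hKcl
    rw [Set.mem_iInter] at hz
    have h1 : ∀ x, 0 ≤ (L z : C(X, ℝ)) x := by
      have hcl : IsClosed {x | 0 ≤ (L z : C(X, ℝ)) x} :=
        isClosed_le continuous_const (L z : C(X, ℝ)).continuous
      have hsub : Set.range y ⊆ {x | 0 ≤ (L z : C(X, ℝ)) x} := by
        rintro _ ⟨i, rfl⟩
        exact (hz i).2.2.2 i le_rfl
      intro x
      have := closure_minimal hsub hcl (hy x)
      exact this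
    have h2 : 0 ≤ pair a0 (L z : C(X, ℝ)) := by
      unfold pair
      exact Finset.sum_nonneg fun x _ => mul_nonneg (ha0 x) (h1 x)
    have h3 := (hz 0).2.2.1
    linarith
  obtain ⟨n2, hn2⟩ := hempty
  refine ⟨max n0 n2, le_max_left _ _, ?_⟩
  intro n hn g hg hpos
  have hn0' : n0 ≤ n := (le_max_left _ _).trans hn
  have hn2' : n2 ≤ n := (le_max_right _ _).trans hn
  set s : ℝ := ∑ i ∈ Finset.range (n0 + 1), g (y i) with hs
  have hs0 : 0 ≤ s := Finset.sum_nonneg fun i hi =>
    hpos i (by have := Finset.mem_range.1 hi; omega)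
  rcases hs0.eq_or_lt with h0 | h0
  · -- the function is zero
    have hz : ∀ i ≤ n0, g (y i) = 0 := by
      intro i hi
      exact (Finset.sum_eq_zero_iff_of_nonneg (fun i hi =>
        hpos i (by have := Finset.mem_range.1 hi; omega))).1 h0.symm i
          (Finset.mem_range.2 (by omega))
    rw [hn0 g hg hz, ← h0]
    simp
  · -- normalise
    by_contra hlt
    push Not at hlt
    have hmem : (R (s⁻¹ • ⟨g, hg⟩)) ∈ K n2 := by
      have hLg : (L (R (s⁻¹ • ⟨g, hg⟩)) : C(X, ℝ)) = s⁻¹ • g := by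
        rw [hLR]
        rfl
      refine ⟨⟨_, rfl⟩, ?_, ?_, ?_⟩
      · have h1 : ∀ i : Fin (n0 + 1), |R (s⁻¹ • ⟨g, hg⟩) i| = s⁻¹ * g (y i) := by
          intro i
          have h2 : R (s⁻¹ • ⟨g, hg⟩) i = s⁻¹ * g (y i) := rfl
          rw [h2, abs_of_nonneg]
          exact mul_nonneg (inv_nonneg.2 hs0) (hpos i (by have := i.2; omega))
        rw [Finset.sum_congr rfl fun i _ => h1 i, ← Finset.mul_sum,
          Fin.sum_univ_eq_sum_range (fun i => g (y i)) (n0 + 1), ← hs]
        exact inv_mul_cancel₀ h0.ne'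
      · rw [hLg, pair_smul_right, inv_mul_le_iff₀ h0]
        nlinarith
      · intro i hi
        rw [hLg, ContinuousMap.smul_apply, smul_eq_mul]
        exact mul_nonneg (inv_nonneg.2 hs0) (hpos i (by omega))
    rw [hn2] at hmem
    exact hmem

end Pool.Agent.CpPN
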