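import Pool.Agent.CpPN.Repr
import Pool.Agent.CpPN.Pos
import Pool.Agent.CpPN.FDL

/-! # Module MS: the main step -/

set_option autoImplicit false

namespace Pool.Agent.CpPN

open Set Topology

variable {X : Type} [TopologicalSpace X]

namespace MainStepAux

theorem isLat_mono {i I : ℕ} (h : i ≤ I) {r : ℝ} (hr : IsLat i r) : IsLat I r := by
  obtain ⟨z, rfl⟩ := hr
  refine ⟨z * 2 ^ (I - i), ?_⟩
  obtain ⟨k, rfl⟩ := Nat.exists_eq_add_of_le h
  rw [Nat.add_sub_cancel_left, pow_add]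
  push_cast
  field_simp

theorem sum_filter_le (n0 n : ℕ) (h : n0 ≤ n) (g : ℕ → ℝ) :
    ∑ t ∈ Finset.univ.filter (fun t : Fin (n + 1) => (t : ℕ) ≤ n0), g t =
      ∑ i ∈ Finset.range (n0 + 1), g i := by
  rw [Finset.sum_filter, Fin.sum_univ_eq_sum_range (fun i => if i ≤ n0 then g i else 0),
    ← Finset.sum_filter]
  refine Finset.sum_congr ?_ fun _ _ => rfl
  ext i
  simp only [Finset.mem_filter, Finset.mem_range]
  omega

/-- the functional `θ` -/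
noncomputable def theta (y : ℕ → X) (n0 : ℕ) (a0 : X →₀ ℝ) (η : ℝ) : C(X, ℝ) →ₗ[ℝ] ℝ :=
  pairL a0 + η • ∑ i ∈ Finset.range (n0 + 1),
    (LinearMap.mk ⟨fun g : C(X, ℝ) => g (y i), fun _ _ => rfl⟩ fun _ _ => rfl)

theorem theta_apply (y : ℕ → X) (n0 : ℕ) (a0 : X →₀ ℝ) (η : ℝ) (g : C(X, ℝ)) :
    theta y n0 a0 η g = pair a0 g + η * ∑ i ∈ Finset.range (n0 + 1), g (y i) := by
  simp [theta, LinearMap.sum_apply]

/-- evaluation along the sequence -/
noncomputable def evT (y : ℕ → X) (n : ℕ) : C(X, ℝ) →ₗ[ℝ] (Fin (n + 1) → ℝ) where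
  toFun g := fun t => g (y t)
  map_add' _ _ := rfl
  map_smul' _ _ := rfl

@[simp] theorem evT_apply (y : ℕ → X) (n : ℕ) (g : C(X, ℝ)) (t : Fin (n + 1)) :
    evT y n g t = g (y t) := rfl

theorem step {m r : ℕ} (y : ℕ → X) (𝓗 : Set (Fin m → C(X, ℝ)))
    (hlat : ∀ f ∈ 𝓗, ∀ i j, IsLat i (f j (y i)))
    (a0 : X →₀ ℝ) (F : Finset C(X, ℝ)) (ε' ε : ℝ)
    (P : Fin r → C(Fin m → ℝ, ℝ))
    (qc : Fin m → ℝ) (q : Fin r → ℝ) (qw : ℝ)
    (H : ∀ a ∈ Nb a0 F ε', ∃ f ∈ 𝓗, (∀ j, |pair a (f j) - qc j| < ε) ∧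
      (∀ k, |pair a (cmp (P k) f) - q k| < ε) ∧ |pair a (cmp (wC m) f) - qw| < ε)
    (n0 : ℕ) (hn0 : ∀ g ∈ Submodule.span ℝ (F : Set C(X, ℝ)), (∀ i ≤ n0, g (y i) = 0) → g = 0)
    (η : ℝ) (hη : 0 < η) (hηF : ∀ g ∈ F, η * ∑ i ∈ Finset.range (n0 + 1), |g (y i)| < ε')
    (n : ℕ) (hn : n0 ≤ n) (hn1 : ∀ g ∈ Submodule.span ℝ (F : Set C(X, ℝ)),
      (∀ i ≤ n, 0 ≤ g (y i)) → η / 2 * ∑ i ∈ Finset.range (n0 + 1), g (y i) ≤
        pair a0 g + η * ∑ i ∈ Finset.range (n0 + 1), g (y i)) :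
    ∃ f ∈ 𝓗, ∃ gc : Fin m → C(X, ℝ), ∃ gk : Fin r → C(X, ℝ), ∃ gw : C(X, ℝ),
      (∀ j, gc j ∈ Submodule.span ℝ (F : Set C(X, ℝ)) ∧ ∀ i ≤ n, gc j (y i) = f j (y i)) ∧
      (∀ k, gk k ∈ Submodule.span ℝ (F : Set C(X, ℝ)) ∧
        ∀ i ≤ n, gk k (y i) = cmp (P k) f (y i)) ∧
      (gw ∈ Submodule.span ℝ (F : Set C(X, ℝ)) ∧ ∀ i ≤ n, gw (y i) = cmp (wC m) f (y i)) ∧
      (∀ k, |theta y n0 a0 η (gk k) - q k| < ε) ∧ |theta y n0 a0 η gw - qw| < ε := by
  classical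
  obtain ⟨V, hV⟩ : ∃ V : Submodule ℝ C(X, ℝ), V = Submodule.span ℝ (F : Set C(X, ℝ)) := ⟨_, rfl⟩
  rw [← hV] at hn0 hn1 ⊢
  have hinj : Function.Injective ((evT y n).domRestrict V) := by
    rw [← LinearMap.ker_eq_bot, LinearMap.ker_eq_bot']
    intro g hg
    apply Subtype.ext
    refine hn0 g g.2 fun i hi => ?_
    exact congrFun hg ⟨i, by omega⟩
  obtain ⟨s, hs⟩ := LinearMap.exists_leftInverse_of_injective _ (LinearMap.ker_eq_bot.2 hinj)
  obtain ⟨l, hl⟩ : ∃ l : (Fin (n + 1) → ℝ) →ₗ[ℝ] ℝ,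
      l = (theta y n0 a0 η) ∘ₗ V.subtype ∘ₗ s := ⟨_, rfl⟩
  have hlg : ∀ g ∈ V, l (evT y n g) = theta y n0 a0 η g := by
    intro g hg
    have h1 : s (evT y n g) = ⟨g, hg⟩ := by
      have := LinearMap.congr_fun hs ⟨g, hg⟩
      exact this
    rw [hl, LinearMap.comp_apply, LinearMap.comp_apply, h1]
    rfl
  obtain ⟨a, ha⟩ : ∃ a : Fin (n + 1) → ℝ, ∀ u, ∑ t, a t * u t = l u := by
    refine ⟨fun t => l (Pi.single t 1), fun u => ?_⟩
    rw [LinearMap.pi_apply_eq_sum_univ l u]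
    refine Finset.sum_congr rfl fun t _ => ?_
    have h1 : (Pi.single t 1 : Fin (n + 1) → ℝ) = fun j => if t = j then 1 else 0 := by
      ext i
      simp [Pi.single_apply, eq_comm]
    show l (Pi.single t 1) * u t = _
    rw [h1, smul_eq_mul, mul_comm]
  have hav : ∀ g ∈ V, ∑ t, a t * g (y t) = theta y n0 a0 η g := by
    intro g hg
    rw [← hlg g hg, ← ha]
    rfl
  obtain ⟨v, ⟨f, hf, rfl⟩, hτ, hw, hq, hqw⟩ := fdl (K := Fin m ⊕ Fin r) (m := m) n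
    (V.map (evT y n)) (Finset.univ.filter (fun t : Fin (n + 1) => (t : ℕ) ≤ n0))
    (by
      rintro _ ⟨g, hg, rfl⟩ h
      have h0 : g = 0 := hn0 g hg fun i hi => h ⟨i, by omega⟩ (by simpa using hi)
      rw [h0, map_zero]) a (η / 2) (by positivity)
    (by
      rintro _ ⟨g, hg, rfl⟩ h
      have h1 := hn1 g hg fun i hi => h ⟨i, by omega⟩
      have h2 : ∑ t ∈ Finset.univ.filter (fun t : Fin (n + 1) => (t : ℕ) ≤ n0),
          evT y n g t = ∑ i ∈ Finset.range (n0 + 1), g (y i) :=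
        sum_filter_le n0 n hn fun i => g (y i)
      rw [h2]
      refine h1.trans (le_of_eq ?_)
      rw [← theta_apply, ← hav g hg]
      rfl)
    (fun k _ z => Sum.elim (fun j => z j) (fun k => P k z) k)
    {v | ∃ f ∈ 𝓗, v = fun (t : Fin (n + 1)) j => f j (y t)}
    (by
      rintro _ ⟨f, hf, rfl⟩ t j
      exact isLat_mono (by omega) (hlat f hf t j))
    (Sum.elim qc q) qw ε
    (by
      intro b hb
      obtain ⟨c, hc⟩ : ∃ c : X →₀ ℝ, c = ∑ t : Fin (n + 1), Finsupp.single (y t) (a t + b t) :=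
        ⟨_, rfl⟩
      have hcp : ∀ g : C(X, ℝ), pair c g = ∑ t, (a t + b t) * g (y t) := by
        intro g
        rw [hc, pair_sum_left]
        exact Finset.sum_congr rfl fun t _ => pair_single _ _ _
      have hcV : ∀ g ∈ V, pair c g = theta y n0 a0 η g := by
        intro g hg
        rw [hcp, ← hav g hg]
        have h1 : ∑ t, b t * g (y t) = 0 := hb _ ⟨g, hg, rfl⟩
        rw [← add_zero (∑ t, a t * g (y t)), ← h1, ← Finset.sum_add_distrib]
        exact Finset.sum_congr rfl fun t _ => by ring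
      obtain ⟨f, hf, h1, h2, h3⟩ := H c (by
        intro g hg
        have hgV : g ∈ V := by rw [hV]; exact Submodule.subset_span hg
        rw [hcV g hgV, theta_apply, add_sub_cancel_left, abs_mul, abs_of_pos hη]
        refine lt_of_le_of_lt ?_ (hηF g hg)
        exact mul_le_mul_of_nonneg_left (Finset.abs_sum_le_sum_abs _ _) hη.le)
      refine ⟨_, ⟨f, hf, rfl⟩, ?_, ?_⟩
      · rintro (j | k)
        · have := h1 j
          rw [hcp] at this
          exact this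
        · have := h2 k
          rw [hcp] at this
          exact this
      · rw [hcp] at h3
        exact h3)
  have hc : ∀ j, ∃ g ∈ V, ∀ i ≤ n, g (y i) = f j (y i) := by
    intro j
    obtain ⟨g, hg, h⟩ := hτ (Sum.inl j)
    exact ⟨g, hg, fun i hi => congrFun h ⟨i, by omega⟩⟩
  have hk : ∀ k, ∃ g ∈ V, (∀ i ≤ n, g (y i) = cmp (P k) f (y i)) ∧
      |theta y n0 a0 η g - q k| < ε := by
    intro k
    obtain ⟨g, hg, h⟩ := hτ (Sum.inr k)
    refine ⟨g, hg, fun i hi => congrFun h ⟨i, by omega⟩, ?_⟩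
    have h1 := hq (Sum.inr k)
    rw [← hav g hg]
    have h2 : ∀ t : Fin (n + 1), g (y t) = P k (fun j => f j (y t)) := fun t => congrFun h t
    simp only [h2]
    exact h1
  have hw' : ∃ g ∈ V, (∀ i ≤ n, g (y i) = cmp (wC m) f (y i)) ∧
      |theta y n0 a0 η g - qw| < ε := by
    obtain ⟨g, hg, h⟩ := hw
    refine ⟨g, hg, fun i hi => congrFun h ⟨i, by omega⟩, ?_⟩
    rw [← hav g hg]
    have h2 : ∀ t : Fin (n + 1), g (y t) = wfun (fun j => f j (y t)) := fun t => congrFun h t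
    simp only [h2]
    exact hqw
  choose gc hgc hgc' using hc
  choose gk hgk hgk' hgk2 using hk
  obtain ⟨gw, hgw, hgw', hgw2⟩ := hw'
  exact ⟨f, hf, gc, gk, gw, fun j => ⟨hgc j, hgc' j⟩, fun k => ⟨hgk k, hgk' k⟩, ⟨hgw, hgw'⟩,
    hgk2, hgw2⟩

end MainStepAux

open MainStepAux

theorem mainStep {m r : ℕ} (y : ℕ → X) (hy : DenseRange y) (𝓗 : Set (Fin m → C(X, ℝ)))
    (hlat : ∀ f ∈ 𝓗, ∀ i j, IsLat i (f j (y i)))
    (hdet : ∀ f : Fin m → C(X, ℝ),
      (∀ n : ℕ, ∃ g ∈ 𝓗, ∀ i ≤ n, ∀ j, g j (y i) = f j (y i)) → f ∈ 𝓗)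
    (a0 : X →₀ ℝ) (ha0 : ∀ x, 0 ≤ a0 x) (F : Finset C(X, ℝ)) (ε' ε : ℝ) (hε' : 0 < ε')
    (hε : 0 < ε) (P : Fin r → C(Fin m → ℝ, ℝ)) (hP : ∀ k z, 0 ≤ P k z ∧ P k z ≤ 1)
    (qc : Fin m → ℝ) (q : Fin r → ℝ) (qw : ℝ)
    (H : ∀ a ∈ Nb a0 F ε', ∃ f ∈ 𝓗, (∀ j, |pair a (f j) - qc j| < ε) ∧
      (∀ k, |pair a (cmp (P k) f) - q k| < ε) ∧ |pair a (cmp (wC m) f) - qw| < ε) :
    ∃ d ∈ 𝓗, (∀ j, d j ∈ Submodule.span ℝ (F : Set C(X, ℝ))) ∧
      ∀ k, |pair a0 (cmp (P k) d) - q k| < 2 * ε := by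
  classical
  obtain ⟨n0, hn0⟩ := exists_n0 (Submodule.span ℝ (F : Set C(X, ℝ))) y hy
  obtain ⟨η, hη, hηF, hηε⟩ : ∃ η : ℝ, 0 < η ∧
      (∀ g ∈ F, η * ∑ i ∈ Finset.range (n0 + 1), |g (y i)| < ε') ∧ η * (n0 + 1) ≤ ε := by
    obtain ⟨M, hM⟩ : ∃ M : ℝ, M = ∑ g ∈ F, ∑ i ∈ Finset.range (n0 + 1), |g (y i)| := ⟨_, rfl⟩
    have hM0 : 0 ≤ M := by
      rw [hM]
      exact Finset.sum_nonneg fun g _ => Finset.sum_nonneg fun i _ => abs_nonneg _
    have hMn : (0 : ℝ) < M + (n0 + 1) + 1 := by positivity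
    refine ⟨min ε' ε / (M + (n0 + 1) + 1), div_pos (lt_min hε' hε) hMn, fun g hg => ?_, ?_⟩
    · rw [div_mul_eq_mul_div, div_lt_iff₀ hMn]
      have h1 : ∑ i ∈ Finset.range (n0 + 1), |g (y i)| ≤ M := by
        rw [hM]
        exact Finset.single_le_sum (f := fun g : C(X, ℝ) => ∑ i ∈ Finset.range (n0 + 1), |g (y i)|)
          (fun g _ => Finset.sum_nonneg fun i _ => abs_nonneg _) hg
      have h2 : ∑ i ∈ Finset.range (n0 + 1), |g (y i)| < M + (n0 + 1) + 1 := by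
        have : (0 : ℝ) ≤ n0 := Nat.cast_nonneg _
        linarith
      have h3 : (0 : ℝ) ≤ ∑ i ∈ Finset.range (n0 + 1), |g (y i)| :=
        Finset.sum_nonneg fun i _ => abs_nonneg _
      calc min ε' ε * ∑ i ∈ Finset.range (n0 + 1), |g (y i)|
          ≤ ε' * ∑ i ∈ Finset.range (n0 + 1), |g (y i)| :=
            mul_le_mul_of_nonneg_right (min_le_left _ _) h3
        _ < ε' * (M + (n0 + 1) + 1) := mul_lt_mul_of_pos_left h2 hε'
    · rw [div_mul_eq_mul_div, div_le_iff₀ hMn]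
      have h3 : (0 : ℝ) ≤ n0 + 1 := by positivity
      calc min ε' ε * ((n0 : ℝ) + 1) ≤ ε * (n0 + 1) :=
            mul_le_mul_of_nonneg_right (min_le_right _ _) h3
        _ ≤ ε * (M + (n0 + 1) + 1) := mul_le_mul_of_nonneg_left (by linarith) hε.le
  obtain ⟨n1, hn01, hn1⟩ := pos_eventually (Submodule.span ℝ (F : Set C(X, ℝ))) y hy n0 hn0 a0 ha0
    η hη
  choose f hf gc gk gw hgc hgk hgw hθk hθw using fun n : ℕ =>
    step y 𝓗 hlat a0 F ε' ε P qc q qw H n0 hn0 η hη hηF (n1 + n) (by omega)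
      (hn1 (n1 + n) (by omega))
  -- uniform bound on the values of `wfun`
  have hbound : ∀ n, ∀ i ≤ n0, wfun (fun j => f n j (y i)) ≤ 2 * (qw + ε) / η := by
    intro n i hi
    have h1 : ∀ i ≤ n1 + n, gw n (y i) = wfun (fun j => f n j (y i)) := (hgw n).2
    have h2 : ∀ i ≤ n1 + n, 0 ≤ gw n (y i) := by
      intro i hi
      rw [h1 i hi]
      exact (Real.exp_pos _).le
    have h3 := hn1 (n1 + n) (by omega) (gw n) (hgw n).1 h2
    rw [← theta_apply] at h3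
    have h4 := (abs_lt.1 (hθw n)).2
    have h5 : gw n (y i) ≤ ∑ i ∈ Finset.range (n0 + 1), gw n (y i) := by
      refine Finset.single_le_sum (f := fun i => gw n (y i)) (fun i hi => ?_)
        (Finset.mem_range.2 (by omega))
      exact h2 i (by have := Finset.mem_range.1 hi; omega)
    rw [← h1 i (by omega), le_div_iff₀ hη]
    nlinarith
  obtain ⟨Z, hZ⟩ : ∃ Z : Set (Fin m → ℝ), Z = {z : Fin m → ℝ | (∀ j, IsLat n0 (z j)) ∧
      wfun z ≤ 2 * (qw + ε) / η} := ⟨_, rfl⟩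
  have hZf : Z.Finite := by
    rw [hZ]
    exact wfun_finite m n0 _
  have hmem : ∀ n, (fun (i : Fin (n0 + 1)) j => f n j (y i)) ∈ Set.pi Set.univ fun _ => Z := by
    intro n i _
    rw [hZ]
    exact ⟨fun j => isLat_mono (by omega) (hlat (f n) (hf n) i j), hbound n i (by omega)⟩
  have hfin : (Set.pi Set.univ fun _ : Fin (n0 + 1) => Z).Finite := Set.Finite.pi fun _ => hZf
  have : Finite (Set.pi Set.univ fun _ : Fin (n0 + 1) => Z : Set (Fin (n0 + 1) → Fin m → ℝ)) :=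
    hfin.to_subtype
  obtain ⟨u, hu⟩ := Finite.exists_infinite_fiber
    (fun n : ℕ => (⟨fun (i : Fin (n0 + 1)) j => f n j (y i), hmem n⟩ :
      (Set.pi Set.univ fun _ : Fin (n0 + 1) => Z : Set (Fin (n0 + 1) → Fin m → ℝ))))
  have hinf := Set.infinite_coe_iff.1 hu
  obtain ⟨N, hN⟩ := hinf.nonempty
  -- all members of the fibre agree at the first `n0 + 1` points
  have hagree : ∀ n, n ∈ ((fun n : ℕ => (⟨fun (i : Fin (n0 + 1)) j => f n j (y i), hmem n⟩ :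
      (Set.pi Set.univ fun _ : Fin (n0 + 1) => Z : Set (Fin (n0 + 1) → Fin m → ℝ)))) ⁻¹' {u}) →
      ∀ i ≤ n0, ∀ j, f n j (y i) = f N j (y i) := by
    intro n hn i hi j
    have h1 : (⟨fun (i : Fin (n0 + 1)) j => f n j (y i), hmem n⟩ :
      (Set.pi Set.univ fun _ : Fin (n0 + 1) => Z : Set (Fin (n0 + 1) → Fin m → ℝ))) =
      ⟨fun (i : Fin (n0 + 1)) j => f N j (y i), hmem N⟩ := hn.trans hN.symm
    exact congrFun (congrFun (congrArg Subtype.val h1) ⟨i, by omega⟩) j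
  have hbig : ∀ k : ℕ, ∃ n, k ≤ n ∧ ∀ i ≤ n0, ∀ j, f n j (y i) = f N j (y i) := by
    intro k
    obtain ⟨n, hn, hkn⟩ := hinf.exists_gt k
    exact ⟨n, hkn.le, hagree n hn⟩
  have hcN : ∀ n, (∀ i ≤ n0, ∀ j, f n j (y i) = f N j (y i)) → ∀ j, gc n j = gc N j := by
    intro n hn j
    apply sub_eq_zero.1
    refine hn0 _ (Submodule.sub_mem _ (hgc n j).1 (hgc N j).1) fun i hi => ?_
    rw [ContinuousMap.sub_apply, (hgc n j).2 i (by omega), (hgc N j).2 i (by omega), hn i hi j,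
      sub_self]
  have hkN : ∀ n, (∀ i ≤ n0, ∀ j, f n j (y i) = f N j (y i)) → ∀ k, gk n k = gk N k := by
    intro n hn k
    apply sub_eq_zero.1
    refine hn0 _ (Submodule.sub_mem _ (hgk n k).1 (hgk N k).1) fun i hi => ?_
    rw [ContinuousMap.sub_apply, (hgk n k).2 i (by omega), (hgk N k).2 i (by omega), cmp_apply,
      cmp_apply]
    have : (fun j => f n j (y i)) = fun j => f N j (y i) := funext fun j => hn i hi j
    rw [this, sub_self]
  refine ⟨gc N, hdet _ fun n => ?_, fun j => (hgc N j).1, fun k => ?_⟩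
  · obtain ⟨n', hn', h⟩ := hbig n
    refine ⟨f n', hf n', fun i hi j => ?_⟩
    rw [← (hgc n' j).2 i (by omega), hcN n' h j]
  · have hcomp : cmp (P k) (gc N) = gk N k := by
      refine DFunLike.coe_injective (hy.equalizer (cmp (P k) (gc N)).continuous
        (gk N k).continuous (funext fun i => ?_))
      obtain ⟨n', hn', h⟩ := hbig i
      show cmp (P k) (gc N) (y i) = gk N k (y i)
      rw [← hkN n' h k, (hgk n' k).2 i (by omega), cmp_apply, cmp_apply]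
      congr 1
      funext j
      rw [← hcN n' h j, (hgc n' j).2 i (by omega)]
    rw [hcomp]
    have h1 := hθk N k
    rw [theta_apply] at h1
    have h2 : 0 ≤ ∑ i ∈ Finset.range (n0 + 1), gk N k (y i) := by
      refine Finset.sum_nonneg fun i hi => ?_
      rw [← hcomp]
      exact (hP k _).1
    have h3 : ∑ i ∈ Finset.range (n0 + 1), gk N k (y i) ≤ n0 + 1 := by
      calc ∑ i ∈ Finset.range (n0 + 1), gk N k (y i) ≤ ∑ i ∈ Finset.range (n0 + 1), (1 : ℝ) := by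
            refine Finset.sum_le_sum fun i hi => ?_
            rw [← hcomp]
            exact (hP k _).2
        _ = n0 + 1 := by simp
    have h4 := abs_lt.1 h1
    have h5 : η * ∑ i ∈ Finset.range (n0 + 1), gk N k (y i) ≤ ε :=
      (mul_le_mul_of_nonneg_left h3 hη.le).trans hηε
    have h6 : 0 ≤ η * ∑ i ∈ Finset.range (n0 + 1), gk N k (y i) := mul_nonneg hη.le h2
    rw [abs_lt]
    constructor <;> linarith [h4.1, h4.2]

end Pool.Agent.CpPN
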