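import Pool.Agent.CpPN.Defs

/-! # Module RE: representation of finitely many values -/

set_option autoImplicit false

namespace Pool.Agent.CpPN

open Set Topology

variable {X : Type} [TopologicalSpace X]

namespace ReprAux

theorem pair_ext_zero (f : C(X, ℝ)) (h : ∀ a : X →₀ ℝ, pair a f = 0) : f = 0 := by
  ext x
  have := h (Finsupp.single x 1)
  simpa using this

/-- finitely many values of a linear functional are represented by a finitely supported function -/
theorem exists_repr (ψ : C(X, ℝ) →ₗ[ℝ] ℝ) (F : Finset C(X, ℝ)) :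
    ∃ e : X →₀ ℝ, ∀ f ∈ F, pair e f = ψ f := by
  classical
  let Φ : (X →₀ ℝ) →ₗ[ℝ] (F → ℝ) :=
    LinearMap.pi fun f => (pairL (X := X)).flip (f : C(X, ℝ))
  have hΦ : ∀ a (f : F), Φ a f = pair a (f : C(X, ℝ)) := fun a f => rfl
  by_contra hcon
  have hnot : (fun f : F => ψ (f : C(X, ℝ))) ∉ LinearMap.range Φ := by
    rintro ⟨e, he⟩
    apply hcon
    refine ⟨e, fun f hf => ?_⟩
    have := congrFun he ⟨f, hf⟩
    rw [hΦ] at this
    exact this
  obtain ⟨g, hg1, hg2⟩ := Submodule.exists_le_ker_of_notMem hnot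
  have hsum : ∀ v : F → ℝ, g v = ∑ f : F, v f * g (Pi.single f 1) := by
    intro v
    have h1 : v = ∑ f : F, v f • (Pi.single f (1 : ℝ) : F → ℝ) := by
      funext i
      simp [Finset.sum_apply, Pi.single_apply]
    conv_lhs => rw [h1]
    rw [map_sum]
    exact Finset.sum_congr rfl fun f _ => by rw [map_smul, smul_eq_mul]
  have hzero : (∑ f : F, g (Pi.single f 1) • (f : C(X, ℝ))) = 0 := by
    apply pair_ext_zero
    intro a
    rw [pair_sum_right]
    have h2 : g (Φ a) = 0 := hg2 ⟨a, rfl⟩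
    rw [hsum] at h2
    rw [← h2]
    exact Finset.sum_congr rfl fun f _ => by rw [pair_smul_right, hΦ]; ring
  apply hg1
  rw [hsum]
  have h3 := congrArg ψ hzero
  rw [map_sum, map_zero] at h3
  rw [← h3]
  exact Finset.sum_congr rfl fun f _ => by rw [map_smul, smul_eq_mul]; ring


end ReprAux

/-- Finitely supported functions represent arbitrary values on a finite linearly independent
set of continuous functions. -/
theorem exists_pair_eq (W : Finset C(X, ℝ))
    (hW : LinearIndependent ℝ (fun f : W => (f : C(X, ℝ)))) (c : C(X, ℝ) → ℝ) :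
    ∃ a : X →₀ ℝ, ∀ f ∈ W, pair a f = c f := by
  obtain ⟨ψ, hψ⟩ := LinearMap.exists_extend
    ((Module.Basis.span hW).constr ℝ fun f : W => c (f : C(X, ℝ)))
  obtain ⟨a, ha⟩ := ReprAux.exists_repr ψ W
  refine ⟨a, fun f hf => ?_⟩
  rw [ha f hf]
  have h1 := LinearMap.congr_fun hψ (Module.Basis.span hW ⟨f, hf⟩)
  rw [Module.Basis.constr_basis] at h1
  rw [← h1, LinearMap.comp_apply, Submodule.subtype_apply, Module.Basis.span_apply]

/-- A finite dimensional space of continuous functions is determined by finitely many values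
along a sequence with dense range. -/
theorem exists_n0 (V : Submodule ℝ C(X, ℝ)) [FiniteDimensional ℝ V] (y : ℕ → X)
    (hy : DenseRange y) : ∃ n0 : ℕ, ∀ g ∈ V, (∀ i ≤ n0, g (y i) = 0) → g = 0 := by
  obtain ⟨K, hK⟩ : ∃ K : ℕ → Submodule ℝ V, ∀ n g, g ∈ K n ↔ ∀ i ≤ n, g.1 (y i) = 0 := by
    refine ⟨fun n => ⟨⟨⟨{g | ∀ i ≤ n, g.1 (y i) = 0}, ?_⟩, ?_⟩, ?_⟩, fun n g => Iff.rfl⟩
    · intro a b ha hb i hi
      show a.1 (y i) + b.1 (y i) = 0
      rw [ha i hi, hb i hi, add_zero]
    · intro i _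
      rfl
    · intro c a ha i hi
      show c * a.1 (y i) = 0
      rw [ha i hi, mul_zero]
  obtain ⟨n, hn⟩ := IsArtinian.monotone_stabilizes (R := ℝ) (M := V)
    ⟨fun n => OrderDual.toDual (K n), fun a b hab g hg => by
      have h1 := (hK b g).1 hg
      exact (hK a g).2 fun i hi => h1 i (hi.trans hab)⟩
  refine ⟨n, fun g hg h => ?_⟩
  refine DFunLike.coe_injective (hy.equalizer g.continuous (0 : C(X, ℝ)).continuous
    (funext fun i => ?_))
  have h1 : (⟨g, hg⟩ : V) ∈ K n := (hK n _).2 h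
  have h2 : K n = K (max n i) := hn (max n i) (le_max_left _ _)
  rw [h2] at h1
  exact (hK _ _).1 h1 i (le_max_right _ _)

end Pool.Agent.CpPN
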