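import Pool.Agent.CpPN.Defs

/-! # Module SP: all finite powers have countable spread -/

set_option autoImplicit false

namespace Pool.Agent.CpPN

open Set Topology

variable {X : Type} [TopologicalSpace X]

namespace SpreadAux

theorem openA_Nb (a : X →₀ ℝ) (F : Finset C(X, ℝ)) (ε : ℝ) : OpenA (Nb a F ε) := by
  classical
  intro b hb
  have key : ∃ δ : ℝ, 0 < δ ∧ ∀ f ∈ F, δ ≤ ε - |pair b f - pair a f| := by
    have : ∀ G : Finset C(X, ℝ), G ⊆ F →
        ∃ δ : ℝ, 0 < δ ∧ ∀ f ∈ G, δ ≤ ε - |pair b f - pair a f| := by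
      intro G
      induction G using Finset.induction_on with
      | empty => exact fun _ => ⟨1, one_pos, by simp⟩
      | insert f G hf ih =>
        intro hG
        obtain ⟨δ, hδ, h⟩ := ih (fun g hg => hG (Finset.mem_insert_of_mem hg))
        have h1 : 0 < ε - |pair b f - pair a f| := by
          have := hb f (hG (Finset.mem_insert_self _ _))
          linarith
        refine ⟨min δ (ε - |pair b f - pair a f|), lt_min hδ h1, ?_⟩
        intro g hg
        rcases Finset.mem_insert.1 hg with rfl | hg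
        · exact min_le_right _ _
        · exact (min_le_left _ _).trans (h g hg)
    exact this F (Finset.Subset.refl _)
  obtain ⟨δ, hδ, h⟩ := key
  refine ⟨F, δ, hδ, ?_⟩
  intro c hc f hf
  have h1 := hc f hf
  have h2 := h f hf
  calc |pair c f - pair a f| ≤ |pair c f - pair b f| + |pair b f - pair a f| := abs_sub_le _ _ _
    _ < ε := by linarith

theorem exists_bump [T35Space X] (x : X) (W : Set X) (hW : IsOpen W) (hx : x ∈ W) :
    ∃ f : C(X, ℝ), f x = 1 ∧ (∀ y, 0 ≤ f y) ∧ (∀ y, f y ≤ 1) ∧ ∀ y, y ∉ W → f y = 0 := by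
  obtain ⟨f, hf, h0, h1⟩ := CompletelyRegularSpace.completely_regular x Wᶜ
    (isClosed_compl_iff.2 hW) (by simpa using hx)
  refine ⟨⟨fun y => 1 - (f y : ℝ), by fun_prop⟩, ?_, ?_, ?_, ?_⟩
  · simp [h0]
  · intro y
    simpa using (f y).2.2
  · intro y
    simpa using (f y).2.1
  · intro y hy
    have := h1 (show y ∈ Wᶜ from hy)
    simp [this]

/-- pigeonhole: an uncountable type mapped to a countable one -/
theorem exists_fiber {I J : Type} [Uncountable I] [Countable J] (f : I → J) :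
    ∃ j, ¬ (f ⁻¹' {j}).Countable := by
  by_contra hcon
  push Not at hcon
  have h1 : (⋃ j, f ⁻¹' {j}).Countable := Set.countable_iUnion hcon
  have h2 : (⋃ j, f ⁻¹' {j}) = Set.univ := by
    ext i
    simp
  rw [h2, Set.countable_univ_iff] at h1
  exact not_countable h1

theorem exists_three {I J : Type} [Uncountable I] [Countable J] (f : I → J) :
    ∃ a b c : I, a ≠ b ∧ a ≠ c ∧ b ≠ c ∧ f a = f b ∧ f a = f c := by
  classical
  obtain ⟨j, hj⟩ := exists_fiber f
  have hinf : (f ⁻¹' {j}).Infinite := fun hfin => hj hfin.countable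
  obtain ⟨s, hs, hc⟩ := hinf.exists_subset_card_eq 3
  obtain ⟨a, b, c, hab, hac, hbc, rfl⟩ := Finset.card_eq_three.1 hc
  have ha : f a = j := hs (by simp)
  have hb : f b = j := hs (by simp)
  have hc' : f c = j := hs (by simp)
  exact ⟨a, b, c, hab, hac, hbc, by rw [ha, hb], by rw [ha, hc']⟩

theorem core [T35Space X] (h : CountProp X) {I : Type} [Uncountable I] (n : ℕ)
    (x : I → Fin n → X) (U : I → Fin n → Set X) (hU : ∀ α i, IsOpen (U α i))
    (hx : ∀ α i, x α i ∈ U α i) (hd : ∀ α β, α ≠ β → ∃ i, x β i ∉ U α i)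
    (G : Fin n → Set X) (hG : ∀ i, IsOpen (G i)) (hxG : ∀ α i, x α i ∈ G i)
    (E : Fin n → Fin n → Prop) (hE : ∀ α i j, E i j → x α j = x α i)
    (hE' : ∀ i j, ¬ E i j → Disjoint (G i) (G j)) : False := by
  classical
  have hErefl : ∀ i, E i i := by
    intro i
    by_contra hne
    obtain ⟨α, -⟩ := exists_three (fun i : I => (0 : ℕ))
    exact Set.disjoint_left.1 (hE' i i hne) (hxG α i) (hxG α i)
  -- n is positive
  have hn : 0 < n := by
    rcases Nat.eq_zero_or_pos n with rfl | hn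
    · obtain ⟨a, b, c, hab, -⟩ := exists_three (fun i : I => (0 : ℕ))
      obtain ⟨i, -⟩ := hd a b hab
      exact i.elim0
    · exact hn
  have hnR : (0 : ℝ) < n := by exact_mod_cast hn
  -- bump functions
  have hbump : ∀ α i, ∃ f : C(X, ℝ), f (x α i) = 1 ∧ (∀ y, 0 ≤ f y) ∧ (∀ y, f y ≤ 1) ∧
      ∀ y, y ∉ G i ∩ ⋂ j ∈ {j | E i j}, U α j → f y = 0 := by
    intro α i
    refine exists_bump _ _ ((hG i).inter ?_) ⟨hxG α i, ?_⟩
    · exact (Set.toFinite _).isOpen_biInter fun j _ => hU α j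
    · refine Set.mem_iInter₂.2 fun j hj => ?_
      rw [← hE α i j hj]
      exact hx α j
  choose F hF1 hF0 hFle hFout using hbump
  have hFG : ∀ α i y, y ∉ G i → F α i y = 0 := fun α i y hy => hFout α i y (fun h => hy h.1)
  have hFU : ∀ α i y, y ∉ U α i → F α i y = 0 := fun α i y hy =>
    hFout α i y (fun h => hy (Set.mem_iInter₂.1 h.2 i (hErefl i)))
  set μ : Fin n → ℝ := fun i => ((Finset.univ.filter fun j => E i j).card : ℝ) with hμ
  have hμ1 : ∀ i, 1 ≤ μ i := by
    intro i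
    have : 0 < (Finset.univ.filter fun j => E i j).card :=
      Finset.card_pos.2 ⟨i, by simpa using hErefl i⟩
    show (1 : ℝ) ≤ ((Finset.univ.filter fun j => E i j).card : ℝ)
    exact_mod_cast this
  set l : I → X →₀ ℝ := fun β => ∑ j, Finsupp.single (x β j) 1 with hl
  have hpl : ∀ β f, pair (l β) f = ∑ j, f (x β j) := by
    intro β f
    rw [hl]
    simp only [pair_sum_left, pair_single, one_mul]
  have hpair : ∀ α β i, pair (l β) (F α i) = μ i * F α i (x β i) := by
    intro α β i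
    rw [hpl, ← Finset.sum_filter_add_sum_filter_not Finset.univ (fun j => E i j)]
    have h1 : ∑ j ∈ Finset.univ.filter (fun j => E i j), F α i (x β j) =
        μ i * F α i (x β i) := by
      rw [Finset.sum_congr rfl (g := fun _ => F α i (x β i))]
      · rw [Finset.sum_const, nsmul_eq_mul]
      · intro j hj
        rw [hE β i j (Finset.mem_filter.1 hj).2]
    have h2 : ∑ j ∈ Finset.univ.filter (fun j => ¬ E i j), F α i (x β j) = 0 := by
      refine Finset.sum_eq_zero fun j hj => hFG α i _ fun hmem => ?_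
      exact Set.disjoint_left.1 (hE' i j (Finset.mem_filter.1 hj).2) hmem (hxG β j)
    rw [h1, h2, add_zero]
  have hself : ∀ α i, pair (l α) (F α i) = μ i := by
    intro α i
    rw [hpair, hF1, mul_one]
  set N : I → Set (X →₀ ℝ) := fun α =>
    Nb (l α) (Finset.univ.image (F α)) (1 / (2 * n)) with hN
  have hNmem : ∀ α a, a ∈ N α → ∀ i, |pair a (F α i) - μ i| < 1 / (2 * n) := by
    intro α a ha i
    have := ha (F α i) (Finset.mem_image_of_mem _ (Finset.mem_univ _))
    rwa [hself] at this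
  have hO : OpenA (⋃ α, N α) := by
    intro a ha
    obtain ⟨α, hα⟩ := Set.mem_iUnion.1 ha
    obtain ⟨F', ε, hε, hsub⟩ := openA_Nb _ _ _ a hα
    exact ⟨F', ε, hε, hsub.trans (Set.subset_iUnion N α)⟩
  obtain ⟨S, hS, hSO⟩ := h _ hO
  have hlN : ∀ α, l α ∈ ⋃ α, N α := fun α =>
    Set.mem_iUnion.2 ⟨α, self_mem_Nb _ _ (by positivity)⟩
  have hch : ∀ α, ∃ Fs : Finset S, ∃ m : ℕ,
      Nb (l α) (Fs.map (Function.Embedding.subtype _)) (1 / (m + 1)) ⊆ ⋃ α, N α := by
    intro α
    obtain ⟨F', hF', ε, hε, hsub⟩ := hSO _ (hlN α)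
    obtain ⟨m, hm⟩ := exists_nat_one_div_lt hε
    refine ⟨F'.subtype (· ∈ S), m, ?_⟩
    refine Set.Subset.trans ?_ hsub
    intro b hb f hf
    refine (hb f ?_).trans hm
    refine Finset.mem_map.2 ⟨⟨f, hF' hf⟩, ?_, rfl⟩
    simpa using hf
  choose Fs m hsub using hch
  have : Countable S := hS.to_subtype
  set D : I → ℕ × Finset (S × ℤ) := fun α =>
    (m α, (Fs α).image fun f : S => (f, ⌊((m α : ℝ) + 1) * pair (l α) (f : C(X, ℝ))⌋)) with hD
  obtain ⟨α, β, γ, hab, hac, hbc, h1, h2⟩ := exists_three D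
  -- closeness
  have hclose : ∀ α β : I, D α = D β → ∀ f ∈ Fs α,
      |pair (l β) (f : C(X, ℝ)) - pair (l α) (f : C(X, ℝ))| < 1 / ((m α : ℝ) + 1) := by
    intro α β hαβ f hf
    have hm : m α = m β := congrArg Prod.fst hαβ
    have himg := congrArg Prod.snd hαβ
    have hmem : (f, ⌊((m α : ℝ) + 1) * pair (l α) (f : C(X, ℝ))⌋) ∈
        (Fs β).image fun f : S => (f, ⌊((m β : ℝ) + 1) * pair (l β) (f : C(X, ℝ))⌋) := by
      have : (f, ⌊((m α : ℝ) + 1) * pair (l α) (f : C(X, ℝ))⌋) ∈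
        (Fs α).image fun f : S => (f, ⌊((m α : ℝ) + 1) * pair (l α) (f : C(X, ℝ))⌋) :=
        Finset.mem_image_of_mem (fun f : S =>
          (f, ⌊((m α : ℝ) + 1) * pair (l α) (f : C(X, ℝ))⌋)) hf
      rw [show (Fs α).image (fun f : S => (f, ⌊((m α : ℝ) + 1) * pair (l α) (f : C(X, ℝ))⌋)) =
        (Fs β).image fun f : S => (f, ⌊((m β : ℝ) + 1) * pair (l β) (f : C(X, ℝ))⌋) from himg]
        at this
      exact this
    obtain ⟨g, -, hg⟩ := Finset.mem_image.1 hmem
    obtain ⟨hg1, hg2⟩ := Prod.mk.inj hg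
    rw [hg1, ← hm] at hg2
    have h3 := Int.abs_sub_lt_one_of_floor_eq_floor hg2
    have hpos : (0 : ℝ) < (m α : ℝ) + 1 := by positivity
    rw [← mul_sub, abs_mul, abs_of_pos hpos] at h3
    rw [lt_div_iff₀ hpos]
    linarith
  set a : X →₀ ℝ := (1 / 3 : ℝ) • (l α + l β + l γ) with ha
  have hpa : ∀ f, pair a f = (pair (l α) f + pair (l β) f + pair (l γ) f) / 3 := by
    intro f
    rw [ha, pair_smul_left, pair_add_left, pair_add_left]
    ring
  have haO : a ∈ ⋃ α, N α := by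
    apply hsub α
    intro f hf
    obtain ⟨f, hf', rfl⟩ := Finset.mem_map.1 hf
    have h3 := hclose α β h1 f hf'
    have h4 := hclose α γ h2 f hf'
    have h5 : (0 : ℝ) < 1 / ((m α : ℝ) + 1) := by positivity
    simp only [Function.Embedding.subtype_apply]
    rw [abs_lt] at h3 h4
    rw [hpa, abs_lt]
    constructor <;> linarith [h3.1, h3.2, h4.1, h4.2]
  obtain ⟨δ, hδ⟩ := Set.mem_iUnion.1 haO
  -- the defect of a point
  set q : I → ℝ := fun ξ => ∑ i, (1 - F δ i (x ξ i)) with hq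
  have hq0 : ∀ ξ, 0 ≤ q ξ := fun ξ => Finset.sum_nonneg fun i _ => by
    linarith [hFle δ i (x ξ i)]
  have hq1 : ∀ ξ, δ ≠ ξ → 1 ≤ q ξ := by
    intro ξ hξ
    obtain ⟨i, hi⟩ := hd δ ξ hξ
    calc (1 : ℝ) = 1 - F δ i (x ξ i) := by rw [hFU δ i _ hi, sub_zero]
      _ ≤ q ξ := Finset.single_le_sum
        (f := fun i => 1 - F δ i (x ξ i)) (fun j _ => by linarith [hFle δ j (x ξ j)])
        (Finset.mem_univ i)
  have hsum : q α + q β + q γ ≤ 3 / 2 := by
    rw [hq]
    simp only
    rw [← Finset.sum_add_distrib, ← Finset.sum_add_distrib]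
    have hterm : ∀ i : Fin n, (1 - F δ i (x α i)) + (1 - F δ i (x β i)) + (1 - F δ i (x γ i)) ≤
        3 / (2 * n) := by
      intro i
      have h3 := hNmem δ a hδ i
      rw [hpa, hpair, hpair, hpair] at h3
      have h4 := (abs_lt.1 h3).1
      have h5 : (0 : ℝ) ≤ (1 - F δ i (x α i)) + (1 - F δ i (x β i)) + (1 - F δ i (x γ i)) := by
        linarith [hFle δ i (x α i), hFle δ i (x β i), hFle δ i (x γ i)]
      have h6 : (1 - F δ i (x α i)) + (1 - F δ i (x β i)) + (1 - F δ i (x γ i)) ≤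
          μ i * ((1 - F δ i (x α i)) + (1 - F δ i (x β i)) + (1 - F δ i (x γ i))) :=
        le_mul_of_one_le_left h5 (hμ1 i)
      have h7 : (3 : ℝ) / (2 * n) = 3 * (1 / (2 * n)) := by ring
      rw [h7]
      refine h6.trans ?_
      nlinarith [h4]
    calc ∑ i : Fin n, ((1 - F δ i (x α i)) + (1 - F δ i (x β i)) + (1 - F δ i (x γ i)))
        ≤ ∑ i : Fin n, (3 / (2 * n) : ℝ) := Finset.sum_le_sum fun i _ => hterm i
      _ = 3 / 2 := by
        rw [Finset.sum_const, Finset.card_univ, Fintype.card_fin, nsmul_eq_mul]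
        field_simp
  by_cases ha' : δ = α
  · have h3 := hq1 β (by rw [ha']; exact hab)
    have h4 := hq1 γ (by rw [ha']; exact hac)
    linarith [hq0 α]
  · have h3 := hq1 α ha'
    by_cases hb' : δ = β
    · have h4 := hq1 γ (by rw [hb']; exact hbc)
      linarith [hq0 β]
    · have h4 := hq1 β hb'
      linarith [hq0 γ]

theorem exists_sep [T35Space X] (h : CountProp X) : ∃ S : Set C(X, ℝ), S.Countable ∧
    ∀ x y : X, x ≠ y → ∃ g ∈ S, g x ≠ g y := by
  have hO : OpenA {a : X →₀ ℝ | ∃ f : C(X, ℝ), pair a f ≠ 0} := by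
    rintro a ⟨f, hf⟩
    refine ⟨{f}, |pair a f|, abs_pos.2 hf, ?_⟩
    intro b hb
    have h1 := hb f (Finset.mem_singleton_self f)
    refine ⟨f, fun h0 => ?_⟩
    rw [h0, zero_sub, abs_neg] at h1
    exact lt_irrefl _ h1
  obtain ⟨S, hS, hSO⟩ := h _ hO
  refine ⟨S, hS, ?_⟩
  intro x y hxy
  have hmem : (Finsupp.single x 1 - Finsupp.single y 1 : X →₀ ℝ) ∈
      {a : X →₀ ℝ | ∃ f : C(X, ℝ), pair a f ≠ 0} := by
    obtain ⟨f, h1, -, -, h0⟩ := exists_bump x {y}ᶜ isOpen_compl_singleton hxy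
    refine ⟨f, ?_⟩
    rw [pair_sub_left, pair_single, pair_single, h1, h0 y (by simp)]
    norm_num
  obtain ⟨F, hFS, ε, hε, hsub⟩ := hSO _ hmem
  by_contra hcon
  push Not at hcon
  have h0 : (0 : X →₀ ℝ) ∈ Nb (Finsupp.single x 1 - Finsupp.single y 1) F ε := by
    intro g hg
    rw [pair_zero_left, pair_sub_left, pair_single, pair_single, hcon g (hFS hg)]
    simpa using hε
  obtain ⟨f, hf⟩ := hsub h0
  exact hf (pair_zero_left f)

end SpreadAux

open SpreadAux in
/-- no uncountable discrete family of `n`-tuples -/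
theorem no_discrete [T35Space X] (h : CountProp X) {I : Type} [Uncountable I] (n : ℕ)
    (x : I → Fin n → X) (U : I → Fin n → Set X) (hU : ∀ α i, IsOpen (U α i))
    (hx : ∀ α i, x α i ∈ U α i) (hd : ∀ α β, α ≠ β → ∃ i, x β i ∉ U α i) : False := by
  classical
  obtain ⟨S, hS, hsep⟩ := exists_sep h
  have : Countable S := hS.to_subtype
  set e : X → (S → ℝ) := fun y g => (g : C(X, ℝ)) y with he
  have hec : Continuous e := continuous_pi fun g => (g : C(X, ℝ)).continuous
  have hei : Function.Injective e := by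
    intro y z hyz
    by_contra hne
    obtain ⟨g, hg, hgne⟩ := hsep y z hne
    exact hgne (congrFun hyz ⟨g, hg⟩)
  set 𝓑 := TopologicalSpace.countableBasis (S → ℝ) with h𝓑
  have h𝓑b : TopologicalSpace.IsTopologicalBasis 𝓑 :=
    TopologicalSpace.isBasis_countableBasis _
  have : Countable 𝓑 := (TopologicalSpace.countable_countableBasis _).to_subtype
  have hch : ∀ α, ∃ G : Fin n → 𝓑, (∀ i, e (x α i) ∈ (G i : Set (S → ℝ))) ∧
      (∀ i j, x α i ≠ x α j → Disjoint (G i : Set (S → ℝ)) (G j)) := by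
    intro α
    obtain ⟨V, hV1, hV2⟩ := (Set.finite_range fun i => e (x α i)).t2_separation
    have hB : ∀ i, ∃ B ∈ 𝓑, e (x α i) ∈ B ∧ B ⊆ V (e (x α i)) := fun i =>
      h𝓑b.exists_subset_of_mem_open (hV1 _).1 (hV1 _).2
    choose B hB1 hB2 hB3 using hB
    refine ⟨fun i => ⟨B i, hB1 i⟩, hB2, ?_⟩
    intro i j hij
    have hne : e (x α i) ≠ e (x α j) := fun h => hij (hei h)
    exact (hV2 ⟨i, rfl⟩ ⟨j, rfl⟩ hne).mono (hB3 i) (hB3 j)
  choose G hG1 hG2 using hch
  set D : I → (Fin n → 𝓑) × (Fin n → Fin n → Prop) := fun α =>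
    (G α, fun i j => x α j = x α i) with hD
  have : Countable (Fin n → Fin n → Prop) := by
    have : Finite Prop := inferInstance
    infer_instance
  obtain ⟨d, hdc⟩ := exists_fiber D
  have : Uncountable (D ⁻¹' {d}) := by
    rw [← not_countable_iff]
    exact fun hc => hdc (Set.countable_coe_iff.1 hc)
  have hD1 : ∀ α : D ⁻¹' {d}, G α = d.1 := fun α => congrArg Prod.fst α.2
  have hD2 : ∀ α : D ⁻¹' {d}, (fun i j => x α j = x α i) = d.2 := fun α =>
    congrArg Prod.snd α.2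
  obtain ⟨α0, -⟩ := exists_three (fun i : D ⁻¹' {d} => (0 : ℕ))
  refine core (I := D ⁻¹' {d}) h n (fun α => x α) (fun α => U α) (fun α => hU α)
    (fun α => hx α) ?_ (fun i => e ⁻¹' (d.1 i : Set (S → ℝ))) ?_ ?_ d.2 ?_ ?_
  · intro α β hαβ
    exact hd α β fun h => hαβ (Subtype.ext h)
  · intro i
    exact (h𝓑b.isOpen (d.1 i).2).preimage hec
  · intro α i
    show e (x α i) ∈ (d.1 i : Set (S → ℝ))
    rw [← hD1 α]
    exact hG1 α i
  · intro α i j hij
    rw [← hD2 α] at hij
    exact hij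
  · intro i j hij
    have hne : x α0 i ≠ x α0 j := by
      intro heq
      apply hij
      rw [← hD2 α0]
      exact heq.symm
    have := hG2 α0 i j hne
    rw [hD1 α0] at this
    exact this.preimage e

end Pool.Agent.CpPN
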